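import Pool.Agent.P.MP_bdc337_an.LN.Core

/-! From the class to the polynomial data; pointwise inequalities. -/

set_option autoImplicit false

open Finset PowerSeries Metric Filter Topology Real

namespace Pool.Agent.P.MP_bdc337_an.LN

open UO

variable {a : ℝ} {q H G : ℂ → ℂ}

lemma dil (h : Dat a q H G) {r : ℝ} (r0 : 0 < r) (r1 : r < 1) :
    Dat a (fun z => q (r * z)) (fun z => r * H (r * z)) (fun z => G (r * z)) := by
  have nr : ‖(r : ℂ)‖ < 1 := by rwa [Complex.norm_real, Real.norm_of_nonneg r0.le]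
  have hm : ∀ z ∈ ball (0 : ℂ) 1, (r : ℂ) * z ∈ ball (0 : ℂ) 1 := fun z hz =>
    mem_mul nr (mem_ball_zero_iff.1 hz).le
  refine ⟨h.a0, h.a1, h.qd.comp (by fun_prop) hm, by simp [h.q0], fun z hz => h.re _ (hm z hz),
    fun z hz => h.arg _ (hm z hz), fun z hz => ?_, by simp [h.G0], fun z hz => ?_⟩
  · rw [← h.hH _ (hm z hz)]
    ring
  · have l1 : HasDerivAt (fun z : ℂ => (r : ℂ) * z) r z := by
      simpa using (hasDerivAt_id z).const_mul (r : ℂ)
    exact ((h.Gd _ (hm z hz)).comp z l1).congr_deriv (mul_comm _ _)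

lemma poly_deriv {c : ℕ → ℂ} (c0 : c 0 = 0) (n : ℕ) (z : ℂ) :
    z * deriv (poly n fun k => c k / k) z = poly n c z := by
  have : HasDerivAt (poly n fun k => c k / k) (∑ k ∈ range n, c k / k * (k * z ^ (k - 1))) z :=
    HasDerivAt.fun_sum fun k _ => (hasDerivAt_pow k z).const_mul _
  rw [this.deriv, mul_sum, poly]
  refine sum_congr rfl fun k _ => ?_
  rcases k with _ | k
  · simp [c0]
  · have : ((k + 1 : ℕ) : ℂ) ≠ 0 := by exact_mod_cast Nat.succ_ne_zero k
    rw [Nat.add_sub_cancel, pow_succ]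
    field_simp

lemma poly_scale (n : ℕ) (c : ℕ → ℂ) (r z : ℂ) :
    poly n c (r * z) = poly n (fun k => c k * r ^ k) z := by
  simp only [poly, mul_pow, mul_assoc]

lemma m0_eq (q0 : q 0 = 1) {N : ℕ} (hN : 1 ≤ N) (z : ℂ) :
    m0 N q z = 1 + poly N (ct N fun k => coeff k (tay q - 1)) z := by
  obtain ⟨n, rfl⟩ : ∃ n, N = n + 1 := ⟨N - 1, by omega⟩
  simp only [m0, poly, ct, sum_range_succ', map_sub, coeff_one, coeff_zero_tay, q0]
  simp [add_comm]

lemma avg_re {g : ℂ → ℂ} (hg : Differentiable ℂ g) :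
    circleAverage (fun u => (g u).re) 0 1 = (g 0).re := by
  have := coeff_eq_avg one_pos hg.differentiableOn 0
  rw [coeff_zero_tay] at this
  simp only [pow_zero, div_one] at this
  rw [this, re_avg hg.continuous.continuousOn.circleIntegrable']

lemma arg_cont {m : ℂ → ℂ} (hm : Continuous m) (hre : ∀ u : ℂ, ‖u‖ = 1 → 0 < (m u).re) :
    ContinuousOn (fun u => Complex.arg (m u)) (sphere 0 |1|) := fun u hu =>
  ((Complex.continuousAt_arg (Or.inl (hre u (by simpa using hu)))).comp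
    hm.continuousAt).continuousWithinAt

lemma phi_cont (a : ℝ) {m : ℂ → ℂ} (hm : Continuous m) (hre : ∀ u : ℂ, ‖u‖ = 1 → 0 < (m u).re) :
    ContinuousOn (fun u => phi a (m u)) (sphere 0 |1|) :=
  hm.norm.continuousOn.mul (continuous_cos.comp_continuousOn ((arg_cont hm hre).div_const a))

lemma phi_nonneg (h0 : 0 < a) {x : ℂ} (hx : |Complex.arg x| < a * π / 2) : 0 ≤ phi a x := by
  obtain ⟨l1, l2⟩ := abs_lt.1 hx
  apply mul_nonneg (norm_nonneg _) (cos_nonneg_of_mem_Icc ⟨_, _⟩)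
  · rw [le_div_iff₀ h0]
    linarith
  · rw [div_le_iff₀ h0]
    linarith

lemma phi_le (a : ℝ) (x : ℂ) : phi a x ≤ ‖x‖ :=
  mul_le_of_le_one_right (norm_nonneg _) (cos_le_one _)

theorem bridge (h : Dat a q H G) {N : ℕ} (hN : 2 ≤ N) {r : ℝ} (r0 : 0 < r) (r1 : r < 1) :
    ∃ (c : ℕ → ℂ) (q' H' G' : ℂ → ℂ), c 0 = 0 ∧ Dat a q' H' G' ∧
      (∀ u, q' (r * u) = 1 + poly N (ct N c) u) ∧ (∀ u, G' (r * u) = gt N c u) ∧
      ∀ v s M : ℝ, 0 < v → N * v ^ 2 = 1 → 0 ≤ s → ∑ k ∈ range N, ‖ct N c k‖ ^ 2 ≤ s ^ 2 →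
        2 * s * v ≤ 1 → (∀ u : ℂ, ‖u‖ = 1 → ‖Complex.exp (gt N c u)‖ ≤ M) →
        ∃ Γ : ℂ → ℂ, Differentiable ℂ Γ ∧ Γ 0 = 1 ∧
          (∀ u : ℂ, ‖u‖ = 1 → ‖Γ u - Complex.exp (gt N c u)‖ ≤ 76 * M * s * v) ∧
          r ^ N * cN G N ≤ 2 * a * circleAverage
            (fun u => phi a (1 + poly N (ct N c) u) * ‖Γ u‖) 0 1 + 12 * M * s ^ 2 * v ^ 2 := by
  have N1 : 1 ≤ N := by omega
  set c1 : ℕ → ℂ := fun k => coeff k (tay q - 1) with hc1
  have c10 : c1 0 = 0 := by simp only [hc1, map_sub, coeff_zero_tay, h.q0]; simp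
  have t0 : ct N c1 0 = 0 := by simp [ct, c10]
  have nr : ‖(r : ℂ)‖ < 1 := by rwa [Complex.norm_real, Real.norm_of_nonneg r0.le]
  have e1 : ∀ u, m0 N q (r * u) = 1 + poly N (ct N fun k => c1 k * r ^ k) u := by
    intro u
    rw [m0_eq h.q0 N1, poly_scale]
    simp only [ct, mul_assoc, hc1]
    rfl
  refine ⟨fun k => c1 k * r ^ k, m0 N q, deriv (gt N c1), gt N c1, by simp [c10],
    ⟨h.a0, h.a1, (poly_diff _ _).differentiableOn, ?_,
      fun z hz => (loc0 h N1 (mem_ball_zero_iff.1 hz)).1,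
      fun z hz => (loc0 h N1 (mem_ball_zero_iff.1 hz)).2, fun z _ => ?_, poly_zero (by simp),
      fun z _ => (poly_diff _ _ z).hasDerivAt⟩, e1, fun u => ?_, ?_⟩
  · rw [m0_eq h.q0 N1, poly_zero t0, add_zero]
  · rw [gt, poly_deriv t0, m0_eq h.q0 N1]
    ring
  · rw [gt, gt, poly_scale]
    congr 1
    funext k
    simp only [ct]
    ring
  · intro v s M v0 hv s0 hs hsv hM
    have hd := dil h r0 r1
    have e2 : tay (fun z => q (r * z)) - 1 = PowerSeries.mk fun k => c1 k * r ^ k := by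
      ext k
      simp only [hc1, map_sub, tay_scale, coeff_mk, coeff_one]
      split_ifs with hk
      · simp [hk]
      · simp
    have eu := hd.euler
    rw [e2] at eu
    have dg : Differentiable ℂ fun z => m1 N q (r * z) :=
      (poly_diff _ _).comp (by fun_prop)
    obtain ⟨Γ, g1, g2, g3, g4⟩ := core (by simp [c10]) (by rw [coeff_zero_tay]; simp [h.G0]) eu hN
      v0 hv s0 hs hsv hM dg (fun k hk => by
        rw [tay_scale, m1, coeff_poly, if_pos (by omega), show min k (2 * N - k) = k by omega]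
        simp only [hc1, map_sub, coeff_one]
        split_ifs with hk
        · simp [hk]
        · ring)
    refine ⟨Γ, g1, g2, g3, ?_⟩
    rw [tay_scale (fun z => Complex.exp (G z)), norm_mul, norm_pow, Complex.norm_real,
      Real.norm_of_nonneg r0.le] at g4
    have hre : ∀ u : ℂ, ‖u‖ = 1 → 0 < (1 + poly N (ct N fun k => c1 k * r ^ k) u).re := by
      intro u hu
      rw [← e1]
      exact (loc0 h N1 (mem_ball_zero_iff.1 (mem_mul nr hu.le))).1
    have cg := dg.continuous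
    have cΓ := g1.continuous
    have k := avg_le (g := fun u => ‖m1 N q (r * u)‖ * ‖Γ u‖)
      (k := fun u => 2 * a * (phi a (1 + poly N (ct N fun k => c1 k * r ^ k) u) * ‖Γ u‖))
      (cint (cg.norm.mul cΓ.norm))
      ((continuousOn_const.mul ((phi_cont a (continuous_const.add (poly_diff _ _).continuous)
        hre).mul cΓ.norm.continuousOn)).circleIntegrable') (fun u hu => by
        have := loc1 h N1 (mem_ball_zero_iff.1 (mem_mul nr hu.le))
        rw [e1] at this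
        nlinarith [mul_le_mul_of_nonneg_right this (norm_nonneg (Γ u))])
    rw [avg_mul] at k
    unfold cN
    linarith

lemma jav_eq (b : ℝ) (q G : ℂ → ℂ) (r : ℝ) :
    jav b q G r = circleAverage (fun u => phi b (q (r * u)) * exp (G (r * u)).re) 0 1 := by
  rw [jav, circleAverage_eq_circleAverage_zero_one]
  simp only [add_zero]

lemma lim_r {x y : ℝ} {N : ℕ} (h : ∀ r : ℝ, 0 < r → r < 1 → r ^ N * x ≤ y) : x ≤ y := by
  have hc : ContinuousAt (fun r : ℝ => r ^ N * x) 1 := by fun_prop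
  have t := hc.tendsto.mono_left (nhdsWithin_le_nhds (s := Set.Iio 1))
  have := le_of_tendsto t (b := y) (by
    filter_upwards [Ioo_mem_nhdsLT (zero_lt_one' ℝ)] with r hr
    exact h r hr.1 hr.2)
  simpa using this

lemma phi_gap {b : ℝ} (h0 : 0 < a) (hab : a ≤ b) {x : ℂ} (hx : |Complex.arg x| < a * π / 2) :
    phi a x ≤ phi b x - 2 / π ^ 2 * (1 / a ^ 2 - 1 / b ^ 2) * (‖x‖ * Complex.arg x ^ 2) := by
  have hpi := pi_pos
  have b0 : 0 < b := by linarith
  set t := |Complex.arg x| with ht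
  have t0 : 0 ≤ t := abs_nonneg _
  have e1 : ∀ d : ℝ, 0 < d → cos (Complex.arg x / d) = cos (t / d) := by
    intro d hd
    rw [← cos_abs, abs_div, abs_of_pos hd]
  have u0 : 0 ≤ t / b := by positivity
  have u1 : t / b ≤ t / a := div_le_div_of_nonneg_left t0 h0 hab
  have u2 : t / a ≤ π / 2 := by rw [div_le_iff₀ h0]; linarith
  have s1 := mul_le_sin (x := (t / a + t / b) / 2) (by linarith) (by linarith)
  have s2 := mul_le_sin (x := (t / a - t / b) / 2) (by linarith) (by linarith)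
  have s3 := mul_le_mul s1 s2 (by have : 0 ≤ (t / a - t / b) / 2 := by linarith
                                  positivity) (le_trans (by positivity) s1)
  have e2 := cos_sub_cos (t / a) (t / b)
  have e3 : 2 / π ^ 2 * (1 / a ^ 2 - 1 / b ^ 2) * Complex.arg x ^ 2
      = 2 * (2 / π * ((t / a + t / b) / 2) * (2 / π * ((t / a - t / b) / 2))) := by
    rw [← sq_abs (Complex.arg x), ← ht]
    field_simp
    ring
  have k : cos (t / a) ≤ cos (t / b) - 2 / π ^ 2 * (1 / a ^ 2 - 1 / b ^ 2) * Complex.arg x ^ 2 := by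
    rw [e3]
    linarith
  unfold phi
  rw [e1 a h0, e1 b b0]
  nlinarith [mul_le_mul_of_nonneg_left k (norm_nonneg x)]

lemma phi_lip (h0 : 0 < a) (h1 : a ≤ 1) {x : ℂ} (hx : |Complex.arg x| < a * π / 2) :
    |phi a x - 1| ≤ (1 + 2 / a) * ‖x - 1‖ := by
  have hpi := pi_pos
  have p4 := pi_le_four
  set t := |Complex.arg x| with ht
  have t0 : 0 ≤ t := abs_nonneg _
  have e1 : cos (Complex.arg x / a) = cos (t / a) := by rw [← cos_abs, abs_div, abs_of_pos h0]
  have u0 : 0 ≤ t / a := by positivity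
  have u2 : t / a ≤ π / 2 := by rw [div_le_iff₀ h0]; linarith
  have c1 : 1 - t / a ≤ cos (t / a) := by nlinarith [one_sub_sq_div_two_le_cos (x := t / a)]
  have c2 := cos_le_one (t / a)
  have s1 := mul_abs_le_abs_sin (x := Complex.arg x) (by rw [← ht]; nlinarith)
  have s2 : ‖x‖ * |sin (Complex.arg x)| ≤ ‖x - 1‖ := by
    have := Complex.abs_im_le_norm (x - 1)
    rwa [Complex.sub_im, Complex.one_im, sub_zero, ← Complex.norm_mul_sin_arg, abs_mul,
      abs_norm] at this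
  have s3 : 1 / 2 * t ≤ 2 / π * t := by
    apply mul_le_mul_of_nonneg_right _ t0
    rw [le_div_iff₀ hpi]
    linarith
  have s4 : ‖x‖ * t ≤ 2 * ‖x - 1‖ := by
    rw [← ht] at s1
    nlinarith [mul_le_mul_of_nonneg_left (s3.trans s1) (norm_nonneg x)]
  have s5 : ‖x‖ * (t / a) ≤ 2 / a * ‖x - 1‖ := by
    rw [← mul_div_assoc, div_mul_eq_mul_div]
    gcongr
  have n1 := abs_le.1 (abs_norm_sub_norm_le x 1)
  rw [norm_one] at n1
  have n2 : 0 ≤ 2 / a * ‖x - 1‖ := by positivity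
  unfold phi
  rw [e1, abs_le]
  constructor
  · nlinarith [mul_le_mul_of_nonneg_left c1 (norm_nonneg x)]
  · nlinarith [mul_le_mul_of_nonneg_left c2 (norm_nonneg x)]

lemma major (h1 : a < 1 / 2) {x : ℂ} (hr : 0 < x.re) (hx : |Complex.arg x| < a * π / 2)
    {A : ℝ} (hA : A * cos (a * π) = 4) (A0 : 0 < A) :
    ‖x‖ ≤ 2 * x.re ∧ Complex.arg x ^ 2 ≤ 1 ∧
      ‖x - 1‖ ^ 2 ≤ A * ((x - 1) ^ 2).re + 2 * A * (A + 1) * (‖x‖ * Complex.arg x ^ 2) := by
  have hpi := pi_pos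
  have p4 := pi_le_four
  have t0 := abs_nonneg (Complex.arg x)
  set g := cos (a * π) with hg
  have g0 : 0 < g := by nlinarith
  have g1 : g ≤ 1 := cos_le_one _
  have c1 : g ≤ cos (2 * Complex.arg x) := by
    rw [← cos_abs (2 * Complex.arg x), abs_mul, abs_two]
    exact cos_le_cos_of_nonneg_of_le_pi (by linarith) (by nlinarith) (by linarith)
  rw [cos_two_mul'] at c1
  have eX := Complex.norm_mul_cos_arg x
  have eY := Complex.norm_mul_sin_arg x
  have eN : ‖x‖ ^ 2 = x.re ^ 2 + x.im ^ 2 := by rw [Complex.sq_norm, Complex.normSq_apply]; ring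
  have k1 : g * ‖x‖ ^ 2 ≤ x.re ^ 2 - x.im ^ 2 := by
    rw [← eX, ← eY]
    nlinarith [mul_le_mul_of_nonneg_left c1 (sq_nonneg ‖x‖)]
  have k2 : x.im ^ 2 ≤ (1 - g) * x.re ^ 2 := by nlinarith [mul_nonneg g0.le (sq_nonneg x.im)]
  have k3 : ‖x‖ ≤ 2 * x.re := by
    apply abs_le_of_sq_le_sq' _ (by linarith) |>.2
    nlinarith [mul_nonneg g0.le (sq_nonneg x.re)]
  have k4 : x.im ^ 2 ≤ ‖x‖ ^ 2 * Complex.arg x ^ 2 := by
    rw [← eY, mul_pow]
    exact mul_le_mul_of_nonneg_left sin_sq_le_sq (sq_nonneg _)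
  refine ⟨k3, ?_, ?_⟩
  · rw [← sq_abs]
    have : |Complex.arg x| ≤ 1 := by nlinarith
    nlinarith
  · have e1 : ‖x - 1‖ ^ 2 = (x.re - 1) ^ 2 + x.im ^ 2 := by
      rw [Complex.sq_norm, Complex.normSq_apply]
      simp
      ring
    have e2 : ((x - 1) ^ 2).re = (x.re - 1) ^ 2 - x.im ^ 2 := by
      rw [pow_two, Complex.mul_re]
      simp
      ring
    have A4 : 4 ≤ A := by nlinarith
    have p0 : 0 ≤ ‖x‖ * Complex.arg x ^ 2 := by positivity
    rw [e1, e2]
    rcases le_total x.re A with hc | hc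
    · have k5 : x.im ^ 2 ≤ 2 * A * (‖x‖ * Complex.arg x ^ 2) := by
        have : ‖x‖ ≤ 2 * A := by linarith
        nlinarith [mul_le_mul_of_nonneg_right this p0]
      nlinarith [mul_le_mul_of_nonneg_left k5 (by linarith : 0 ≤ A + 1), sq_nonneg (x.re - 1)]
    · have k5 : (1 - g / 2) * x.re ^ 2 ≤ (x.re - 1) ^ 2 := by
        have : 4 ≤ g * x.re := by nlinarith
        nlinarith
      have k6 : (A + 1) * (1 - g) ≤ (A - 1) * (1 - g / 2) := by nlinarith
      have k7 := mul_le_mul_of_nonneg_left k2 (by linarith : 0 ≤ A + 1)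
      have k8 := mul_le_mul_of_nonneg_left k5 (by linarith : 0 ≤ A - 1)
      have k9 := mul_le_mul_of_nonneg_right k6 (sq_nonneg x.re)
      have k10 : 0 ≤ 2 * A * (A + 1) * (‖x‖ * Complex.arg x ^ 2) := by positivity
      nlinarith

lemma norm_one_add_le (R : ℂ) : ‖1 + R‖ ≤ 1 + R.re + ‖R‖ ^ 2 / 2 := by
  have e : ‖1 + R‖ ^ 2 = 1 + 2 * R.re + ‖R‖ ^ 2 := by
    rw [Complex.sq_norm, Complex.sq_norm, Complex.normSq_apply, Complex.normSq_apply]
    simp
    ring
  nlinarith [sq_nonneg (‖1 + R‖ - 1)]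

lemma exp_sub_le {x y Y : ℝ} (h1 : |x| ≤ y) (h2 : y ≤ Y) : |exp x - 1| ≤ y * exp Y := by
  obtain ⟨l1, l2⟩ := abs_le.1 h1
  have y0 : 0 ≤ y := (abs_nonneg x).trans h1
  have e1 : 1 ≤ exp Y := one_le_exp (by linarith)
  have e2 : exp x ≤ exp Y := exp_le_exp.2 (by linarith)
  have e3 := add_one_le_exp x
  have e4 := add_one_le_exp (-x)
  have e5 : exp (-x) * exp x = 1 := by rw [← exp_add]; simp
  have e6 := exp_pos x
  rw [abs_le]
  constructor
  · nlinarith
  · nlinarith [mul_le_mul_of_nonneg_right e4 e6.le, mul_le_mul_of_nonneg_right l2 e6.le,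
      mul_le_mul_of_nonneg_left e2 y0]

lemma gt_le (N : ℕ) (c : ℕ → ℂ) {s : ℝ} (s0 : 0 ≤ s) (hs : ∑ k ∈ range N, ‖ct N c k‖ ^ 2 ≤ s ^ 2)
    {u : ℂ} (hu : ‖u‖ ≤ 1) : ‖gt N c u‖ ≤ 2 * s := by
  have k0 : ∀ n : ℕ, ∑ k ∈ range (n + 2), (1 / (k : ℝ)) ^ 2 ≤ 2 - 1 / ((n : ℝ) + 1) := by
    intro n
    induction n with
    | zero => simp [sum_range_succ]; norm_num
    | succ n ih =>
      rw [sum_range_succ]
      have : (1 / ((n + 2 : ℕ) : ℝ)) ^ 2 ≤ 1 / (n + 1) - 1 / ((n + 1 : ℕ) + 1) := by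
        push_cast
        rw [div_sub_div _ _ (by positivity) (by positivity), div_pow,
          div_le_div_iff₀ (by positivity) (by positivity)]
        nlinarith [(Nat.cast_nonneg n : (0 : ℝ) ≤ n)]
      linarith
  have k1 : ∑ k ∈ range N, (1 / (k : ℝ)) ^ 2 ≤ 4 := by
    have := sum_le_sum_of_subset_of_nonneg (range_subset_range.2 (by omega : N ≤ N + 2))
      (f := fun k : ℕ => (1 / (k : ℝ)) ^ 2) fun _ _ _ => sq_nonneg _
    have p : (0 : ℝ) ≤ 1 / (N + 1) := by positivity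
    linarith [k0 N]
  have k2 := sum_mul_sq_le_sq_mul_sq (range N) (fun k => ‖ct N c k‖) fun k : ℕ => 1 / (k : ℝ)
  refine (poly_norm_le _ _ hu).trans ?_
  simp only [norm_div, Complex.norm_natCast]
  simp only [mul_one_div] at k2
  apply abs_le_of_sq_le_sq' _ (by linarith) |>.2
  have := mul_le_mul hs k1 (sum_nonneg fun _ _ => sq_nonneg _) (sq_nonneg _)
  linarith

end Pool.Agent.P.MP_bdc337_an.LN
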