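import Pool.Agent.P.MP_bdc337_an.Small

/-! The chain inequality without the adjoint system. -/

set_option autoImplicit false

open Finset PowerSeries

namespace Pool.Agent.P.MP_bdc337_an.LN

variable {a : ℝ} {w : ℂ⟦X⟧}

lemma Au_pos' (h1 : a ≤ 1 / 2) (k : ℕ) : 0 < Au a k := by
  unfold Au
  have : (0 : ℝ) ≤ k := Nat.cast_nonneg k
  apply div_pos <;> linarith

lemma pw_pos' (h0 : 0 < a) (h1 : a ≤ 1 / 2) (k : ℕ) : 0 < pw a k := by
  induction k with
  | zero => simp [pw]
  | succ k ih =>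
    unfold pw
    have := Au_pos' h1 k
    have := Cd_pos h0 (k + 1)
    positivity

lemma kap_pos' (h0 : 0 < a) (h1 : a ≤ 1 / 2) (k : ℕ) : 0 < kap a k := by
  unfold kap
  have := pw_pos' h0 h1 k
  have := Au_pos' h1 k
  have := Au_pos' h1 (k + 1)
  positivity

lemma defi_lower' (h0 : 0 < a) (h1 : a ≤ 1 / 2) (f : ℕ → ℂ) {n N : ℕ} (hn : n ≤ N)
    (hf : ∀ k, n ≤ k → f k = 0) {Re Ro : ℝ} (hRe : 0 < Re) (hRo : 0 < Ro)
    (hR : ResBound a n Re Ro) :
    a * (1 - a) * ‖f 1 - f 0‖ ^ 2 + 1 / Re * ‖f 0‖ ^ 2 + 1 / Ro * ‖f 1‖ ^ 2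
      ≤ ∑ k ∈ range (N + 1), pw a k * (‖f k‖ ^ 2 - ‖Tr a f k‖ ^ 2) := by
  rw [defi_eq h0 f (hf N hn) (hf (N + 1) (by omega)), Finset.sum_range_succ']
  simp only [pw_zero, Au_zero, Cd_zero, Nat.add_sub_cancel, zero_add, Nat.zero_sub]
  have e1 : ∀ k, pw a (k + 1) * Au a (k + 1) * Cd a (k + 1) * ‖f (k + 1 + 1) - f k‖ ^ 2
      = kap a k * ‖f (k + 2) - f k‖ ^ 2 := by
    intro k
    unfold kap
    rw [← pw_bal h0 k]
    ring
  simp only [e1]
  have e2 : ∑ k ∈ range n, kap a k * ‖f (k + 2) - f k‖ ^ 2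
      ≤ ∑ k ∈ range N, kap a k * ‖f (k + 2) - f k‖ ^ 2 := by
    apply Finset.sum_le_sum_of_subset_of_nonneg (Finset.range_subset_range.2 hn)
    intro k _ _
    have := kap_pos' h0 h1 k
    positivity
  have e3 := series (kap a) (kap_pos' h0 h1) f (per (‖f 0‖ / Re) (‖f 1‖ / Ro))
    (fun k => by unfold per; split_ifs <;> positivity)
    (fun k => by unfold per; simp only [Nat.add_mod_right]) n
  rw [hf n le_rfl, hf (n + 1) (by omega), Finset.sum_add_distrib] at e3
  have e4 := hR (‖f 0‖ / Re) (‖f 1‖ / Ro)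
  have p0 : per (‖f 0‖ / Re) (‖f 1‖ / Ro) 0 = ‖f 0‖ / Re := by simp [per]
  have p1 : per (‖f 0‖ / Re) (‖f 1‖ / Ro) 1 = ‖f 1‖ / Ro := by simp [per]
  rw [p0, p1] at e3
  simp only [norm_zero, mul_zero, sub_zero] at e3
  have q0 : 2 * (‖f 0‖ / Re) * ‖f 0‖ - (‖f 0‖ / Re) ^ 2 * Re = 1 / Re * ‖f 0‖ ^ 2 := by
    field_simp
    ring
  have q1 : 2 * (‖f 1‖ / Ro) * ‖f 1‖ - (‖f 1‖ / Ro) ^ 2 * Ro = 1 / Ro * ‖f 1‖ ^ 2 := by
    field_simp
    ring
  nlinarith

lemma kap_zero (a : ℝ) : kap a 0 = (1 - a) * (2 - a) / 3 := by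
  simp only [kap, pw_zero, Au]
  push_cast
  ring

lemma kap_ge' (h0 : 0 < a) (h1 : a ≤ 427 / 1000) (k : ℕ) : 3 / 10 ≤ kap a k := by
  have e : ∀ k : ℕ, 3 / 5 ≤ pw a (k + 1) * Au a (k + 1) := by
    intro k
    induction k with
    | zero =>
      rw [ee_succ h0, pw_zero, Au_zero, one_mul, ← mul_div_assoc, le_div_iff₀ (by positivity)]
      push_cast
      nlinarith
    | succ k ih =>
      rw [ee_succ h0]
      refine ih.trans (le_mul_of_one_le_right (by linarith) ?_)
      rw [le_div_iff₀ (by positivity)]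
      linarith
  rcases k with _ | k
  · rw [kap_zero]
    nlinarith
  · have h2 : 1 / 2 ≤ Au a (k + 1 + 1) := by
      unfold Au
      rw [le_div_iff₀ (by positivity)]
      linarith
    have := mul_le_mul (e k) h2 (by norm_num) (by linarith [e k])
    unfold kap
    linarith

lemma res_sum (h0 : 0 < a) (h1 : a ≤ 427 / 1000) (x y : ℝ) (n : ℕ) :
    ∑ k ∈ range n, per x y k ^ 2 / kap a k
      ≤ x ^ 2 * (10 / 3 * ((n + 1) / 2 : ℕ)) + y ^ 2 * (10 / 3 * (n / 2 : ℕ)) := by
  induction n with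
  | zero => simp
  | succ n ih =>
    rw [sum_range_succ]
    have k := div_kap_le (by norm_num) (kap_ge' h0 h1 n) (per x y n)
    unfold per at k ih ⊢
    split_ifs at k ⊢ with h
    · rw [show (n + 1 + 1) / 2 = (n + 1) / 2 + 1 by omega, show (n + 1) / 2 = n / 2 by omega]
      rw [show (n + 1) / 2 = n / 2 by omega] at ih
      push_cast
      linarith
    · rw [show (n + 1 + 1) / 2 = n / 2 + 1 by omega, show (n + 1) / 2 = n / 2 + 1 by omega]
      rw [show (n + 1) / 2 = n / 2 + 1 by omega] at ih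
      push_cast at ih ⊢
      linarith

lemma conc_a' {ch pe po f0 f1 : ℝ} (h0 : 0 ≤ a) (h1 : a ≤ 427 / 1000) (hpe : 0 ≤ pe)
    (hpo : 0 ≤ po) (h : 0 ≤ Qf (427 / 1000) ch 0 pe po f0 f1 0 0) :
    0 ≤ Qf a ch 0 pe po f0 f1 0 0 := by
  have e : Qf a ch 0 pe po f0 f1 0 0
      = (1 - 1000 / 427 * a) * (pe * f0 ^ 2 + po * f1 ^ 2)
        + 1000 / 427 * a * Qf (427 / 1000) ch 0 pe po f0 f1 0 0
        + a * (427 / 1000 - a) * ((f0 - f1) + ch * f0) ^ 2 := by
    unfold Qf
    ring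
  rw [e]
  have h2 : 0 ≤ 1 - 1000 / 427 * a := by linarith
  have h3 : 0 ≤ 427 / 1000 - a := by linarith
  positivity

theorem step1 (h0 : 0 < a) (h1 : 11 * a ^ 2 ≤ 2) {N n : ℕ} (hn1 : 1 ≤ n) (hn : n ≤ N)
    (f : ℕ → ℂ) (hf : ∀ k, n ≤ k → f k = 0) {ch : ℝ} (hch : ch = 1 / n ∨ ch = 0) :
    ∑ k ∈ range (N + 1), pw a k * ‖(if k = 0 then ((a * ch : ℝ) : ℂ) * f 0 else 0) + Tr a f k‖ ^ 2
      ≤ ∑ k ∈ range (N + 1), pw a k * ‖f k‖ ^ 2 := by
  have h2 : a ≤ 427 / 1000 := by nlinarith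
  rw [sum_delta]
  have main : ∀ Re Ro : ℝ, 0 < Re → 0 < Ro → ResBound a n Re Ro →
      (∀ x y : ℝ, (n = 1 → y = 0) → 0 ≤ Qf a ch 0 (1 / Re) (1 / Ro) x y 0 0) →
      ∑ k ∈ range (N + 1), pw a k * ‖Tr a f k‖ ^ 2 +
        (‖((a * ch : ℝ) : ℂ) * f 0 + (((1 - a : ℝ) : ℂ) * f 1 + (a : ℂ) * f 0)‖ ^ 2 -
          ‖((1 - a : ℝ) : ℂ) * f 1 + (a : ℂ) * f 0‖ ^ 2) ≤
      ∑ k ∈ range (N + 1), pw a k * ‖f k‖ ^ 2 := by
    intro Re Ro hRe hRo hR q
    have d1 := defi_lower' h0 (by linarith) f (N := N) hn hf hRe hRo hR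
    have d3 := Qf_complex (a := a) (ch := ch) (chp := 0) (pe := 1 / Re) (po := 1 / Ro)
      (f 0) (f 1) 0 0 (q _ _ fun h => by rw [hf 1 h.le]; rfl) (q _ _ fun h => by rw [hf 1 h.le]; rfl)
    simp only [mul_sub, Finset.sum_sub_distrib] at d1
    simp only [sub_zero, mul_zero, Complex.ofReal_zero, zero_mul, add_zero, norm_zero, sub_self,
      ne_eq, OfNat.ofNat_ne_zero, not_false_eq_true, zero_pow] at d3
    linarith
  have n0 : (0 : ℝ) < n := by exact_mod_cast hn1
  have rb : ResBound a n (10 / 3 * ((n + 1) / 2 : ℕ)) (10 / 3 * (n / 2 : ℕ)) := fun x y =>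
    res_sum h0 h2 x y n
  rcases hch with rfl | rfl
  swap
  · have p1 : (((n + 1) / 2 : ℕ) : ℝ) ≤ n := by exact_mod_cast (by omega : (n + 1) / 2 ≤ n)
    have p2 : ((n / 2 : ℕ) : ℝ) ≤ n := by exact_mod_cast (by omega : n / 2 ≤ n)
    refine main (10 / 3 * n) (10 / 3 * n) (by positivity) (by positivity) (fun x y => ?_)
      fun x y _ => ?_
    · nlinarith [rb x y, mul_le_mul_of_nonneg_left p1 (sq_nonneg x),
        mul_le_mul_of_nonneg_left p2 (sq_nonneg y)]
    · have : 0 ≤ 1 - a := by linarith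
      simp only [Qf, mul_zero, zero_mul, add_zero, sub_zero, ne_eq, OfNat.ofNat_ne_zero,
        not_false_eq_true, zero_pow]
      positivity
  by_cases c1 : n = 1
  · subst c1
    have k0 := kap_pos' h0 (by linarith) 0
    refine main (1 / kap a 0) 1 (by positivity) one_pos (fun x y => ?_) fun x y hy => ?_
    · simp only [range_one, sum_singleton, per, Nat.zero_mod, if_true, mul_one_div]
      nlinarith [sq_nonneg y]
    · rw [hy rfl, one_div_one_div, kap_zero]
      unfold Qf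
      push_cast
      nlinarith [mul_nonneg (sub_nonneg.2 h1) (sq_nonneg x)]
  by_cases c2 : n = 2
  · subst c2
    refine main (10 / 3) (10 / 3) (by norm_num) (by norm_num) (by simpa using rb) fun x y _ => ?_
    apply conc_a' h0.le h2 (by norm_num) (by norm_num)
    unfold Qf
    push_cast
    nlinarith [sq_nonneg (3 * y - 2 * x), sq_nonneg x, sq_nonneg y]
  have c3 : (3 : ℝ) ≤ n := by exact_mod_cast (by omega : 3 ≤ n)
  have p1 : (((n + 1) / 2 : ℕ) : ℝ) * 3 ≤ 2 * n := by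
    exact_mod_cast (by omega : (n + 1) / 2 * 3 ≤ 2 * n)
  have p2 : ((n / 2 : ℕ) : ℝ) * 2 ≤ n := by exact_mod_cast (by omega : n / 2 * 2 ≤ n)
  refine main (20 / 9 * n) (5 / 3 * n) (by positivity) (by positivity) (fun x y => ?_)
    fun x y _ => ?_
  · nlinarith [rb x y, mul_le_mul_of_nonneg_left p1 (sq_nonneg x),
      mul_le_mul_of_nonneg_left p2 (sq_nonneg y)]
  · have k : 0 ≤ Qf a (1 / 3) 0 (3 / 20) (1 / 5) x y 0 0 := by
      apply conc_a' h0.le h2 (by norm_num) (by norm_num)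
      unfold Qf
      nlinarith [sq_nonneg (4 * y - 3 * x), sq_nonneg x, sq_nonneg y]
    have h := conc_t (t := 3 / n) h0.le (by linarith) (by positivity)
      (by rw [div_le_one n0]; exact c3) k
    convert h using 2 <;> field_simp <;> ring

theorem lim_core (h0 : 0 < a) (h1 : 11 * a ^ 2 ≤ 2) (hw : Contr w) {N m : ℕ} (hm : 2 * m < N)
    {P : ℂ⟦X⟧} (P0 : coeff 0 P = 1)
    (hP : ∀ n, 1 ≤ n → coeff n P
      = ((a * (if n ≤ m then 1 / (n : ℝ) else 0) : ℝ) : ℂ) * coeff n (KK a w * P)) :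
    ‖coeff N (P * (KK a w * P))‖ ≤ 1 := by
  have w0 := hw.1
  have h2 : a ≤ 1 / 2 := by nlinarith
  set K := KK a w with hK
  have hKZ : ∀ Z : ℂ⟦X⟧, w * (BB a w 0 * Z) = K * Z := by
    intro Z
    rw [hK, KK, mul_assoc]
  have Pz : ∀ n, m < n → coeff n P = 0 := by
    intro n hn
    rw [hP n (by omega), if_neg (by omega)]
    simp
  let E : ℕ → ℝ := fun n => ∑ k ∈ range (N + 1), pw a k * Dd w n (BB a w k * P)
  have E1 : E 1 = 1 := by
    simp only [E, Dd, nsq, range_one, sum_singleton, coeff_zero_mul_left w0,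
      coeff_zero_BB_mul a w0, P0]
    rw [Finset.sum_range_succ']
    simp [pw_zero]
  have Estep : ∀ n, 1 ≤ n → n ≤ N → E (n + 1) ≤ E n := by
    intro n hn1 hn
    have hs := step1 h0 h1 hn1 hn (fun k => coeff n (w * (BB a w k * P)))
      (fun k hk => supp1 a w0 P hk) (ch := if n ≤ m then 1 / (n : ℝ) else 0)
      (by split_ifs <;> simp)
    simp only [hKZ] at hs
    rw [← hP n hn1] at hs
    simp only [← coeff_BB_mul a w0] at hs
    simp only [E, Dd_succ, mul_add, mul_sub, Finset.sum_add_distrib, Finset.sum_sub_distrib]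
    linarith
  have Ele : ∀ n, 1 ≤ n → n ≤ N + 1 → E n ≤ 1 := by
    intro n hn
    induction n, hn using Nat.le_induction with
    | base => intro _; exact E1.le
    | succ n hn ih =>
      intro h
      exact (Estep n hn (by omega)).trans (ih (by omega))
  let G : ℕ → ℕ → ℂ := fun M L => ∑ k ∈ range (N + 1), (pw a k : ℂ) *
    beta w N M L (BB a w k * P) (BB a w k * P)
  have key : ∀ (Z : ℂ⟦X⟧) (M L : ℕ), M + L = N →
      ∑ k ∈ range (N + 1), (pw a k : ℂ) * (beta w N (M + 1) L (BB a w k * Z) (BB a w k * Z)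
        - beta w N M (L + 1) (BB a w k * Z) (BB a w k * Z))
      = coeff M Z * coeff L (K * Z) - coeff L Z * coeff M (K * Z) := by
    intro Z M L hML
    have hsym := sym_sum h0 (fun k => coeff M (w * (BB a w k * Z)))
      (fun k => coeff L (w * (BB a w k * Z))) N
    simp only [supp1 a w0 Z (by omega : M ≤ N + 1), supp1 a w0 Z (by omega : L ≤ N + 1),
      zero_mul, mul_zero, sub_self] at hsym
    have : ∀ k ∈ range (N + 1), (pw a k : ℂ) * (beta w N (M + 1) L (BB a w k * Z) (BB a w k * Z)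
        - beta w N M (L + 1) (BB a w k * Z) (BB a w k * Z))
        = (if k = 0 then coeff M Z * coeff L (K * Z) - coeff L Z * coeff M (K * Z) else 0)
          + (pw a k : ℂ) * (Tr a (fun k => coeff M (w * (BB a w k * Z))) k
              * coeff L (w * (BB a w k * Z))
            - coeff M (w * (BB a w k * Z)) * Tr a (fun k => coeff L (w * (BB a w k * Z))) k) := by
      intro k _
      rw [beta_step w0 hML, coeff_BB_mul a w0 Z M k, coeff_BB_mul a w0 Z L k]
      by_cases hk : k = 0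
      · subst hk
        simp only [if_true, pw_zero, hKZ]
        push_cast
        ring
      · simp only [if_neg hk]
        ring
    rw [Finset.sum_congr rfl this, Finset.sum_add_distrib, hsym, Finset.sum_range_succ']
    simp
  have Gall : ∀ L M, m < M → M + L = N →
      G M (L + 1) = ∑ j ∈ range (L + 1), coeff j P * coeff (N - j) (K * P) := by
    intro L
    induction L with
    | zero =>
      intro M _ h
      obtain rfl : M = N := h
      simp only [G, zero_add, beta_last w0, coeff_zero_BB_mul a w0, P0, range_one, sum_singleton]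
      rw [Finset.sum_range_succ']
      simp [pw_zero, hKZ]
    | succ L ih =>
      intro M hM h
      have k1 := key P M (L + 1) h
      rw [sum_range_succ, ← ih (M + 1) (by omega) (by omega), show N - (L + 1) = M by omega]
      rw [Pz M hM] at k1
      simp only [G, mul_sub, Finset.sum_sub_distrib] at k1 ⊢
      linear_combination -k1
  have e : coeff N (P * (K * P)) = G ((N + 1) / 2) (N / 2 + 1) := by
    rw [Gall (N / 2) ((N + 1) / 2) (by omega) (by omega), coeff_mul,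
      Finset.Nat.sum_antidiagonal_eq_sum_range_succ_mk]
    symm
    apply sum_subset (range_subset_range.2 (by omega))
    intro j _ hj
    rw [Pz j (by rw [mem_range] at hj; omega), zero_mul]
  have hM1 : 1 ≤ (N + 1) / 2 := by omega
  have b1 := Ele ((N + 1) / 2) hM1 (by omega)
  have b2 := Ele (N / 2 + 1) (by omega) (by omega)
  have b3 : 2 * ‖G ((N + 1) / 2) (N / 2 + 1)‖ ≤ E ((N + 1) / 2) + E (N / 2 + 1) := by
    simp only [G, E]
    rw [← Finset.sum_add_distrib]
    refine le_trans (mul_le_mul_of_nonneg_left (norm_sum_le _ _) (by norm_num)) ?_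
    rw [Finset.mul_sum]
    apply Finset.sum_le_sum
    intro k _
    have hp := pw_pos' h0 h2 k
    have m1 := mm hw (N := N) (M := (N + 1) / 2) (L := N / 2 + 1) (by omega) hM1 (by omega)
      (BB a w k * P) (BB a w k * P)
    rw [norm_mul, Complex.norm_real, Real.norm_of_nonneg hp.le]
    nlinarith
  rw [e]
  linarith

end Pool.Agent.P.MP_bdc337_an.LN
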