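import Pool.Agent.P.MP_bdc337_an.LN.Loc

/-! The exact identity and the error terms. -/

set_option autoImplicit false

open Finset PowerSeries Metric Filter Topology Real

namespace Pool.Agent.P.MP_bdc337_an.LN

theorem ident {c : ℕ → ℂ} (c0 : c 0 = 0) {F CL E M1 Γ : ℂ⟦X⟧} (F0 : coeff 0 F = 1)
    (hF : X * d⁄dX ℂ F = PowerSeries.mk c * F) {N : ℕ} (hN : 1 ≤ N)
    (hCL : ∀ k, coeff k CL = if k < N / 2 + 1 then c k else 0) (E0 : coeff 0 E = 1)
    (hE : X * d⁄dX ℂ E = CL * E) (hM : ∀ k ≤ N, coeff k M1 = (k : ℂ) / N * c k)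
    (hΓ : ∀ j, coeff j Γ = coeff j E +
      if j < N - N / 2 then (2 * N - j : ℂ) / (N - j) ^ 2 * coeff j (CL * E) else 0) :
    (N : ℂ) * coeff N F = coeff N (M1 * Γ) + 1 / N * coeff N (CL * CL * E) := by
  set B : ℂ⟦X⟧ := PowerSeries.mk fun k => if N / 2 < k then c k / k else 0 with hB
  set CH : ℂ⟦X⟧ := PowerSeries.mk fun k => if N / 2 < k then c k else 0 with hCH
  have e1 : PowerSeries.mk c = CL + CH := by
    ext k
    rw [map_add, hCL, hCH, coeff_mk, coeff_mk]
    split_ifs <;> first | omega | simp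
  have e2 : X * d⁄dX ℂ B = CH := by
    ext k
    rw [coeff_X_mul_deriv, hB, hCH, coeff_mk, coeff_mk]
    split_ifs with h
    · have : (k : ℂ) ≠ 0 := by exact_mod_cast (by omega : k ≠ 0)
      field_simp
    · simp
  have B0 : coeff 0 B = 0 := by simp [hB]
  have CL0 : coeff 0 CL = 0 := by rw [hCL, if_pos (by omega), c0]
  have m0' : coeff 0 (PowerSeries.mk c) = 0 := by rw [coeff_mk, c0]
  have M0 : coeff 0 M1 = 0 := by rw [hM 0 (by omega)]; simp
  have e3 : X * d⁄dX ℂ (F - E * (1 + B)) = PowerSeries.mk c * (F - E * (1 + B)) + CH * B * E := by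
    rw [map_sub, Derivation.leibniz, map_add, derivative_one]
    simp only [smul_eq_mul]
    linear_combination hF - (1 + B) * hE - E * e2 + (E * (1 + B)) * e1
  have d1 : X ^ (N / 2 + 1) ∣ CH := X_pow_dvd_iff.2 fun k hk => by
    rw [hCH, coeff_mk, if_neg (by omega)]
  have d2 : X ^ (N / 2 + 1) ∣ B := X_pow_dvd_iff.2 fun k hk => by
    rw [hB, coeff_mk, if_neg (by omega)]
  have d3 : X ^ (N / 2 + 1 + (N / 2 + 1)) ∣ CH * B * E := by
    rw [pow_add]
    exact (mul_dvd_mul d1 d2).mul_right E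
  have hD : ∀ n, n ≤ N → coeff n (F - E * (1 + B)) = 0 := by
    intro n
    induction n using Nat.strong_induction_on with
    | _ n ih =>
      intro hn
      rcases Nat.eq_zero_or_pos n with rfl | hn0
      · rw [map_sub, cm0, map_add, F0, E0, B0]
        simp
      · have h1 := congrArg (coeff n) e3
        rw [coeff_X_mul_deriv, map_add, X_pow_dvd_iff.1 d3 n (by omega), coeff_conv m0' _ le_rfl,
          sum_eq_zero (fun j hj => by
            have := mem_range.1 hj
            rw [ih j this (by omega), mul_zero]), add_zero] at h1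
        have : (n : ℂ) ≠ 0 := by exact_mod_cast hn0.ne'
        exact (mul_eq_zero.1 h1).resolve_left this
  have hy : ∀ j, coeff j (CL * E) = j * coeff j E := fun j => by rw [← hE, coeff_X_mul_deriv]
  have f1 : coeff N F = coeff N E + coeff N (B * E) := by
    have := hD N le_rfl
    rw [map_sub, mul_add, mul_one, map_add, mul_comm E B] at this
    linear_combination this
  rw [f1, mul_add, ← hy N, mul_assoc, coeff_conv B0 _ le_rfl, coeff_conv CL0 E le_rfl,
    coeff_conv M0 _ le_rfl, coeff_conv CL0 _ le_rfl, mul_sum, mul_sum, ← sum_add_distrib,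
    ← sum_add_distrib]
  apply sum_congr rfl
  intro j hj
  have hj' := mem_range.1 hj
  have n0 : (N : ℂ) ≠ 0 := by exact_mod_cast (by omega : N ≠ 0)
  have n1 : (N : ℂ) - j ≠ 0 := by
    rw [← Nat.cast_sub hj'.le]
    exact_mod_cast (by omega : N - j ≠ 0)
  rw [hΓ, hM _ (Nat.sub_le _ _), hCL, hB, coeff_mk, hy, Nat.cast_sub hj'.le]
  by_cases h : j < N - N / 2
  · rw [if_pos h, if_neg (by omega), if_pos (by omega)]
    field_simp
    ring
  · rw [if_neg h, if_pos (by omega), if_neg (by omega)]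
    field_simp
    ring

lemma amgm {x M A B s t : ℝ} (hM : 0 ≤ M) (hs : 0 ≤ s) (ht : 0 ≤ t) (hA : A ≤ s ^ 2)
    (hB : B ≤ t ^ 2) (h : ∀ y, 0 < y → 2 * x ≤ M * (y * A + B / y)) : x ≤ M * (s * t) := by
  have hc : ContinuousAt (fun e : ℝ => M * ((s + e) * (t + e))) 0 := by fun_prop
  have tt := hc.tendsto.mono_left (nhdsWithin_le_nhds (s := Set.Ioi 0))
  have := ge_of_tendsto tt (b := x) (by
    filter_upwards [self_mem_nhdsWithin] with e he
    have he' : 0 < e := he
    have p1 : 0 < s + e := by linarith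
    have p2 : 0 < t + e := by linarith
    have k := h ((t + e) / (s + e)) (by positivity)
    have k1 : (t + e) / (s + e) * A ≤ (s + e) * (t + e) := by
      rw [div_mul_eq_mul_div, div_le_iff₀ p1]
      have : A ≤ (s + e) ^ 2 := by nlinarith
      nlinarith
    have k2 : B / ((t + e) / (s + e)) ≤ (s + e) * (t + e) := by
      rw [div_le_iff₀ (by positivity)]
      have : (s + e) * (t + e) * ((t + e) / (s + e)) = (t + e) ^ 2 := by field_simp
      nlinarith
    nlinarith [mul_le_mul_of_nonneg_left (add_le_add k1 k2) hM])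
  simpa using this

lemma pars (n : ℕ) (c : ℕ → ℂ) :
    circleAverage (fun z => ‖poly n c z‖ ^ 2) 0 1 = ∑ j ∈ range n, ‖c j‖ ^ 2 := by
  simpa [poly] using parseval c n one_pos

lemma cint {g : ℂ → ℝ} (hg : Continuous g) : CircleIntegrable g 0 1 :=
  hg.continuousOn.circleIntegrable'

lemma avg_le {g k : ℂ → ℝ} (hg : CircleIntegrable g 0 1) (hk : CircleIntegrable k 0 1)
    (h : ∀ u : ℂ, ‖u‖ = 1 → g u ≤ k u) : circleAverage g 0 1 ≤ circleAverage k 0 1 :=
  circleAverage_mono hg hk fun u hu => h u (by simpa using hu)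

lemma avg_mul (x : ℝ) (g : ℂ → ℝ) (r : ℝ) :
    circleAverage (fun u => x * g u) 0 r = x * circleAverage g 0 r :=
  circleAverage_fun_smul (a := x) (f := g)

lemma bil {E : ℂ → ℂ} (hE : Differentiable ℂ E) {M : ℝ} (hM : ∀ u : ℂ, ‖u‖ = 1 → ‖E u‖ ≤ M)
    (n m k : ℕ) (a b : ℕ → ℂ) {s t : ℝ} (hs : 0 ≤ s) (ht : 0 ≤ t)
    (ha : ∑ j ∈ range n, ‖a j‖ ^ 2 ≤ s ^ 2) (hb : ∑ j ∈ range m, ‖b j‖ ^ 2 ≤ t ^ 2) :
    ‖coeff k (tay (poly n a) * tay (poly m b) * tay E)‖ ≤ M * (s * t) := by
  have M0 : 0 ≤ M := (norm_nonneg _).trans (hM 1 norm_one)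
  have dA := poly_diff n a
  have dB := poly_diff m b
  have cA := dA.continuous
  have cB := dB.continuous
  have cE := hE.continuous
  have h1 := cauchy_bound (g := fun z => poly n a z * poly m b z * E z) one_pos
    ((dA.mul dB).mul hE).differentiableOn k
  rw [tay_mul ((dA.analyticAt 0).fun_mul (dB.analyticAt 0)) (hE.analyticAt 0),
    tay_mul (dA.analyticAt 0) (dB.analyticAt 0), one_pow, mul_one] at h1
  refine amgm M0 hs ht ha hb fun y hy => ?_
  have h2 := avg_le (g := fun z => ‖poly n a z * poly m b z * E z‖)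
    (k := fun z => M * y / 2 * ‖poly n a z‖ ^ 2 + M / y / 2 * ‖poly m b z‖ ^ 2)
    (cint (by fun_prop)) (cint (by fun_prop)) (fun u hu => by
      rw [norm_mul, norm_mul]
      have k1 := mul_le_mul_of_nonneg_left (hM u hu)
        (mul_nonneg (norm_nonneg (poly n a u)) (norm_nonneg (poly m b u)))
      have k2 : M * y / 2 * ‖poly n a u‖ ^ 2 + M / y / 2 * ‖poly m b u‖ ^ 2
          - ‖poly n a u‖ * ‖poly m b u‖ * M
          = M / y / 2 * (y * ‖poly n a u‖ - ‖poly m b u‖) ^ 2 := by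
        field_simp
        ring
      have k3 : 0 ≤ M / y / 2 * (y * ‖poly n a u‖ - ‖poly m b u‖) ^ 2 := by positivity
      linarith)
  rw [circleAverage_fun_add (cint (by fun_prop)) (cint (by fun_prop)), avg_mul, avg_mul, pars,
    pars] at h2
  have : M * (y * ∑ j ∈ range n, ‖a j‖ ^ 2 + (∑ j ∈ range m, ‖b j‖ ^ 2) / y)
      = 2 * (M * y / 2 * ∑ j ∈ range n, ‖a j‖ ^ 2 + M / y / 2 * ∑ j ∈ range m, ‖b j‖ ^ 2) := by
    field_simp
  linarith

lemma exp_euler {c : ℕ → ℂ} (c0 : c 0 = 0) (n : ℕ) :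
    X * d⁄dX ℂ (tay fun z => Complex.exp (poly n (fun k => c k / k) z))
      = tay (poly n c) * tay fun z => Complex.exp (poly n (fun k => c k / k) z) := by
  have dg := poly_diff n fun k => c k / k
  have e1 : deriv (fun z => Complex.exp (poly n (fun k => c k / k) z))
      = fun z => deriv (poly n fun k => c k / k) z * Complex.exp (poly n (fun k => c k / k) z) := by
    funext z
    rw [(dg z).hasDerivAt.cexp.deriv, mul_comm]
  have e2 : X * d⁄dX ℂ (tay (poly n fun k => c k / k)) = tay (poly n c) := by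
    ext k
    rw [coeff_X_mul_deriv, coeff_poly, coeff_poly]
    split_ifs
    · rcases Nat.eq_zero_or_pos k with rfl | hk
      · simp [c0]
      · have : (k : ℂ) ≠ 0 := by exact_mod_cast hk.ne'
        field_simp
    · simp
  rw [← tay_deriv, e1, tay_mul (dg.analyticAt 0).deriv (dg.cexp.analyticAt 0), tay_deriv,
    ← mul_assoc, e2]

lemma poly_zero {n : ℕ} {c : ℕ → ℂ} (c0 : c 0 = 0) : poly n c 0 = 0 := by
  rw [← coeff_zero_tay (poly n c), coeff_poly, c0]
  simp

lemma poly_norm_le (n : ℕ) (c : ℕ → ℂ) {u : ℂ} (hu : ‖u‖ ≤ 1) :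
    ‖poly n c u‖ ≤ ∑ k ∈ range n, ‖c k‖ := by
  refine (norm_sum_le _ _).trans (sum_le_sum fun k _ => ?_)
  rw [norm_mul, norm_pow]
  exact mul_le_of_le_one_right (norm_nonneg _) (pow_le_one₀ (norm_nonneg _) hu)

/-- damped coefficients -/
noncomputable def ct (N : ℕ) (c : ℕ → ℂ) (k : ℕ) : ℂ := (1 - (k : ℂ) / N) * c k

/-- logarithm of the smoothed function -/
noncomputable def gt (N : ℕ) (c : ℕ → ℂ) : ℂ → ℂ := poly N fun k => ct N c k / k

lemma ct_ge {N k : ℕ} (hN : 1 ≤ N) (c : ℕ → ℂ) (hk : k ≤ N / 2) : ‖c k‖ ≤ 2 * ‖ct N c k‖ := by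
  have n0 : (0 : ℝ) < N := by exact_mod_cast hN
  have k2 : (2 * k : ℝ) ≤ N := by exact_mod_cast (by omega : 2 * k ≤ N)
  have k3 : (k : ℝ) / N ≤ 1 / 2 := by rw [div_le_iff₀ n0]; linarith
  have e : (1 - (k : ℂ) / N) = ((1 - (k : ℝ) / N : ℝ) : ℂ) := by push_cast; rfl
  rw [ct, e, norm_real_mul (by linarith)]
  nlinarith [norm_nonneg (c k)]

theorem core {c : ℕ → ℂ} (c0 : c 0 = 0) {F : ℂ⟦X⟧} (F0 : coeff 0 F = 1)
    (hF : X * d⁄dX ℂ F = PowerSeries.mk c * F) {N : ℕ} (hN : 2 ≤ N) {v s M : ℝ} (v0 : 0 < v)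
    (hv : N * v ^ 2 = 1) (s0 : 0 ≤ s) (hs : ∑ k ∈ range N, ‖ct N c k‖ ^ 2 ≤ s ^ 2)
    (hsv : 2 * s * v ≤ 1) (hM : ∀ u : ℂ, ‖u‖ = 1 → ‖Complex.exp (gt N c u)‖ ≤ M)
    {g1 : ℂ → ℂ} (hg : Differentiable ℂ g1) (hc : ∀ k ≤ N, coeff k (tay g1) = (k : ℂ) / N * c k) :
    ∃ Γ : ℂ → ℂ, Differentiable ℂ Γ ∧ Γ 0 = 1 ∧
      (∀ u : ℂ, ‖u‖ = 1 → ‖Γ u - Complex.exp (gt N c u)‖ ≤ 76 * M * s * v) ∧
      N * ‖coeff N F‖ ≤ circleAverage (fun u => ‖g1 u‖ * ‖Γ u‖) 0 1 + 12 * M * s ^ 2 * v ^ 2 := by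
  have n0 : (0 : ℝ) < N := by exact_mod_cast (by omega : 0 < N)
  have M0 : 0 ≤ M := (norm_nonneg _).trans (hM 1 norm_one)
  have iN : 1 / (N : ℝ) = v ^ 2 := by rw [div_eq_iff n0.ne']; linarith
  set gL := poly (N / 2 + 1) fun k => c k / k with hgL
  have dgL : Differentiable ℂ gL := poly_diff _ _
  set E : ℂ → ℂ := fun z => Complex.exp (gL z) with hE
  have dE : Differentiable ℂ E := dgL.cexp
  have E0 : E 0 = 1 := by simp only [hE, hgL]; rw [poly_zero (by simp), Complex.exp_zero]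
  have hL : ∑ k ∈ range (N / 2 + 1), ‖c k‖ ^ 2 ≤ (2 * s) ^ 2 := by
    have k1 : ∑ k ∈ range (N / 2 + 1), ‖c k‖ ^ 2 ≤ ∑ k ∈ range (N / 2 + 1), 4 * ‖ct N c k‖ ^ 2 :=
      sum_le_sum fun k hk => by
        have := ct_ge (N := N) (by omega) c (k := k) (by have := mem_range.1 hk; omega)
        nlinarith [norm_nonneg (c k)]
    have k2 : ∑ k ∈ range (N / 2 + 1), ‖ct N c k‖ ^ 2 ≤ ∑ k ∈ range N, ‖ct N c k‖ ^ 2 :=
      sum_le_sum_of_subset_of_nonneg (range_subset_range.2 (by omega)) fun _ _ _ => sq_nonneg _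
    rw [← mul_sum] at k1
    nlinarith
  have hd : ∀ u : ℂ, ‖u‖ = 1 → ‖gL u - gt N c u‖ ≤ 2 * s * v := by
    intro u hu
    have e : gL u - gt N c u
        = poly N (fun k => (if k < N / 2 + 1 then c k / k else 0) - ct N c k / k) u := by
      simp only [hgL, gt, poly, sub_mul, sum_sub_distrib]
      congr 1
      rw [← sum_subset (range_subset_range.2 (by omega : N / 2 + 1 ≤ N))]
      · exact sum_congr rfl fun k hk => by rw [if_pos (mem_range.1 hk)]
      · intro k _ hk
        rw [if_neg (by simpa using hk), zero_mul]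
    have k1 : ∑ k ∈ range N, ‖(if k < N / 2 + 1 then c k / k else 0) - ct N c k / k‖
        ≤ ∑ k ∈ range N, 2 * v ^ 2 * ‖ct N c k‖ := by
      refine sum_le_sum fun k _ => ?_
      rcases Nat.eq_zero_or_pos k with rfl | hk
      · simp only [Nat.cast_zero, div_zero, ite_self, sub_self, norm_zero]
        positivity
      have k0 : (k : ℂ) ≠ 0 := by exact_mod_cast hk.ne'
      have nc : (N : ℂ) ≠ 0 := by exact_mod_cast n0.ne'
      split_ifs with h
      · have : c k / k - ct N c k / k = ((1 / (N : ℝ) : ℝ) : ℂ) * c k := by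
          rw [ct]
          push_cast
          field_simp
          ring
        rw [this, norm_real_mul (by positivity), iN]
        have := ct_ge (N := N) (by omega) c (k := k) (by omega)
        nlinarith [sq_nonneg v]
      · have k2 : (N : ℝ) ≤ 2 * k := by exact_mod_cast (by omega : N ≤ 2 * k)
        have kp : (0 : ℝ) < k := by exact_mod_cast hk
        rw [zero_sub, norm_neg, norm_div, Complex.norm_natCast, div_le_iff₀ kp]
        have : 1 ≤ 2 * v ^ 2 * k := by nlinarith [sq_nonneg v]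
        nlinarith [norm_nonneg (ct N c k)]
    have k2 := sq_sum_le_card_mul_sum_sq (s := range N) (f := fun k => ‖ct N c k‖)
    rw [card_range] at k2
    have k3 : v * ∑ k ∈ range N, ‖ct N c k‖ ≤ s := by
      apply abs_le_of_sq_le_sq' _ s0 |>.2
      have := mul_le_mul_of_nonneg_left hs n0.le
      calc (v * ∑ k ∈ range N, ‖ct N c k‖) ^ 2 = v ^ 2 * (∑ k ∈ range N, ‖ct N c k‖) ^ 2 := by ring
        _ ≤ v ^ 2 * (N * s ^ 2) := by gcongr; linarith
        _ = s ^ 2 := by linear_combination s ^ 2 * hv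
    rw [e]
    refine (poly_norm_le _ _ hu.le).trans (k1.trans ?_)
    rw [← mul_sum]
    nlinarith
  have hEt : ∀ u : ℂ, ‖u‖ = 1 → ‖E u - Complex.exp (gt N c u)‖ ≤ M * (4 * s * v) := by
    intro u hu
    have e : E u - Complex.exp (gt N c u)
        = Complex.exp (gt N c u) * (Complex.exp (gL u - gt N c u) - 1) := by
      rw [mul_sub, ← Complex.exp_add]
      simp [hE]
    have k := Complex.norm_exp_sub_one_le ((hd u hu).trans hsv)
    rw [e, norm_mul]
    exact mul_le_mul (hM u hu) (by linarith [hd u hu]) (norm_nonneg _) M0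
  have hEM : ∀ u : ℂ, ‖u‖ = 1 → ‖E u‖ ≤ 3 * M := by
    intro u hu
    have k1 := norm_sub_norm_le (E u) (Complex.exp (gt N c u))
    nlinarith [hEt u hu, hM u hu]
  set y : ℕ → ℂ := fun j => coeff j (tay (poly (N / 2 + 1) c) * tay E) with hy
  set lam : ℕ → ℂ := fun j => (2 * N - j : ℂ) / (N - j) ^ 2 with hlam
  have lamle : ∀ j, j < N - N / 2 → ‖lam j‖ ≤ 8 * v ^ 2 := by
    intro j hj
    have j2 : (2 * j : ℝ) ≤ N := by exact_mod_cast (by omega : 2 * j ≤ N)
    have j0 : (0 : ℝ) ≤ j := Nat.cast_nonneg j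
    have e : lam j = (((2 * N - j) / (N - j) ^ 2 : ℝ) : ℂ) := by simp [hlam]
    have p1 : (0 : ℝ) < N - j := by linarith
    rw [e, Complex.norm_real, Real.norm_of_nonneg (div_nonneg (by linarith) (sq_nonneg _)),
      div_le_iff₀ (by positivity)]
    have : (N : ℝ) ^ 2 ≤ 4 * (N - j) ^ 2 := by nlinarith
    have := mul_le_mul_of_nonneg_left this (sq_nonneg v)
    nlinarith
  have dP := poly_diff (N - N / 2) fun j => lam j * y j
  refine ⟨fun z => E z + poly (N - N / 2) (fun j => lam j * y j) z, dE.add dP, ?_, ?_, ?_⟩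
  · have : y 0 = 0 := by simp only [hy]; rw [cm0, coeff_poly, if_pos (by omega), c0, zero_mul]
    simp only
    rw [E0, poly_zero (by simp [this]), add_zero]
  · intro u hu
    have k := bil dE hEM (N / 2 + 1) (N + 1) N c
      (fun i => if N - i < N - N / 2 then lam (N - i) * u ^ (N - i) else 0)
      (s := 2 * s) (t := 12 * v) (by positivity) (by positivity) hL (by
        have k1 : ∑ i ∈ range (N + 1),
            ‖if N - i < N - N / 2 then lam (N - i) * u ^ (N - i) else 0‖ ^ 2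
            ≤ ∑ _i ∈ range (N + 1), (8 * v ^ 2) ^ 2 := by
          refine sum_le_sum fun i _ => pow_le_pow_left₀ (norm_nonneg _) ?_ 2
          split_ifs with h
          · rw [norm_mul, norm_pow, hu, one_pow, mul_one]
            exact lamle _ h
          · rw [norm_zero]
            positivity
        rw [sum_const, card_range, nsmul_eq_mul] at k1
        push_cast at k1
        have n1 : (1 : ℝ) ≤ N := by exact_mod_cast (by omega : 1 ≤ N)
        have k2 : ((N : ℝ) + 1) * (8 * v ^ 2) ^ 2 ≤ (2 * N) * (8 * v ^ 2) ^ 2 := by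
          gcongr
          linarith
        have k3 : (2 * (N : ℝ)) * (8 * v ^ 2) ^ 2 = 128 * v ^ 2 := by
          linear_combination 128 * v ^ 2 * hv
        nlinarith [sq_nonneg v])
    have e : coeff N (tay (poly (N / 2 + 1) c) * tay (poly (N + 1)
        fun i => if N - i < N - N / 2 then lam (N - i) * u ^ (N - i) else 0) * tay E)
        = poly (N - N / 2) (fun j => lam j * y j) u := by
      rw [mul_right_comm, coeff_mul, Finset.Nat.sum_antidiagonal_eq_sum_range_succ_mk, poly,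
        ← sum_subset (range_subset_range.2 (by omega : N - N / 2 ≤ N.succ))]
      · refine sum_congr rfl fun j hj => ?_
        have := mem_range.1 hj
        rw [coeff_poly, if_pos (by omega), show N - (N - j) = j by omega, if_pos this]
        simp only [hy]
        ring
      · intro j hj hj2
        have := mem_range.1 hj
        rw [coeff_poly, if_pos (by omega), show N - (N - j) = j by omega,
          if_neg (by simpa using hj2), mul_zero]
    rw [e] at k
    have k2 := norm_add_le (E u - Complex.exp (gt N c u)) (poly (N - N / 2) (fun j => lam j * y j) u)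
    rw [add_sub_right_comm]
    nlinarith [hEt u hu]
  · have id := ident c0 F0 hF (N := N) (by omega) (CL := tay (poly (N / 2 + 1) c)) (E := tay E)
      (M1 := tay g1) (Γ := tay fun z => E z + poly (N - N / 2) (fun j => lam j * y j) z)
      (coeff_poly _ _) (by rw [coeff_zero_tay, E0]) (exp_euler c0 _) hc (fun j => by
        rw [tay_add (dE.analyticAt 0) (dP.analyticAt 0), map_add, coeff_poly])
    have k1 := bil dE hEM (N / 2 + 1) (N / 2 + 1) N c c (s := 2 * s) (t := 2 * s)
      (by positivity) (by positivity) hL hL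
    have k2 := cauchy_bound
      (g := fun z => g1 z * (E z + poly (N - N / 2) (fun j => lam j * y j) z)) one_pos
      (hg.mul (dE.add dP)).differentiableOn N
    rw [tay_mul (hg.analyticAt 0) ((dE.analyticAt 0).fun_add (dP.analyticAt 0)), one_pow,
      mul_one] at k2
    simp only [norm_mul] at k2
    have k3 := congrArg norm id
    rw [norm_mul, Complex.norm_natCast] at k3
    rw [k3]
    refine (norm_add_le _ _).trans (add_le_add k2 ?_)
    rw [norm_mul, norm_div, norm_one, Complex.norm_natCast, iN]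
    nlinarith [mul_le_mul_of_nonneg_left k1 (sq_nonneg v)]

end Pool.Agent.P.MP_bdc337_an.LN
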