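import Pool.Agent.P.MP_bdc337_an.UO.C

/-! The two-scale functional. -/

set_option autoImplicit false

namespace Pool.Agent.P.MP_bdc337_an.LN

/-- `|x| cos (arg x / a)` -/
noncomputable def phi (a : ℝ) (x : ℂ) : ℝ := ‖x‖ * Real.cos (Complex.arg x / a)

/-- mean of `phi a (q) * |exp G|` over the circle of radius `r` -/
noncomputable def jav (a : ℝ) (q G : ℂ → ℂ) (r : ℝ) : ℝ :=
  Real.circleAverage (fun z => phi a (q z) * Real.exp (G z).re) 0 r

/-- `N |F_N|` where `F = exp G = f / z` -/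
noncomputable def cN (G : ℂ → ℂ) (N : ℕ) : ℝ :=
  N * ‖PowerSeries.coeff N (tay fun z => Complex.exp (G z))‖

end Pool.Agent.P.MP_bdc337_an.LN
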