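import Pool.Agent.P.MP_bdc337_an.LN.Defs

/-! The function with `z f' / f = ((1 + z) / (1 - z)) ^ a` on a small circle. -/

set_option autoImplicit false

open Finset PowerSeries Metric Filter Topology Real

namespace Pool.Agent.P.MP_bdc337_an.LN

open UO

/-- Bessel's inequality on a circle -/
lemma bessel {D : ℂ → ℂ} {r : ℝ} (r0 : 0 < r) (hD : DifferentiableOn ℂ D (closedBall 0 r))
    (N : ℕ) : ∑ k ∈ range (N + 1), ‖coeff k (tay D)‖ ^ 2 * r ^ (2 * k) ≤
      circleAverage (fun z => ‖D z‖ ^ 2) 0 r := by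
  set c : ℕ → ℂ := fun j => (starRingEnd ℂ) (coeff (N - j) (tay D)) * (r : ℂ) ^ (N - j) with hc
  set P : ℂ → ℂ := fun z => ∑ j ∈ range (N + 1), c j / (r : ℂ) ^ j * z ^ j with hPdef
  set S := ∑ k ∈ range (N + 1), ‖coeff k (tay D)‖ ^ 2 * r ^ (2 * k) with hS
  have hP : Differentiable ℂ P := by fun_prop
  have hr' : (r : ℂ) ≠ 0 := by exact_mod_cast r0.ne'
  have han : AnalyticAt ℂ D 0 := hD.analyticAt (closedBall_mem_nhds 0 r0)
  have hg : DifferentiableOn ℂ (fun z => P z * D z) (closedBall 0 r) := hP.differentiableOn.mul hD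
  have h1 := cauchy_bound r0 hg N
  have e0 : ∑ j ∈ range (N + 1), ‖c j‖ ^ 2 = S := by
    rw [hS, ← sum_range_reflect]
    refine sum_congr rfl fun j hj => ?_
    have := mem_range.1 hj
    simp only [hc, norm_mul, norm_pow, Complex.norm_conj, Complex.norm_real,
      Real.norm_of_nonneg r0.le, show N - (N + 1 - 1 - j) = j by omega]
    ring
  have e1 : coeff N (tay fun z => P z * D z) * (r : ℂ) ^ N = (S : ℝ) := by
    rw [tay_mul (hP.analyticAt 0) han, coeff_mul, Finset.Nat.sum_antidiagonal_eq_sum_range_succ_mk,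
      hPdef, tay_poly, ← e0, sum_mul]
    push_cast
    refine sum_congr rfl fun j hj => ?_
    have hj' := mem_range.1 hj
    have e : (r : ℂ) ^ N = r ^ j * r ^ (N - j) := by rw [← pow_add]; congr 1; omega
    rw [coeff_mk, if_pos hj', ← Complex.mul_conj', e]
    simp only [hc, map_mul, map_pow, Complex.conj_conj, Complex.conj_ofReal]
    field_simp
  have e2 : ‖coeff N (tay fun z => P z * D z)‖ * r ^ N = S := by
    have := congrArg norm e1
    rwa [norm_mul, norm_pow, Complex.norm_real, Complex.norm_real, Real.norm_of_nonneg r0.le,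
      Real.norm_of_nonneg (by positivity)] at this
  have hsph : sphere (0 : ℂ) |r| ⊆ closedBall 0 r := by
    rw [abs_of_pos r0]
    exact sphere_subset_closedBall
  have i2 : CircleIntegrable (fun z => ‖P z‖ ^ 2) 0 r :=
    ((hP.continuous.norm.pow 2).continuousOn).circleIntegrable'
  have c3 : ContinuousOn (fun z => ‖D z‖ ^ 2) (sphere 0 |r|) :=
    (hD.continuousOn.norm.pow 2).mono hsph
  have h2 : circleAverage (fun z => ‖P z * D z‖) 0 r
      ≤ circleAverage (fun z => (1 / 2 : ℝ) • (‖P z‖ ^ 2 + ‖D z‖ ^ 2)) 0 r := by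
    apply circleAverage_mono (hg.continuousOn.norm.mono hsph).circleIntegrable'
    · exact (((hP.continuous.norm.pow 2).continuousOn.add c3).const_smul
        (1 / 2 : ℝ)).circleIntegrable'
    · intro z _
      simp only [norm_mul, smul_eq_mul]
      nlinarith [sq_nonneg (‖P z‖ - ‖D z‖)]
  rw [circleAverage_fun_smul, circleAverage_fun_add i2 c3.circleIntegrable', hPdef,
    parseval _ _ r0, smul_eq_mul, e0] at h2
  simp only [hPdef] at h1 e2
  linarith

variable {a : ℝ}

lemma pow_sector (h0 : 0 < a) (h1 : a < 1) {p : ℂ} (hp : 0 < p.re) :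
    0 < (Complex.exp (a * Complex.log p)).re ∧
      |Complex.arg (Complex.exp (a * Complex.log p))| < a * π / 2 := by
  have nv : 0 < ‖p‖ := norm_pos_iff.2 fun e => by simp [e] at hp
  simpa using room h0 h1 hp (g := 0) (by rw [norm_zero]; positivity)

lemma phi_pow (h0 : 0 < a) (h1 : a < 1) {p : ℂ} (hp : 0 < p.re) (g : ℂ) :
    phi a (Complex.exp (a * Complex.log p)) * exp g.re =
      p.re * ‖Complex.exp ((g + (a - 1 : ℝ) * Complex.log p) / 2)‖ ^ 2 := by
  have hv : p ≠ 0 := fun e => by simp [e] at hp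
  have nv := norm_pos_iff.2 hv
  have hpi := pi_pos
  have b := abs_lt.1 (Complex.abs_arg_lt_pi_div_two_iff.2 (Or.inl hp))
  have l3 : (a * Complex.log p).im = a * Complex.arg p := by
    rw [Complex.im_ofReal_mul, Complex.log_im]
  have e1 : Complex.arg (Complex.exp (a * Complex.log p)) = a * Complex.arg p := by
    rw [← Complex.log_im, Complex.log_exp (by rw [l3]; nlinarith) (by rw [l3]; nlinarith), l3]
  have e2 : p.re = exp (log ‖p‖) * cos p.arg := by
    rw [exp_log nv, Complex.cos_arg hv]; field_simp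
  rw [phi, e1, mul_div_cancel_left₀ _ h0.ne', Complex.norm_exp, Complex.norm_exp, e2, ← exp_nat_mul,
    mul_right_comm, ← exp_add, mul_right_comm, ← exp_add]
  congr 2
  simp only [Complex.re_ofReal_mul, Complex.log_re, Complex.div_ofNat_re, Complex.add_re]
  push_cast
  ring

lemma one_sub_ne {z : ℂ} (hz : z ∈ ball (0 : ℂ) 1) : 1 - z ≠ 0 := fun h => by
  rw [← sub_eq_zero.1 h] at hz
  simp at hz

lemma one_add_ne {z : ℂ} (hz : z ∈ ball (0 : ℂ) 1) : 1 + z ≠ 0 := fun h => by
  simpa [eq_neg_of_add_eq_zero_right h] using mem_ball_zero_iff.1 hz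

lemma kern_re (z : ℂ) :
    ((1 + z) / (1 - z)).re = (1 - ‖z‖ ^ 2) / ‖1 - z‖ ^ 2 := by
  rw [Complex.div_re, ← add_div, Complex.sq_norm, Complex.sq_norm, Complex.normSq_apply z]
  congr 1
  simp only [Complex.add_re, Complex.one_re, Complex.sub_re, Complex.add_im, Complex.one_im,
    Complex.sub_im]
  ring

lemma kern_pos {z : ℂ} (hz : z ∈ ball (0 : ℂ) 1) : 0 < ((1 + z) / (1 - z)).re := by
  have := mem_ball_zero_iff.1 hz
  rw [kern_re]
  exact div_pos (by nlinarith [norm_nonneg z]) (pow_pos (norm_pos_iff.2 (one_sub_ne hz)) 2)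

/-- the data of the function: series `Q` of `q`, series `D` of the square root -/
theorem kfun (h0 : 0 < a) (h1 : a < 1) : ∃ q H G, ∃ Q D : ℂ⟦X⟧, Dat a q H G ∧
    coeff 0 Q = 1 ∧ coeff 0 D = 1 ∧ d⁄dX ℂ Q = C (2 * a : ℂ) * Q + X ^ 2 * d⁄dX ℂ Q ∧
    X * d⁄dX ℂ D = X ^ 2 * (X * d⁄dX ℂ D) +
      (C (1 / 2 : ℂ) * ((1 - X ^ 2) * (Q - 1)) + C (a : ℂ) * X + X ^ 2) * D ∧
    ∀ r : ℝ, 0 < r → r < 1 → ∀ N : ℕ,
      (1 - r ^ 2) * ∑ k ∈ range (N + 1), ‖coeff k D‖ ^ 2 * r ^ (2 * k) ≤ jav a q G r := by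
  have hnb : ball (0 : ℂ) 1 ∈ 𝓝 (0 : ℂ) := ball_mem_nhds 0 one_pos
  set L : ℂ → ℂ := fun z => Complex.log ((1 + z) / (1 - z)) with hL
  have dL : ∀ z ∈ ball (0 : ℂ) 1, HasDerivAt L (2 / ((1 - z) * (1 + z))) z := fun z hz => by
    refine (((((hasDerivAt_id' z).const_add 1).fun_div ((hasDerivAt_id' z).const_sub 1)
      (one_sub_ne hz))).clog (Or.inl (kern_pos hz))).congr_deriv ?_
    have := one_sub_ne hz
    have := one_add_ne hz
    field_simp
    ring
  set q : ℂ → ℂ := fun z => Complex.exp (a * L z) with hq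
  have dq : ∀ z ∈ ball (0 : ℂ) 1, HasDerivAt q (q z * (a * (2 / ((1 - z) * (1 + z))))) z :=
    fun z hz => ((dL z hz).const_mul (a : ℂ)).cexp
  have qd : DifferentiableOn ℂ q (ball 0 1) :=
    fun z hz => (dq z hz).differentiableAt.differentiableWithinAt
  have q0 : q 0 = 1 := by simp [hq, hL]
  obtain ⟨H, G, h⟩ := mk_dat h0 h1 qd q0 fun z hz => pow_sector h0 h1 (kern_pos hz)
  set D : ℂ → ℂ := fun z => Complex.exp ((G z + (a - 1 : ℝ) * L z) / 2) / (1 - z) with hD
  have dD : ∀ z ∈ ball (0 : ℂ) 1, HasDerivAt D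
      (D z * (H z / 2 + (a + z) / ((1 - z) * (1 + z)))) z := fun z hz => by
    refine (((((h.Gd z hz).add ((dL z hz).const_mul ((a - 1 : ℝ) : ℂ))).div_const 2).cexp).fun_div
      ((hasDerivAt_id' z).const_sub 1) (one_sub_ne hz)).congr_deriv ?_
    have := one_sub_ne hz
    have := one_add_ne hz
    simp only [hD, Pi.add_apply]
    push_cast
    field_simp
    ring
  have Dd : DifferentiableOn ℂ D (ball 0 1) :=
    fun z hz => (dD z hz).differentiableAt.differentiableWithinAt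
  have aq : AnalyticAt ℂ q 0 := qd.analyticAt hnb
  have aD : AnalyticAt ℂ D 0 := Dd.analyticAt hnb
  have aq' := aq.deriv
  have aD' := aD.deriv
  refine ⟨q, H, G, tay q, tay D, h, by rw [coeff_zero_tay, q0],
    by simp [coeff_zero_tay, hD, hL, h.G0], ?_, ?_, fun r r0 r1 N => ?_⟩
  · have ode : deriv q =ᶠ[𝓝 0] fun z => (2 * a : ℂ) * q z + z ^ 2 * deriv q z := by
      filter_upwards [hnb] with z hz
      have := one_sub_ne hz
      have := one_add_ne hz
      rw [(dq z hz).deriv]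
      field_simp
      ring
    have t := tay_congr ode
    rwa [tay_add (by fun_prop) (by fun_prop), tay_const_mul _ aq, tay_mul (by fun_prop) aq',
      tay_pow, tay_deriv] at t
  · have ode : (fun z => z * deriv D z) =ᶠ[𝓝 0] fun z => z ^ 2 * (z * deriv D z) +
        ((1 / 2 : ℂ) * ((1 - z ^ 2) * (q z - 1)) + (a : ℂ) * z ^ 1 + z ^ 2) * D z := by
      filter_upwards [hnb] with z hz
      have := one_sub_ne hz
      have := one_add_ne hz
      rw [(dD z hz).deriv, ← h.hH z hz]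
      field_simp
      ring
    have t := tay_congr ode
    rwa [tay_add (by fun_prop) (by fun_prop), tay_mul (f := fun z => z ^ 2) (by fun_prop)
      (by fun_prop), tay_mul (f := fun z => z) analyticAt_id aD', tay_mul (by fun_prop) aD,
      tay_add (by fun_prop) (by fun_prop), tay_add (by fun_prop) (by fun_prop),
      tay_const_mul _ (by fun_prop), tay_const_mul _ (by fun_prop),
      tay_mul (by fun_prop) (by fun_prop), tay_sub analyticAt_const (by fun_prop),
      tay_sub aq analyticAt_const, tay_const, tay_pow, tay_pow, tay_id, tay_deriv, map_one,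
      pow_one] at t
  · have b := bessel r0 (Dd.mono (closedBall_subset_ball r1)) N
    have e : jav a q G r = circleAverage (fun z => (1 - r ^ 2) • ‖D z‖ ^ 2) 0 r := by
      apply circleAverage_congr_sphere
      intro z hz
      rw [abs_of_pos r0] at hz
      have hb : z ∈ ball (0 : ℂ) 1 := sphere_subset_ball r1 hz
      simp only [hq, hL, hD, phi_pow h0 h1 (kern_pos hb), kern_re, mem_sphere_zero_iff_norm.1 hz,
        norm_div, div_pow, smul_eq_mul]
      ring
    rw [e, circleAverage_fun_smul, smul_eq_mul]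
    exact mul_le_mul_of_nonneg_left b (by nlinarith)

/-- the recurrences for the coefficients -/
theorem krec (h0 : 0 < a) (h1 : a < 1) : ∃ q H G, ∃ Q M D : ℕ → ℂ, Dat a q H G ∧
    Q 0 = 1 ∧ D 0 = 1 ∧
    (∀ k, Q (k + 1) * (k + 1) = 2 * a * Q k +
      if 2 ≤ k then Q (k - 2 + 1) * (((k - 2 : ℕ) : ℂ) + 1) else 0) ∧
    (∀ k, M k = 1 / 2 * ((Q k - if k = 0 then 1 else 0) -
      if 2 ≤ k then Q (k - 2) - (if k - 2 = 0 then 1 else 0) else 0) +
      a * (if k = 1 then 1 else 0) + if k = 2 then 1 else 0) ∧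
    (∀ k : ℕ, k * D k = (if 2 ≤ k then ((k - 2 : ℕ) : ℂ) * D (k - 2) else 0) +
      ∑ j ∈ range k, M (k - j) * D j) ∧
    ∀ r : ℝ, 0 < r → r < 1 → ∀ N : ℕ,
      (1 - r ^ 2) * ∑ k ∈ range (N + 1), ‖D k‖ ^ 2 * r ^ (2 * k) ≤ jav a q G r := by
  obtain ⟨q, H, G, Q, D, h, q0, d0, eq, ed, hj⟩ := kfun h0 h1
  set M := C (1 / 2 : ℂ) * ((1 - X ^ 2) * (Q - 1)) + C (a : ℂ) * X + X ^ 2 with hM
  have rm : ∀ k, coeff k M = 1 / 2 * ((coeff k Q - if k = 0 then 1 else 0) -
      if 2 ≤ k then coeff (k - 2) Q - (if k - 2 = 0 then 1 else 0) else 0) +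
      a * (if k = 1 then 1 else 0) + if k = 2 then 1 else 0 := fun k => by
    simp only [hM, sub_mul, one_mul, map_add, map_sub, coeff_C_mul, coeff_X_pow_mul', coeff_one,
      coeff_X, coeff_X_pow]
  refine ⟨q, H, G, fun k => coeff k Q, fun k => coeff k M, fun k => coeff k D, h, q0, d0,
    fun k => ?_, rm, fun k => ?_, hj⟩
  · simpa only [map_add, coeff_derivative, coeff_C_mul, coeff_X_pow_mul'] using
      congrArg (coeff k) eq
  · have := congrArg (coeff k) ed
    rwa [coeff_X_mul_deriv, map_add, coeff_X_pow_mul', coeff_X_mul_deriv,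
      coeff_conv (by rw [rm, q0]; simp) _ le_rfl] at this

theorem notR (h0 : 1 / 2 < a) (h1 : a < 1) :
    ∃ q H G r, Dat a q H G ∧ 0 < r ∧ r < 1 ∧ 1 < jav a q G r := by
  obtain ⟨q, H, G, Q, M, D, h, q0, d0, rq, rm, rd, hj⟩ := krec (by linarith) h1
  have q1 := rq 0
  have m1 := rm 1
  have d1 := rd 1
  norm_num [q0] at q1
  norm_num [q1] at m1
  norm_num [m1, d0] at d1
  have d2 : D 1 = ((2 * a : ℝ) : ℂ) := by rw [d1]; push_cast; ring
  have s0 : 0 < a - 1 / 2 := by linarith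
  have s1 : √(a - 1 / 2) < 1 := by rw [sqrt_lt' one_pos]; linarith
  refine ⟨q, H, G, _, h, sqrt_pos.2 s0, s1, lt_of_lt_of_le ?_ (hj _ (sqrt_pos.2 s0) s1 1)⟩
  simp only [sum_range_succ, range_zero, sum_empty, d0, d2, Complex.norm_real, norm_one,
    Real.norm_eq_abs, sq_abs, mul_one, mul_zero, pow_zero, sq_sqrt s0.le]
  nlinarith [mul_pos s0 s0, mul_pos (mul_pos s0 s0) (sub_pos.2 h1)]

end Pool.Agent.P.MP_bdc337_an.LN
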