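import Pool.Agent.P.MP_bdc337_an.LN.Bridge
import Pool.Agent.P.MP_bdc337_an.LN.NotR
import Pool.Agent.P.MP_bdc337_an.LN.Chain2
import Pool.Agent.P.MP_bdc337_an.SI.Bridge

/-! The asymptotic bound for `11 a ^ 2 ≤ 2`. -/

set_option autoImplicit false

open Finset PowerSeries Metric Filter Topology Real

namespace Pool.Agent.P.MP_bdc337_an.LN

open UO

variable {a : ℝ} {q H G : ℂ → ℂ}

lemma l2 (h : Dat a q H G) (h1 : a < 1 / 2) {A : ℝ} (hA : A * cos (a * π) = 4) (A0 : 0 < A)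
    {g : ℂ → ℂ} (hg : DifferentiableOn ℂ g (ball 0 1)) {M : ℝ}
    (hM : ∀ z ∈ ball (0 : ℂ) 1, ‖g z‖ ≤ M) (N : ℕ) :
    ∑ k ∈ range (N + 1), ‖coeff k (tay fun z => (q z - 1) * g z)‖ ^ 2
      ≤ (M * (2 * (A + 1))) ^ 2 := by
  have M0 : 0 ≤ M := (norm_nonneg _).trans (hM 0 (mem_ball_self one_pos))
  refine lim_r (N := 2 * N) fun r r0 r1 => ?_
  have hb := closedBall_subset_ball (x := (0 : ℂ)) r1
  have hs : sphere (0 : ℂ) |r| ⊆ ball 0 1 := (sph r0).trans hb
  have d1 : DifferentiableOn ℂ (fun z => (q z - 1) * g z) (ball 0 1) := (h.qd.sub_const 1).mul hg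
  have k1 := bessel r0 (d1.mono hb) N
  have dZ : DifferentiableOn ℂ (fun z => ((M ^ 2 * A : ℝ) : ℂ) * (q z - 1) ^ 2
      + ((M ^ 2 * (4 * A * (A + 1)) : ℝ) : ℂ) * q z) (ball 0 1) :=
    (((h.qd.sub_const 1).pow 2).const_mul _).add (h.qd.const_mul _)
  have k2 := circleAverage_mono (c := 0) (R := r) (f₁ := fun z => ‖(q z - 1) * g z‖ ^ 2)
    (f₂ := fun z => (((M ^ 2 * A : ℝ) : ℂ) * (q z - 1) ^ 2
      + ((M ^ 2 * (4 * A * (A + 1)) : ℝ) : ℂ) * q z).re)
    ((d1.continuousOn.mono hs).norm.pow 2).circleIntegrable'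
    (Complex.continuous_re.comp_continuousOn (dZ.continuousOn.mono hs)).circleIntegrable'
    (fun z hz => by
      obtain ⟨m1, m2, m3⟩ := major h1 (h.re z (hs hz)) (h.arg z (hs hz)) hA A0
      rw [Complex.add_re, Complex.re_ofReal_mul, Complex.re_ofReal_mul, norm_mul, mul_pow]
      have t1 : ‖q z‖ * Complex.arg (q z) ^ 2 ≤ 2 * (q z).re :=
        (mul_le_of_le_one_right (norm_nonneg _) m2).trans m1
      have t2 := mul_le_mul_of_nonneg_left t1 (by positivity : 0 ≤ 2 * A * (A + 1))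
      have t3 := mul_le_mul_of_nonneg_left (pow_le_pow_left₀ (norm_nonneg _) (hM z (hs hz)) 2)
        (sq_nonneg ‖q z - 1‖)
      have t4 := mul_le_mul_of_nonneg_left (m3.trans (add_le_add le_rfl t2)) (sq_nonneg M)
      linarith)
  rw [mean_re dZ r0 r1, h.q0] at k2
  simp only [sub_self, ne_eq, OfNat.ofNat_ne_zero, not_false_eq_true, zero_pow, mul_zero, mul_one,
    zero_add, Complex.ofReal_re] at k2
  have k3 : r ^ (2 * N) * ∑ k ∈ range (N + 1), ‖coeff k (tay fun z => (q z - 1) * g z)‖ ^ 2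
      ≤ ∑ k ∈ range (N + 1), ‖coeff k (tay fun z => (q z - 1) * g z)‖ ^ 2 * r ^ (2 * k) := by
    rw [mul_sum]
    refine sum_le_sum fun k hk => ?_
    rw [mul_comm]
    exact mul_le_mul_of_nonneg_left
      (pow_le_pow_of_le_one r0.le r1.le (by have := mem_range.1 hk; omega)) (sq_nonneg _)
  nlinarith [mul_nonneg (sq_nonneg M) A0.le, sq_nonneg M]

lemma cs2 {A B : ℂ⟦X⟧} {N n : ℕ} (hn : n ≤ N) {s t : ℝ} (s0 : 0 ≤ s) (t0 : 0 ≤ t)
    (hA : ∑ k ∈ range (N + 1), ‖coeff k A‖ ^ 2 ≤ s ^ 2)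
    (hB : ∑ k ∈ range (N + 1), ‖coeff k B‖ ^ 2 ≤ t ^ 2) : ‖coeff n (A * B)‖ ≤ s * t := by
  have sub := range_subset_range.2 (by omega : n + 1 ≤ N + 1)
  have a1 := (sum_le_sum_of_subset_of_nonneg sub (f := fun k => ‖coeff k A‖ ^ 2)
    fun _ _ _ => sq_nonneg _).trans hA
  have b1 := (sum_le_sum_of_subset_of_nonneg sub (f := fun k => ‖coeff k B‖ ^ 2)
    fun _ _ _ => sq_nonneg _).trans hB
  rw [← sum_range_reflect] at b1
  have k := sum_mul_sq_le_sq_mul_sq (range (n + 1)) (fun k => ‖coeff k A‖)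
    fun k => ‖coeff (n + 1 - 1 - k) B‖
  rw [coeff_mul, Finset.Nat.sum_antidiagonal_eq_sum_range_succ_mk]
  refine (norm_sum_le _ _).trans ?_
  simp only [norm_mul]
  apply abs_le_of_sq_le_sq' _ (by positivity) |>.2
  rw [mul_pow]
  exact k.trans (mul_le_mul a1 b1 (sum_nonneg fun _ _ => sq_nonneg _) (sq_nonneg _))

lemma inv_sq_sum (N : ℕ) : ∑ k ∈ range N, (1 / (k : ℝ)) ^ 2 ≤ 4 := by
  have k0 : ∀ n : ℕ, ∑ k ∈ range (n + 2), (1 / (k : ℝ)) ^ 2 ≤ 2 - 1 / ((n : ℝ) + 1) := by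
    intro n
    induction n with
    | zero => simp [sum_range_succ]; norm_num
    | succ n ih =>
      rw [sum_range_succ]
      have : (1 / ((n + 2 : ℕ) : ℝ)) ^ 2 ≤ 1 / (n + 1) - 1 / ((n + 1 : ℕ) + 1) := by
        push_cast
        rw [div_sub_div _ _ (by positivity) (by positivity), div_pow,
          div_le_div_iff₀ (by positivity) (by positivity)]
        nlinarith [(Nat.cast_nonneg n : (0 : ℝ) ≤ n)]
      linarith
  have := sum_le_sum_of_subset_of_nonneg (range_subset_range.2 (by omega : N ≤ N + 2))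
    (f := fun k : ℕ => (1 / (k : ℝ)) ^ 2) fun _ _ _ => sq_nonneg _
  have p : (0 : ℝ) ≤ 1 / (N + 1) := by positivity
  linarith [k0 N]

theorem lim42 (h0 : 0 < a) (h1 : 11 * a ^ 2 ≤ 2) : ∃ B : ℝ, ∀ N : ℕ, 1 ≤ N →
    ∀ q H G, Dat a q H G → cN G N ≤ 2 * a + B / N := by
  have hpi := pi_pos
  have h2 : a < 1 / 2 := by nlinarith
  have g0 : 0 < cos (a * π) := cos_pos_of_mem_Ioo ⟨by nlinarith, by nlinarith⟩
  obtain ⟨A, hA⟩ : ∃ x, x = 4 / cos (a * π) := ⟨_, rfl⟩
  have A0 : 0 < A := by rw [hA]; positivity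
  have hA' : A * cos (a * π) = 4 := by rw [hA]; field_simp
  obtain ⟨s, hs⟩ : ∃ x, x = 1 * (2 * (A + 1)) := ⟨_, rfl⟩
  obtain ⟨Y, hY⟩ : ∃ x, x = exp 2 * (2 * (A + 1)) := ⟨_, rfl⟩
  have s0 : 0 ≤ s := by rw [hs]; positivity
  have Y0 : 0 ≤ Y := by rw [hY]; positivity
  refine ⟨2 * (1 + 2 * Y) * (s * (2 * Y)), fun N hN q H G h => ?_⟩
  have n0 : (0 : ℝ) < N := by exact_mod_cast hN
  have hnb : ball (0 : ℂ) 1 ∈ 𝓝 (0 : ℂ) := ball_mem_nhds 0 one_pos
  have aq : AnalyticAt ℂ q 0 := h.qd.analyticAt hnb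
  have dP : DifferentiableOn ℂ (fun z => Complex.exp (G z / 2)) (ball 0 1) :=
    (h.Gdiff.div_const 2).cexp
  have dP2 : DifferentiableOn ℂ (fun z => Complex.exp (G z / 2) / 2) (ball 0 1) := dP.div_const 2
  have aP := dP.analyticAt hnb
  set c := tay q - 1 with hc
  set F := tay fun z => Complex.exp (G z) with hF
  set P := tay fun z => Complex.exp (G z / 2) with hP
  have c0 : coeff 0 c = 0 := by simp only [hc, map_sub, coeff_zero_tay, h.q0]; simp
  have P0 : coeff 0 P = 1 := by rw [hP, coeff_zero_tay, h.G0]; simp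
  have tc : tay (fun z => q z - 1) = c := by rw [tay_sub aq analyticAt_const, tay_const, map_one]
  have eF : F = P * P := by
    rw [hF, hP, ← tay_mul aP aP]
    congr 1
    funext z
    rw [← Complex.exp_add, add_halves]
  have eP : tay (fun z => (q z - 1) * (Complex.exp (G z / 2) / 2)) = X * d⁄dX ℂ P := by
    rw [hP, ← tay_deriv, ← tay_id, ← tay_mul (f := fun z => z) analyticAt_id aP.deriv]
    apply tay_congr
    filter_upwards [hnb] with z hz
    rw [((h.Gd z hz).div_const 2).cexp.deriv, ← h.hH z hz]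
    ring
  have eP2 : X * d⁄dX ℂ P = C (1 / 2 : ℂ) * (c * P) := by
    rw [← eP, ← tc, hP, ← tay_mul (aq.fun_sub analyticAt_const) aP,
      ← tay_const_mul _ ((aq.fun_sub analyticAt_const).fun_mul aP)]
    congr 1
    funext z
    ring
  have b1 := l2 h h2 hA' A0 (g := fun _ => 1) (differentiableOn_const _) (M := 1) (by simp) N
  simp only [mul_one] at b1
  rw [tc, ← hs] at b1
  have b2 := l2 h h2 hA' A0 dP2 (M := exp 2) (fun z hz => by
    have e2 := exp_pos 2
    rw [norm_div, Complex.norm_exp, Complex.div_ofNat_re, Complex.norm_ofNat]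
    have : exp ((G z).re / 2) ≤ exp 2 := by
      apply exp_le_exp.2
      rcases eq_or_ne z 0 with rfl | z0
      · simp [h.G0]
      have nz := norm_pos_iff.2 z0
      have nz' : ((‖z‖ : ℝ) : ℂ) ≠ 0 := by exact_mod_cast nz.ne'
      have k := h.growth (x := z / ‖z‖) (by simp [z0]) le_rfl nz.le (mem_ball_zero_iff.1 hz)
      rw [mul_div_cancel₀ _ nz', sub_zero, Lf_one] at k
      simp only [Complex.ofReal_zero, zero_mul, h.G0, Complex.zero_re, sub_zero] at k
      have k2 := Lf_le (e := 1 - a) (y := 1 - ‖z‖) (by linarith)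
        (by linarith [mem_ball_zero_iff.1 hz])
      have k3 : 2 / (1 - a) ≤ 4 := by rw [div_le_iff₀ (by linarith)]; linarith
      linarith
    linarith) N
  rw [eP, ← hY] at b2
  simp only [coeff_X_mul_deriv, norm_mul, Complex.norm_natCast] at b2
  obtain ⟨W, F', hW, F0, hF', tF⟩ := SI.rep_up h0 h.a1.le (f := fun z => z * Complex.exp (G z))
    h.star
  rw [tay_mul (f := fun z => z) analyticAt_id (h.Gdiff.cexp.analyticAt hnb), tay_id, ← hF] at tF
  obtain rfl : F = F' := mul_left_cancel₀ X_ne_zero tF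
  have Fne : F ≠ 0 := fun e => by simp [e] at F0
  have eu : X * d⁄dX ℂ F = c * F := h.euler
  have eK : c = 2 * C (a : ℂ) * KK a W := mul_right_cancel₀ Fne (eu.symm.trans hF')
  set m := (N - 1) / 2 with hm
  set Q : ℂ⟦X⟧ := PowerSeries.mk fun j => if j ≤ m then coeff j P else 0 with hQ
  have K0 := coeff_zero_KK a hW.1
  have eK2 : C (1 / 2 : ℂ) * (c * P) = C (a : ℂ) * (KK a W * P) := by
    have : (C (1 / 2 : ℂ) : ℂ⟦X⟧) * 2 = 1 := by
      rw [show (2 : ℂ⟦X⟧) = C (2 : ℂ) from rfl, ← map_mul]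
      simp
    rw [eK]
    linear_combination (C (a : ℂ) * (KK a W * P)) * this
  have lc := lim_core h0 h1 hW (N := N) (m := m) (by omega) (P := Q)
    (by rw [hQ, coeff_mk, if_pos (by omega), P0]) (fun n hn => by
      rw [hQ, coeff_mk]
      split_ifs with hnm
      · have e1 := congrArg (coeff n) (eP2.trans eK2)
        have e2 : coeff n (KK a W * PowerSeries.mk fun j => if j ≤ m then coeff j P else 0)
            = coeff n (KK a W * P) := by
          rw [coeff_conv K0 _ le_rfl, coeff_conv K0 _ le_rfl]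
          refine sum_congr rfl fun j hj => ?_
          rw [coeff_mk, if_pos (by have := mem_range.1 hj; omega)]
        have nn : (n : ℂ) ≠ 0 := by exact_mod_cast (by omega : n ≠ 0)
        rw [coeff_X_mul_deriv, coeff_C_mul] at e1
        rw [e2]
        push_cast
        field_simp
        linear_combination e1
      · simp)
  have b3 : ∑ k ∈ range (N + 1), ‖coeff k (P - Q)‖ ^ 2 ≤ (2 * Y / N) ^ 2 := by
    have : ∑ k ∈ range (N + 1), ‖coeff k (P - Q)‖ ^ 2
        ≤ ∑ k ∈ range (N + 1), (2 / N) ^ 2 * ((k : ℝ) * ‖coeff k P‖) ^ 2 := by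
      refine sum_le_sum fun k _ => ?_
      rw [← mul_pow, map_sub, hQ, coeff_mk]
      apply pow_le_pow_left₀ (norm_nonneg _)
      split_ifs with hk
      · rw [sub_self, norm_zero]
        positivity
      · have k2 : (N : ℝ) ≤ 2 * k := by exact_mod_cast (by omega : N ≤ 2 * k)
        rw [sub_zero, ← mul_assoc]
        apply le_mul_of_one_le_left (norm_nonneg _)
        rw [div_mul_eq_mul_div, le_div_iff₀ n0]
        linarith
    rw [← mul_sum] at this
    refine this.trans ((mul_le_mul_of_nonneg_left b2 (sq_nonneg _)).trans (le_of_eq ?_))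
    ring
  have b4 : ∑ k ∈ range (N + 1), ‖coeff k (P + Q)‖ ≤ 2 * (1 + 2 * Y) := by
    have k1 : ∑ k ∈ range (N + 1), ‖coeff k (P + Q)‖ ≤ ∑ k ∈ range (N + 1),
        2 * ((if k = 0 then 1 else 0) + (k : ℝ) * ‖coeff k P‖ * (1 / (k : ℝ))) := by
      refine sum_le_sum fun k _ => ?_
      have e : (if k = 0 then 1 else 0) + (k : ℝ) * ‖coeff k P‖ * (1 / (k : ℝ)) = ‖coeff k P‖ := by
        split_ifs with hk
        · simp [hk, P0]
        · have : (k : ℝ) ≠ 0 := by exact_mod_cast hk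
          field_simp
          ring
      rw [e, map_add, hQ, coeff_mk]
      refine (norm_add_le _ _).trans ?_
      split_ifs
      · linarith
      · rw [norm_zero]
        linarith [norm_nonneg (coeff k P)]
    have k2 := sum_mul_sq_le_sq_mul_sq (range (N + 1)) (fun k => (k : ℝ) * ‖coeff k P‖)
      fun k : ℕ => 1 / (k : ℝ)
    have k3 : ∑ k ∈ range (N + 1), (k : ℝ) * ‖coeff k P‖ * (1 / (k : ℝ)) ≤ 2 * Y := by
      apply abs_le_of_sq_le_sq' _ (by positivity) |>.2
      have := mul_le_mul b2 (inv_sq_sum (N + 1)) (sum_nonneg fun _ _ => sq_nonneg _) (sq_nonneg _)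
      linarith
    rw [← mul_sum, sum_add_distrib, sum_ite_eq', if_pos (mem_range.2 (by omega))] at k1
    linarith
  have b5 : ‖coeff N ((P + Q) * (c * (P - Q)))‖ ≤ 2 * (1 + 2 * Y) * (s * (2 * Y / N)) := by
    rw [coeff_mul, Finset.Nat.sum_antidiagonal_eq_sum_range_succ_mk]
    refine (norm_sum_le _ _).trans (le_trans (sum_le_sum fun k _ => ?_)
      ((sum_mul _ _ _).ge.trans (mul_le_mul_of_nonneg_right b4 (by positivity))))
    rw [norm_mul]
    exact mul_le_mul_of_nonneg_left (cs2 (Nat.sub_le _ _) s0 (by positivity) b1 b3) (norm_nonneg _)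
  have e3 : (N : ℂ) * coeff N F = ((2 * a : ℝ) : ℂ) * coeff N (Q * (KK a W * Q))
      + coeff N ((P + Q) * (c * (P - Q))) := by
    rw [← coeff_X_mul_deriv, eu, ← coeff_C_mul, ← map_add]
    congr 1
    have : (C ((2 * a : ℝ) : ℂ) : ℂ⟦X⟧) = 2 * C (a : ℂ) := by
      push_cast
      rw [map_mul]
      rfl
    rw [this, eF]
    linear_combination (Q * Q) * eK
  have e4 := congrArg norm e3
  rw [norm_mul, Complex.norm_natCast] at e4
  rw [show cN G N = _ from e4]
  refine (norm_add_le _ _).trans ?_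
  rw [norm_real_mul (by positivity)]
  have e5 : 2 * (1 + 2 * Y) * (s * (2 * Y)) / N = 2 * (1 + 2 * Y) * (s * (2 * Y / N)) := by ring
  nlinarith

lemma lim42' (a : ℝ) (h0 : 0 < a) (h1 : a < √(2 / 11)) (e : ℝ) (he : 0 < e) :
    ∃ᶠ N in atTop, ∀ q H G, Dat a q H G → cN G N ≤ 2 * a + e := by
  have h2 := (lt_sqrt h0.le).1 h1
  obtain ⟨B, hB⟩ := lim42 h0 (by linarith)
  refine Eventually.frequently ?_
  filter_upwards [eventually_ge_atTop 1,
    (tendsto_const_div_atTop_nhds_zero_nat B).eventually_le_const he] with N hN h2 q H G h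
  linarith [hB N hN q H G h]

end Pool.Agent.P.MP_bdc337_an.LN
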