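import Pool.Agent.P.MP_bdc337_an.LN.Defs

/-! Localisation by Fejer means. -/

set_option autoImplicit false

open Finset PowerSeries Metric Filter Topology Real

namespace Pool.Agent.P.MP_bdc337_an.LN

open UO

lemma sph {r : ℝ} (hr : 0 < r) : sphere (0 : ℂ) |r| ⊆ closedBall 0 r := by
  rw [abs_of_pos hr]
  exact sphere_subset_closedBall

lemma nat_mul_re (n : ℕ) (x : ℂ) : ((n : ℂ) * x).re = n * x.re := by simp

lemma coeff_eq_avg {g : ℂ → ℂ} {r : ℝ} (hr : 0 < r) (hg : DifferentiableOn ℂ g (closedBall 0 r))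
    (n : ℕ) : coeff n (tay g) = circleAverage (fun u => g u / u ^ n) 0 r := by
  have h := hg.circleIntegral_one_div_sub_center_pow_smul hr n
  rw [circleAverage_eq_circleIntegral hr.ne']
  have e : (∮ z in C(0, r), (z - 0)⁻¹ • (g z / z ^ n))
      = ∮ z in C(0, r), (1 / (z - 0) ^ (n + 1)) • g z := by
    congr 1
    funext z
    simp only [sub_zero, smul_eq_mul, pow_succ, div_eq_mul_inv, mul_inv]
    ring
  rw [e, h, coeff_tay, smul_eq_mul, smul_eq_mul]
  have := Complex.two_pi_I_ne_zero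
  field_simp

lemma re_avg {g : ℂ → ℂ} {r : ℝ} (hg : CircleIntegrable g 0 r) :
    (circleAverage g 0 r).re = circleAverage (fun u => (g u).re) 0 r :=
  (Complex.reCLM.circleAverage_comp_comm hg).symm

lemma re_coeff_ge {g : ℂ → ℂ} (hg : DifferentiableOn ℂ g (closedBall 0 1)) (n : ℕ)
    (h : ∀ u : ℂ, ‖u‖ = 1 → 0 ≤ (g u / u ^ n).re) : 0 ≤ (coeff n (tay g)).re := by
  rw [coeff_eq_avg one_pos hg, re_avg]
  · apply circleAverage_nonneg_of_nonneg
    intro u hu
    exact h u (by simpa using hu)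
  · apply ContinuousOn.circleIntegrable'
    apply (hg.continuousOn.mono (sph one_pos)).div (by fun_prop)
    intro u hu
    have : ‖u‖ = 1 := by simpa using hu
    exact pow_ne_zero _ (fun e => by simp [e] at this)

lemma tay_scale (g : ℂ → ℂ) (z : ℂ) (k : ℕ) :
    coeff k (tay fun u => g (z * u)) = coeff k (tay g) * z ^ k := by
  have : ∀ k : ℕ, iteratedDeriv k (fun u => g (z * u)) = fun u => z ^ k * iteratedDeriv k g (z * u) := by
    intro k
    induction k with
    | zero => simp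
    | succ k ih =>
      funext u
      rw [iteratedDeriv_succ, ih, deriv_const_mul_field, deriv_comp_mul_left, iteratedDeriv_succ,
        smul_eq_mul]
      ring
  rw [coeff_tay, coeff_tay, this]
  simp only [mul_zero]
  ring

lemma coeff_SS (N n : ℕ) :
    coeff n (UO.DS N * UO.DS N) = ((min (n + 1) N - (n + 1 - N) : ℕ) : ℂ) := by
  rw [coeff_mul, Finset.Nat.sum_antidiagonal_eq_sum_range_succ_mk]
  have : ∀ i ∈ range n.succ, coeff i (UO.DS N) * coeff (n - i) (UO.DS N)
      = if i ∈ Ico (n + 1 - N) (min (n + 1) N) then (1 : ℂ) else 0 := by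
    intro i hi
    have := mem_range.1 hi
    simp only [UO.DS, coeff_mk, mem_Ico]
    split_ifs <;> first | omega | simp
  rw [sum_congr rfl this, sum_ite_mem, sum_const, inter_eq_right.2, Nat.card_Ico]
  · simp
  · intro i hi
    rw [mem_Ico] at hi
    rw [mem_range]
    omega

lemma SS_circle {N : ℕ} (hN : 1 ≤ N) {u : ℂ} (hu : ‖u‖ = 1) :
    (∑ j ∈ range N, u ^ j) * (∑ j ∈ range N, u ^ j)
      = ((‖∑ j ∈ range N, u ^ j‖ ^ 2 : ℝ) : ℂ) * u ^ (N - 1) := by
  have h1 : (starRingEnd ℂ) u * u = 1 := by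
    rw [mul_comm, Complex.mul_conj, Complex.normSq_eq_norm_sq, hu]
    simp
  have h2 : (starRingEnd ℂ) (∑ j ∈ range N, u ^ j) * u ^ (N - 1) = ∑ j ∈ range N, u ^ j := by
    rw [map_sum, sum_mul, ← sum_range_reflect (fun j => u ^ j)]
    apply sum_congr rfl
    intro j hj
    have := mem_range.1 hj
    have e : u ^ (N - 1) = u ^ j * u ^ (N - 1 - j) := by
      rw [← pow_add]
      congr 1
      omega
    rw [e, map_pow, ← mul_assoc, ← mul_pow, h1, one_pow, one_mul]
  rw [← Complex.normSq_eq_norm_sq, ← Complex.mul_conj, mul_assoc, h2]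

lemma coeff_pow_mul {g : ℂ → ℂ} (hg : AnalyticAt ℂ g 0) (m n : ℕ) :
    coeff n (tay fun u => u ^ m * g u) = if m ≤ n then coeff (n - m) (tay g) else 0 := by
  rw [tay_mul (by fun_prop) hg, tay_pow, coeff_X_pow_mul']

/-- polynomial with given coefficients -/
noncomputable def poly (n : ℕ) (c : ℕ → ℂ) (z : ℂ) : ℂ := ∑ k ∈ range n, c k * z ^ k

@[fun_prop] lemma poly_diff (n : ℕ) (c : ℕ → ℂ) : Differentiable ℂ (poly n c) := by
  unfold poly
  fun_prop

lemma coeff_poly (n : ℕ) (c : ℕ → ℂ) (k : ℕ) :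
    coeff k (tay (poly n c)) = if k < n then c k else 0 := by
  unfold poly
  rw [tay_poly, coeff_mk]

variable {a : ℝ} {q H G : ℂ → ℂ}

/-- Fejer mean -/
noncomputable def m0 (N : ℕ) (q : ℂ → ℂ) : ℂ → ℂ :=
  poly N fun k => (1 - (k : ℂ) / N) * coeff k (tay q)

/-- Fejer mean at frequency `N` -/
noncomputable def m1 (N : ℕ) (q : ℂ → ℂ) : ℂ → ℂ :=
  poly (2 * N) fun k => ((min k (2 * N - k) : ℕ) : ℂ) / N * coeff k (tay q)

lemma coeff_m0 {N : ℕ} (hN : 1 ≤ N) (q : ℂ → ℂ) (z : ℂ) :
    coeff (N - 1) (UO.DS N * UO.DS N * tay fun u => q (z * u)) = N * m0 N q z := by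
  have n0 : (N : ℂ) ≠ 0 := by exact_mod_cast (by omega : N ≠ 0)
  rw [mul_comm, coeff_mul, Finset.Nat.sum_antidiagonal_eq_sum_range_succ_mk, m0, poly, mul_sum,
    show (N - 1).succ = N by omega]
  apply sum_congr rfl
  intro k hk
  have := mem_range.1 hk
  rw [tay_scale, coeff_SS, show min (N - 1 - k + 1) N - (N - 1 - k + 1 - N) = N - k by omega,
    Nat.cast_sub this.le]
  field_simp

lemma coeff_m1 {N : ℕ} (hN : 1 ≤ N) (q : ℂ → ℂ) (z : ℂ) :
    coeff (2 * N - 1) (UO.DS N * UO.DS N * tay fun u => q (z * u)) = N * m1 N q z := by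
  have n0 : (N : ℂ) ≠ 0 := by exact_mod_cast (by omega : N ≠ 0)
  rw [mul_comm (UO.DS N * UO.DS N), coeff_mul, Finset.Nat.sum_antidiagonal_eq_sum_range_succ_mk, m1, poly, mul_sum,
    show (2 * N - 1).succ = 2 * N by omega]
  apply sum_congr rfl
  intro k hk
  have := mem_range.1 hk
  rw [tay_scale, coeff_SS,
    show min (2 * N - 1 - k + 1) N - (2 * N - 1 - k + 1 - N) = min k (2 * N - k) by omega]
  field_simp

lemma mem_mul {z u : ℂ} (hz : ‖z‖ < 1) (hu : ‖u‖ ≤ 1) : z * u ∈ ball (0 : ℂ) 1 := by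
  rw [mem_ball_zero_iff, norm_mul]
  exact (mul_le_of_le_one_right (norm_nonneg z) hu).trans_lt hz

lemma scale_diff {g : ℂ → ℂ} (hg : DifferentiableOn ℂ g (ball 0 1)) {z : ℂ} (hz : ‖z‖ < 1) :
    DifferentiableOn ℂ (fun u => g (z * u)) (closedBall 0 1) :=
  hg.comp (by fun_prop) fun u hu => mem_mul hz (mem_closedBall_zero_iff.1 hu)

lemma m0_pos (hq : DifferentiableOn ℂ q (ball 0 1)) {l : ℂ}
    (hl : ∀ z ∈ ball (0 : ℂ) 1, 0 < (l * q z).re) {N : ℕ} (hN : 1 ≤ N) {z : ℂ} (hz : ‖z‖ < 1) :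
    0 < (l * m0 N q z).re := by
  have hg := scale_diff hq hz
  have hnb : closedBall (0 : ℂ) 1 ∈ 𝓝 (0 : ℂ) := closedBall_mem_nhds 0 one_pos
  have ag : AnalyticAt ℂ (fun u => q (z * u)) 0 := hg.analyticAt hnb
  obtain ⟨u0, hu0, hm⟩ := (isCompact_closedBall (0 : ℂ) 1).exists_isMinOn ⟨0, by simp⟩
    (f := fun u => (l * q (z * u)).re)
    (Complex.continuous_re.comp_continuousOn (continuousOn_const.mul hg.continuousOn))
  set d := (l * q (z * u0)).re with hd
  have d0 : 0 < d := hl _ (mem_mul hz (mem_closedBall_zero_iff.1 hu0))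
  have key := re_coeff_ge (g := fun u => (∑ j ∈ range N, u ^ j) * (∑ j ∈ range N, u ^ j) *
    (l * q (z * u) - (d : ℂ))) (DifferentiableOn.mul (by fun_prop) ((hg.const_mul l).sub_const _))
    (N - 1) (fun u hu => by
      have u0 : u ^ (N - 1) ≠ 0 := pow_ne_zero _ (fun e => by simp [e] at hu)
      rw [SS_circle hN hu, mul_right_comm, mul_div_assoc, div_self u0, mul_one,
        Complex.re_ofReal_mul, Complex.sub_re, Complex.ofReal_re]
      have : d ≤ (l * q (z * u)).re := hm (mem_closedBall_zero_iff.2 hu.le)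
      exact mul_nonneg (sq_nonneg _) (by linarith))
  rw [tay_mul (by fun_prop) ((analyticAt_const.fun_mul ag).fun_sub analyticAt_const),
    tay_mul (by fun_prop) (by fun_prop), tay_DS,
    tay_sub (analyticAt_const.fun_mul ag) analyticAt_const, tay_const_mul _ ag, tay_const,
    mul_sub, map_sub, mul_left_comm, coeff_C_mul, coeff_m0 hN, coeff_mul_C, coeff_SS,
    show min (N - 1 + 1) N - (N - 1 + 1 - N) = N by omega, mul_left_comm] at key
  have n0 : (0 : ℝ) < N := by exact_mod_cast hN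
  rw [← mul_sub, nat_mul_re, Complex.sub_re, Complex.ofReal_re] at key
  nlinarith

lemma arg_lin {γ : ℝ} (g1 : γ < π / 2) {v : ℂ} (hv : 0 < v.re) (ha : |Complex.arg v| < γ) :
    0 < v.re * sin γ + v.im * cos γ ∧ 0 < v.re * sin γ - v.im * cos γ := by
  have hv0 : v ≠ 0 := fun e => by simp [e] at hv
  have nv := norm_pos_iff.2 hv0
  obtain ⟨a1, a2⟩ := abs_lt.1 ha
  have e1 : v.re = ‖v‖ * cos (Complex.arg v) := (Complex.norm_mul_cos_arg v).symm
  have e2 : v.im = ‖v‖ * sin (Complex.arg v) := (Complex.norm_mul_sin_arg v).symm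
  have s1 : 0 < sin (γ + Complex.arg v) := sin_pos_of_pos_of_lt_pi (by linarith) (by linarith)
  have s2 : 0 < sin (γ - Complex.arg v) := sin_pos_of_pos_of_lt_pi (by linarith) (by linarith)
  rw [sin_add] at s1
  rw [sin_sub] at s2
  rw [e1, e2]
  constructor <;> nlinarith [mul_pos nv s1, mul_pos nv s2]

theorem loc0 (h : Dat a q H G) {N : ℕ} (hN : 1 ≤ N) {z : ℂ} (hz : ‖z‖ < 1) :
    0 < (m0 N q z).re ∧ |Complex.arg (m0 N q z)| < a * π / 2 := by
  have hpi := pi_pos
  have g0 : 0 < a * π / 2 := by have := h.a0; positivity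
  have g1 : a * π / 2 < π / 2 := by nlinarith [h.a1]
  have k1 := m0_pos h.qd (l := ⟨sin (a * π / 2), -cos (a * π / 2)⟩) (fun z hz => by
    have := (arg_lin g1 (h.re z hz) (h.arg z hz)).1
    simp only [Complex.mul_re]
    linarith) hN hz
  have k2 := m0_pos h.qd (l := ⟨sin (a * π / 2), cos (a * π / 2)⟩) (fun z hz => by
    have := (arg_lin g1 (h.re z hz) (h.arg z hz)).2
    simp only [Complex.mul_re]
    linarith) hN hz
  simp only [Complex.mul_re] at k1 k2
  exact arg_lt g0 g1 (by linarith) (by linarith)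

theorem loc1 (h : Dat a q H G) {N : ℕ} (hN : 1 ≤ N) {z : ℂ} (hz : ‖z‖ < 1) :
    ‖m1 N q z‖ ≤ 2 * a * phi a (m0 N q z) := by
  have hpi := pi_pos
  have a0 := h.a0
  have a1 := h.a1
  obtain ⟨r0, r1⟩ := loc0 h hN hz
  set m := m0 N q z with hm
  have mne : m ≠ 0 := fun e => by simp [e] at r0
  have ha : (a : ℂ) ≠ 0 := by exact_mod_cast a0.ne'
  set L : ℂ := Complex.log m / a with hL
  have Lim : L.im = Complex.arg m / a := by rw [hL, Complex.div_ofReal_im, Complex.log_im]
  obtain ⟨l1, l2⟩ := abs_lt.1 r1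
  have L1 : -(π / 2) < L.im := by
    rw [Lim, lt_div_iff₀ a0]
    linarith
  have L2 : L.im < π / 2 := by
    rw [Lim, div_lt_iff₀ a0]
    linarith
  set p0 := Complex.exp L with hp0
  set x0 := p0.re with hx0
  have ex : x0 = Real.exp L.re * cos (Complex.arg m / a) := by rw [hx0, hp0, Complex.exp_re, Lim]
  have x0pos : 0 < x0 := by
    rw [ex, ← Lim]
    exact mul_pos (Real.exp_pos _) (cos_pos_of_mem_Ioo ⟨L1, L2⟩)
  have lp0 : Complex.log p0 = L := Complex.log_exp (by linarith) (by linarith)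
  set W0 := Complex.exp ((1 - a : ℝ) * L) with hW0
  have em : Complex.exp (a * L) = m := by
    rw [hL, mul_div_cancel₀ _ ha, Complex.exp_log mne]
  have e0 : W0 * m = p0 := by
    rw [hW0, ← em, ← Complex.exp_add, hp0]
    congr 1
    push_cast
    ring
  have p0ne : p0 ≠ 0 := Complex.exp_ne_zero _
  obtain ⟨l, hl1, hl2⟩ := Complex.exists_norm_eq_mul_self (W0 * m1 N q z)
  have hg := scale_diff h.qd hz
  have hnb : closedBall (0 : ℂ) 1 ∈ 𝓝 (0 : ℂ) := closedBall_mem_nhds 0 one_pos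
  have n0 : (0 : ℝ) < N := by exact_mod_cast hN
  have key : ∀ ρ : ℝ, 0 < ρ → ρ < 1 → ‖W0 * m1 N q z‖ ≤ 2 * x0 - 2 * (1 - a) * x0 * ρ := by
    intro ρ ρ0 ρ1
    have den : ∀ t : ℂ, ‖t‖ ≤ 1 → 1 - (ρ : ℂ) * t ≠ 0 := by
      intro t ht e
      have e2 : (ρ : ℂ) * t = 1 := by linear_combination -e
      have e3 := congrArg norm e2
      rw [norm_mul, Complex.norm_real, Real.norm_of_nonneg ρ0.le, norm_one] at e3
      nlinarith [norm_nonneg t]
    set P : ℂ → ℂ := fun t => p0 + 2 * x0 * (ρ * t / (1 - ρ * t)) with hP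
    have Pre : ∀ t : ℂ, ‖t‖ ≤ 1 → 0 < (P t).re := by
      intro t ht
      have d0 := Complex.normSq_pos.2 (den t ht)
      have e : P t = (p0 - x0) + x0 * ((1 + ρ * t) / (1 - ρ * t)) := by
        have := den t ht
        simp only [hP]
        field_simp
        ring
      have t2 : t.re ^ 2 + t.im ^ 2 ≤ 1 := by
        have := Complex.sq_norm t
        rw [Complex.normSq_apply] at this
        nlinarith [norm_nonneg t]
      have e2 : 0 < ((1 + ρ * t) / (1 - ρ * t) : ℂ).re := by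
        rw [Complex.div_re, ← add_div]
        apply div_pos _ d0
        simp
        nlinarith [mul_pos ρ0 ρ0, mul_le_mul_of_nonneg_left t2 (mul_pos ρ0 ρ0).le]
      rw [e, Complex.add_re, Complex.re_ofReal_mul, Complex.sub_re, Complex.ofReal_re, ← hx0]
      nlinarith [mul_pos x0pos e2]
    have P0 : P 0 = p0 := by simp [hP]
    set W : ℂ → ℂ := fun t => (1 - t) ^ 2 * Complex.exp ((1 - a : ℝ) * Complex.log (P t)) with hW
    have Pd : ∀ t : ℂ, ‖t‖ ≤ 1 → DifferentiableAt ℂ P t := by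
      intro t ht
      have := den t ht
      simp only [hP]
      fun_prop (disch := assumption)
    have Wd : DifferentiableOn ℂ W (closedBall 0 1) := by
      intro t ht
      have ht' := mem_closedBall_zero_iff.1 ht
      apply DifferentiableAt.differentiableWithinAt
      exact DifferentiableAt.mul (by fun_prop)
        (((Pd t ht').clog (Or.inl (Pre t ht'))).const_mul _).cexp
    have W00 : W 0 = W0 := by simp only [hW, P0, lp0, hW0]; ring
    have P1 : HasDerivAt P (2 * x0 * ρ) 0 := by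
      have d1 : HasDerivAt (fun t : ℂ => (ρ : ℂ) * t) ρ 0 := by
        simpa using (hasDerivAt_id (0 : ℂ)).const_mul (ρ : ℂ)
      have := (((d1.fun_div (d1.const_sub 1) (by simp)).const_mul (2 * (x0 : ℂ))).const_add p0)
      refine this.congr_deriv ?_
      simp
    have W1 : deriv W 0 = -2 * W0 + W0 * ((1 - a : ℝ) * (2 * x0 * ρ / p0)) := by
      have d1 : HasDerivAt (fun t : ℂ => (1 - t) ^ 2) (-2) 0 := by
        simpa using ((hasDerivAt_id (0 : ℂ)).const_sub 1).fun_pow 2
      have d2 := ((P1.clog (Or.inl (Pre 0 (by simp)))).const_mul ((1 - a : ℝ) : ℂ)).cexp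
      rw [(d1.fun_mul d2).deriv, P0, lp0, ← hW0]
      ring
    set E := dslope (dslope W 0) 0 with hE
    have Ed : DifferentiableOn ℂ E (closedBall 0 1) :=
      (Complex.differentiableOn_dslope hnb).2 ((Complex.differentiableOn_dslope hnb).2 Wd)
    have WE : ∀ t, W t = W0 + t * deriv W 0 + t ^ 2 * E t := by
      intro t
      have e1 := sub_smul_dslope W 0 t
      have e2 := sub_smul_dslope (dslope W 0) 0 t
      rw [dslope_same] at e2
      simp only [sub_zero, smul_eq_mul] at e1 e2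
      rw [W00] at e1
      linear_combination -e1 - t * e2
    have lne : l ≠ 0 := fun e => by simp [e] at hl1
    have hT : ∀ u : ℂ, ‖u‖ ≤ 1 → ‖l⁻¹ * u ^ N‖ ≤ 1 := by
      intro u hu
      rw [norm_mul, norm_inv, hl1, inv_one, one_mul, norm_pow]
      exact pow_le_one₀ (norm_nonneg u) hu
    have EN : DifferentiableOn ℂ (fun u => E (l⁻¹ * u ^ N)) (closedBall 0 1) :=
      Ed.comp (by fun_prop) fun u hu =>
        mem_closedBall_zero_iff.2 (hT u (mem_closedBall_zero_iff.1 hu))
    set V : ℂ → ℂ := fun u => (∑ j ∈ range N, u ^ j) * (∑ j ∈ range N, u ^ j) * q (z * u) with hV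
    have Vd : DifferentiableOn ℂ V (closedBall 0 1) := DifferentiableOn.mul (by fun_prop) hg
    have aV : AnalyticAt ℂ V 0 := Vd.analyticAt hnb
    have aE : AnalyticAt ℂ (fun u => E (l⁻¹ * u ^ N)) 0 := EN.analyticAt hnb
    have tV : tay V = UO.DS N * UO.DS N * tay fun u => q (z * u) := by
      rw [hV, tay_mul (by fun_prop) (hg.analyticAt hnb), tay_mul (by fun_prop) (by fun_prop), tay_DS]
    have k := re_coeff_ge (g := fun u => (-(l * W0)) * V u + (-deriv W 0) * (u ^ N * V u)
      + u ^ (2 * N) * ((-l⁻¹) * (E (l⁻¹ * u ^ N) * V u)))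
      (((Vd.const_mul _).add ((DifferentiableOn.mul (by fun_prop) Vd).const_mul _)).add
        (DifferentiableOn.mul (by fun_prop) ((EN.mul Vd).const_mul _))) (2 * N - 1) (fun u hu => by
        have u0 : u ≠ 0 := fun e => by simp [e] at hu
        set T := l⁻¹ * u ^ N with hTd
        have T1 : ‖T‖ = 1 := by rw [hTd, norm_mul, norm_inv, hl1, norm_pow, hu]; simp
        have T0 : T ≠ 0 := fun e => by simp [e] at T1
        have c1 : (starRingEnd ℂ) T * T = 1 := by
          rw [mul_comm, Complex.mul_conj, Complex.normSq_eq_norm_sq, T1]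
          simp
        have c2 : (1 - T) ^ 2 = -((‖1 - T‖ ^ 2 : ℝ) : ℂ) * T := by
          rw [← Complex.normSq_eq_norm_sq, ← Complex.mul_conj, map_sub, map_one]
          linear_combination (T - 1) * c1
        have uN : u ^ N = l * T := by rw [hTd]; field_simp
        have e1 : u ^ (2 * N - 1) = u ^ (N - 1) * (l * T) := by
          rw [← uN, ← pow_add]
          congr 1
          omega
        have e2 : u ^ (2 * N) = (l * T) ^ 2 := by rw [← uN, ← pow_mul, mul_comm]
        have zu := mem_mul hz hu.le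
        have qne : q (z * u) ≠ 0 := fun e => by simpa [e] using h.re _ zu
        have e3 : ((-(l * W0)) * V u + (-deriv W 0) * (u ^ N * V u)
            + u ^ (2 * N) * ((-l⁻¹) * (E T * V u))) / u ^ (2 * N - 1)
            = (((‖∑ j ∈ range N, u ^ j‖ ^ 2) * ‖1 - T‖ ^ 2 : ℝ) : ℂ) *
              Complex.exp ((1 - a : ℝ) * Complex.log (P T) + Complex.log (q (z * u))) := by
          have w : (1 - T) ^ 2 * Complex.exp ((1 - a : ℝ) * Complex.log (P T))
              = W0 + T * deriv W 0 + T ^ 2 * E T := WE T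
          rw [c2] at w
          have un : u ^ (N - 1) ≠ 0 := pow_ne_zero _ u0
          rw [Complex.exp_add, Complex.exp_log qne, e1, e2, uN, div_eq_iff (by simp [un, lne, T0])]
          simp only [hV]
          rw [SS_circle hN hu]
          have il : l * l⁻¹ = 1 := mul_inv_cancel₀ lne
          push_cast at w ⊢
          linear_combination (l * ‖∑ j ∈ range N, u ^ j‖ ^ 2 * u ^ (N - 1) * q (z * u)) * w
            - (l * T ^ 2 * E T * ‖∑ j ∈ range N, u ^ j‖ ^ 2 * u ^ (N - 1) * q (z * u)) * il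
        rw [e3, Complex.re_ofReal_mul, Complex.exp_re]
        apply mul_nonneg (by positivity) (mul_nonneg (Real.exp_pos _).le _)
        obtain ⟨b1, b2⟩ := abs_lt.1 (h.arg _ zu)
        obtain ⟨b3, b4⟩ := abs_lt.1 (Complex.abs_arg_lt_pi_div_two_iff.2 (Or.inl (Pre T T1.le)))
        rw [Complex.add_im, Complex.im_ofReal_mul, Complex.log_im, Complex.log_im]
        apply cos_nonneg_of_mem_Icc
        constructor <;> nlinarith)
    rw [tay_add ((analyticAt_const.fun_mul aV).fun_add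
        (analyticAt_const.fun_mul (AnalyticAt.fun_mul (by fun_prop) aV)))
        (AnalyticAt.fun_mul (by fun_prop) (analyticAt_const.fun_mul (aE.fun_mul aV))),
      tay_add (analyticAt_const.fun_mul aV)
        (analyticAt_const.fun_mul (AnalyticAt.fun_mul (by fun_prop) aV)),
      map_add, map_add, coeff_pow_mul (analyticAt_const.fun_mul (aE.fun_mul aV)),
      if_neg (by omega), tay_const_mul _ aV, tay_const_mul _ (AnalyticAt.fun_mul (by fun_prop) aV),
      coeff_C_mul, coeff_C_mul, coeff_pow_mul aV, if_pos (by omega),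
      show 2 * N - 1 - N = N - 1 by omega, tV, coeff_m0 hN, coeff_m1 hN, W1, ← hm] at k
    have e4 : -(l * W0) * (N * m1 N q z)
        + -(-2 * W0 + W0 * ((1 - a : ℝ) * (2 * x0 * ρ / p0))) * (N * m) + 0
        = N * (2 * p0 - ((2 * (1 - a) * x0 * ρ + ‖W0 * m1 N q z‖ : ℝ) : ℂ)) := by
      push_cast
      rw [hl2]
      have ip : p0 * p0⁻¹ = 1 := mul_inv_cancel₀ p0ne
      rw [div_eq_mul_inv]
      linear_combination (N * (2 - (1 - a) * (2 * x0 * ρ * p0⁻¹))) * e0
        - (N * (1 - a) * (2 * x0 * ρ)) * ip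
    rw [e4, nat_mul_re, Complex.sub_re, Complex.ofReal_re] at k
    have e5 : (2 * p0).re = 2 * x0 := by simp [hx0]
    rw [e5] at k
    nlinarith
  have lim : ‖W0 * m1 N q z‖ ≤ 2 * a * x0 := by
    have hc : ContinuousAt (fun ρ : ℝ => 2 * x0 - 2 * (1 - a) * x0 * ρ) 1 := by fun_prop
    have t := hc.tendsto.mono_left (nhdsWithin_le_nhds (s := Set.Iio 1))
    have := ge_of_tendsto t (b := ‖W0 * m1 N q z‖) (by
      filter_upwards [Ioo_mem_nhdsLT (zero_lt_one' ℝ)] with r hr
      exact key r hr.1 hr.2)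
    linarith
  have nW : 0 < ‖W0‖ := norm_pos_iff.2 (Complex.exp_ne_zero _)
  have e6 : ‖W0‖ * ‖m‖ = Real.exp L.re := by rw [← norm_mul, e0, hp0, Complex.norm_exp]
  rw [norm_mul, ex, ← e6] at lim
  unfold phi
  apply le_of_mul_le_mul_left _ nW
  linarith

end Pool.Agent.P.MP_bdc337_an.LN
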