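import Pool.Agent.P.MP_bdc337_an.LN.Low1

/-! The lower bound for the coefficients. -/

set_option autoImplicit false

open Finset PowerSeries Metric Filter Topology Real

namespace Pool.Agent.P.MP_bdc337_an.LN

open UO

variable {a : ℝ} {q H G : ℂ → ℂ}

lemma perturb (h : Dat a q H G) {p A B : ℂ → ℂ} (pd : DifferentiableOn ℂ p (closedBall 0 1))
    (pr : ∀ z ∈ closedBall (0 : ℂ) 1, 0 < (p z).re)
    (pq : ∀ z ∈ closedBall (0 : ℂ) 1, Complex.exp (a * Complex.log (p z)) = q z)
    (Ad : Differentiable ℂ A) (Bd : Differentiable ℂ B) {k : ℝ} (k0 : 0 < k)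
    (hB : ∀ u : ℂ, ‖u‖ = 1 → ‖B u‖ ≤ 1 - k)
    (hA : ∀ u : ℂ, ‖u‖ = 1 → 4 * ‖A u - (p u).re * B u‖ < (p u).re * k) {n d : ℕ} (hd : d < n)
    {s : ℂ} (hs : ‖s‖ = 1) : ∃ q' H' G', Dat a q' H' G' ∧
      coeff (n + d) (tay fun z => Complex.exp (G' z)) =
        coeff (n + d) (tay fun z => Complex.exp (G z)) + s * ∑ x ∈ antidiagonal d,
          coeff x.1 (tay fun z => Complex.exp (G z)) *
            (coeff x.2 (tay fun z => 2 * a * (q z / p z * A z)) / (n + x.2)) := by
  have hnb : closedBall (0 : ℂ) 1 ∈ 𝓝 (0 : ℂ) := closedBall_mem_nhds 0 one_pos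
  have z0 : (0 : ℂ) ∈ closedBall (0 : ℂ) 1 := mem_closedBall_self zero_le_one
  have n0 : n ≠ 0 := by omega
  have pn : ∀ z ∈ closedBall (0 : ℂ) 1, p z ≠ 0 := fun z hz e => by simpa [e] using pr z hz
  have den : ∀ z ∈ closedBall (0 : ℂ) 1, 1 - s * z ^ n * B z ≠ 0 := fun z hz e => by
    have h1 := max_lt Bd.differentiableOn (c := 1) (fun u hu => by linarith [hB u hu]) hz
    have h2 := congrArg norm (sub_eq_zero.1 e)
    rw [norm_one, norm_mul, norm_mul, hs, one_mul, norm_pow] at h2
    have h3 := pow_le_one₀ (n := n) (norm_nonneg z) (mem_closedBall_zero_iff.1 hz)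
    nlinarith [norm_nonneg (B z)]
  set P : ℂ → ℂ := fun z => p z + 2 * (s * z ^ n * A z) / (1 - s * z ^ n * B z) with hP
  have Pd : DifferentiableOn ℂ P (closedBall 0 1) :=
    pd.add (DifferentiableOn.div (by fun_prop) (by fun_prop) den)
  have Pr : ∀ z ∈ closedBall (0 : ℂ) 1, 0 < (P z).re := fun z hz => by
    have := max_lt Pd.neg.cexp (c := 1) (fun u hu => ?_) hz
    · rw [Complex.norm_exp, exp_lt_one_iff] at this
      simpa using this
    · have t1 : ‖s * u ^ n‖ = 1 := by rw [norm_mul, hs, norm_pow, hu, one_pow, mul_one]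
      have := pos_re (p := p u) (A := s * u ^ n * A u) (w := s * u ^ n * B u) k0
        (by rw [norm_mul, t1, one_mul]; exact hB u hu)
        (by rw [mul_left_comm _ (s * u ^ n), ← mul_sub, norm_mul, t1, one_mul]; exact hA u hu)
      rw [Complex.norm_exp, exp_lt_one_iff, Pi.neg_apply, Complex.neg_re, neg_lt_zero]
      exact this
  obtain ⟨H', G', h'⟩ := mk_dat (q := fun z => Complex.exp (a * Complex.log (P z))) h.a0 h.a1
    (((Pd.clog fun z hz => Or.inl (Pr z hz)).const_mul _).cexp.mono ball_subset_closedBall)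
    (by simp only [hP, zero_pow n0, mul_zero, zero_mul, zero_div, add_zero, pq 0 z0, h.q0])
    fun z hz => by
      have hp := Pr z (ball_subset_closedBall hz)
      have nv : 0 < ‖P z‖ := norm_pos_iff.2 fun e => by simp [e] at hp
      have := h.a0
      simpa using room h.a0 h.a1 hp (g := 0) (by rw [norm_zero]; positivity)
  refine ⟨_, H', G', h', ?_⟩
  obtain ⟨E, Ea, hE⟩ := pow_exp a
  have ap : AnalyticAt ℂ p 0 := pd.analyticAt hnb
  have aq : AnalyticAt ℂ q 0 := h.qd.analyticAt (ball_mem_nhds 0 one_pos)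
  have aA : AnalyticAt ℂ A 0 := Ad.analyticAt 0
  have aB : AnalyticAt ℂ B 0 := Bd.analyticAt 0
  have d0 : (1 - s * 0 ^ n * B 0) * p 0 ≠ 0 := mul_ne_zero (den 0 z0) (pn 0 z0)
  set Y : ℂ → ℂ := fun z => 2 * s / ((1 - s * z ^ n * B z) * p z) * A z with hY
  have aY : AnalyticAt ℂ Y 0 :=
    AnalyticAt.fun_mul (AnalyticAt.fun_div (by fun_prop) (by fun_prop) d0) aA
  have ax : AnalyticAt ℂ (fun z => z ^ n * Y z) 0 := by fun_prop
  have aE : AnalyticAt ℂ (fun z => E (z ^ n * Y z)) 0 :=
    AnalyticAt.comp_of_eq Ea ax (by simp [n0])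
  have ac : AnalyticAt ℂ (fun z => 2 * a * (q z / p z * A z)) 0 :=
    analyticAt_const.fun_mul ((aq.fun_div ap (pn 0 z0)).fun_mul aA)
  have ae : AnalyticAt ℂ (fun z => q z * (a * s * Y z * B z + Y z ^ 2 * E (z ^ n * Y z))) 0 :=
    aq.fun_mul (AnalyticAt.fun_add (by fun_prop) ((aY.fun_pow 2).fun_mul aE))
  have a1 : AnalyticAt ℂ (fun z => s * (2 * a * (q z / p z * A z))) 0 := analyticAt_const.fun_mul ac
  have a2 : ∀ m : ℕ, AnalyticAt ℂ (fun z : ℂ => z ^ m) 0 := fun m => by fun_prop
  have ev : (fun z => Complex.exp (a * Complex.log (P z))) =ᶠ[𝓝 0] fun z => q z +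
      z ^ n * (s * (2 * a * (q z / p z * A z))) +
      z ^ (2 * n) * (q z * (a * s * Y z * B z + Y z ^ 2 * E (z ^ n * Y z))) := by
    have c1 : ContinuousAt (fun z => (1 + z ^ n * Y z).re) 0 :=
      Complex.continuous_re.continuousAt.comp (continuousAt_const.add ax.continuousAt)
    filter_upwards [hnb, c1.eventually (lt_mem_nhds (a := 0) (by simp [n0]))] with z hz h1
    have h2 := den z hz
    have h3 := pn z hz
    have h4 : P z = p z * (1 + z ^ n * Y z) := by
      simp only [hP, hY]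
      field_simp
    have h5 := abs_lt.1 (Complex.abs_arg_lt_pi_div_two_iff.2 (Or.inl (pr z hz)))
    have h6 := abs_lt.1 (Complex.abs_arg_lt_pi_div_two_iff.2 (Or.inl h1))
    have h7 : Y z * (1 - s * z ^ n * B z) = 2 * s * (A z / p z) := by
      simp only [hY]
      field_simp
    rw [h4, Complex.log_mul h3 (fun e => by simp [e] at h1) ⟨by linarith, by linarith⟩, mul_add,
      Complex.exp_add, pq z hz, hE]
    linear_combination (a * q z * z ^ n) * h7
  have := pert (g := tay fun z => Complex.exp (G' z)) (Q := tay q - 1)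
    (c := C s * tay fun z => 2 * a * (q z / p z * A z))
    (e := tay fun z => q z * (a * s * Y z * B z + Y z ^ 2 * E (z ^ n * Y z))) hd
    (by rw [map_sub, coeff_zero_tay, h.q0]; simp)
    (by rw [coeff_zero_tay, coeff_zero_tay, h.G0, h'.G0]) h.euler (by
      rw [h'.euler, tay_congr ev, tay_add (aq.fun_add ((a2 n).fun_mul a1)) ((a2 _).fun_mul ae),
        tay_add aq ((a2 n).fun_mul a1), tay_mul (a2 _) ae, tay_mul (a2 n) a1, tay_pow, tay_pow,
        tay_const_mul _ ac]
      ring)
  rw [this, mul_sum]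
  congr 1
  exact sum_congr rfl fun x _ => by rw [coeff_C_mul]; ring

lemma low1 (h : Dat a q H G) (qd : DifferentiableOn ℂ q (closedBall 0 1))
    (Gd : DifferentiableOn ℂ G (closedBall 0 1))
    (hq : ∀ z ∈ closedBall (0 : ℂ) 1, 0 < (q z).re ∧ |Complex.arg (q z)| < a * π / 2) {e : ℝ}
    (e0 : 0 < e) : ∀ᶠ N in atTop, ∃ q' H' G', Dat a q' H' G' ∧
      2 * a * jav a q G 1 - e ≤ cN G' N := by
  have hnb : closedBall (0 : ℂ) 1 ∈ 𝓝 (0 : ℂ) := closedBall_mem_nhds 0 one_pos
  have a0 := h.a0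
  have a1 := h.a1
  have hpi := pi_pos
  have qn : ∀ z ∈ closedBall (0 : ℂ) 1, q z ≠ 0 := fun z hz e => by simpa [e] using (hq z hz).1
  set p : ℂ → ℂ := fun z => Complex.exp (Complex.log (q z) / a) with hp
  have pd : DifferentiableOn ℂ p (closedBall 0 1) :=
    ((qd.clog fun z hz => Or.inl (hq z hz).1).div_const _).cexp
  have pn : ∀ z, p z ≠ 0 := fun z => Complex.exp_ne_zero _
  have pe : ∀ z, (p z).re = ‖p z‖ * cos (Complex.arg (q z) / a) := fun z => by
    simp only [hp, Complex.exp_re, Complex.norm_exp, Complex.div_ofReal_im, Complex.log_im]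
  have ar : ∀ z ∈ closedBall (0 : ℂ) 1, -(π / 2) < Complex.arg (q z) / a ∧
      Complex.arg (q z) / a < π / 2 := fun z hz => by
    have := abs_lt.1 (hq z hz).2
    rw [lt_div_iff₀ a0, div_lt_iff₀ a0]
    constructor <;> linarith
  have pr : ∀ z ∈ closedBall (0 : ℂ) 1, 0 < (p z).re := fun z hz => by
    rw [pe]
    exact mul_pos (norm_pos_iff.2 (pn z)) (cos_pos_of_mem_Ioo (ar z hz))
  have pq : ∀ z ∈ closedBall (0 : ℂ) 1, Complex.exp (a * Complex.log (p z)) = q z := fun z hz => by
    have := ar z hz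
    simp only [hp]
    rw [Complex.log_exp (by rw [Complex.div_ofReal_im, Complex.log_im]; linarith)
      (by rw [Complex.div_ofReal_im, Complex.log_im]; linarith),
      mul_div_cancel₀ _ (by exact_mod_cast a0.ne'), Complex.exp_log (qn z hz)]
  set ψ : ℂ → ℂ := fun z => q z / p z * Complex.exp (G z) with hψ
  have ss : sphere (0 : ℂ) 1 ⊆ closedBall 0 1 := sphere_subset_closedBall
  have ψc : ContinuousOn ψ (sphere 0 1) :=
    ((qd.div pd fun z _ => pn z).mul Gd.cexp).continuousOn.mono ss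
  have pc : ContinuousOn (fun z => (p z).re) (sphere 0 1) :=
    Complex.continuous_re.comp_continuousOn (pd.continuousOn.mono ss)
  have ψn : ∀ u ∈ sphere (0 : ℂ) 1, ((‖ψ u‖ : ℝ) : ℂ) ≠ 0 := fun u hu =>
    Complex.ofReal_ne_zero.2 (norm_ne_zero_iff.2
      (mul_ne_zero (div_ne_zero (qn u (ss hu)) (pn u)) (Complex.exp_ne_zero _)))
  have hJ : jav a q G 1 = circleAverage (fun u => (p u).re * ‖ψ u‖) 0 1 := by
    unfold jav phi
    congr 1
    funext u
    have := norm_ne_zero_iff.2 (pn u)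
    simp only [hψ]
    rw [pe, norm_mul, norm_div, Complex.norm_exp (G u)]
    field_simp
  set J := jav a q G 1
  obtain ⟨t, t0, ht⟩ := exists_pos_mul_lt (show 0 < e / 6 by positivity) (|J| + e / 6)
  have t1 : t < 1 := by nlinarith [mul_nonneg (abs_nonneg J) t0.le]
  have t2 : t * J ≤ e / 6 := by nlinarith [le_abs_self J, mul_pos e0 t0]
  obtain ⟨m, m0, hm⟩ := (isCompact_sphere (0 : ℂ) 1).exists_forall_le' pc fun u hu => pr u (ss hu)
  obtain ⟨M, hM⟩ := (isCompact_sphere (0 : ℂ) 1).exists_bound_of_continuousOn ψc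
  obtain ⟨δ, δ0, hδ⟩ := exists_pos_mul_lt
    (show 0 < min (t / 16) (min (m * t / 16) (e / 6)) by positivity) (|M| + 1)
  simp only [lt_min_iff] at hδ
  have δ1 := mul_nonneg (abs_nonneg M) δ0.le
  set f : ℂ → ℂ := fun u => (1 - t : ℝ) * ((starRingEnd ℂ) (ψ u) / ‖ψ u‖) with hf
  have fc : ContinuousOn f (sphere 0 1) := continuousOn_const.mul
    ((Complex.continuous_conj.comp_continuousOn ψc).div
      (Complex.continuous_ofReal.comp_continuousOn ψc.norm) ψn)
  obtain ⟨d, B, A, Bd, Ad, hBA⟩ := trig2 fc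
    ((Complex.continuous_ofReal.comp_continuousOn pc).mul fc) δ0
  simp only [Pi.mul_apply, Function.comp] at hBA
  have key := fun n s => perturb h pd pr pq Ad Bd (k := t / 2) (by positivity) (fun u hu => by
      have h1 := ψn u (mem_sphere_zero_iff_norm.2 hu)
      have h2 : ‖u ^ d * f u‖ = 1 - t := by
        rw [norm_mul, norm_pow, hu, one_pow, one_mul, hf, norm_mul, norm_div, Complex.norm_conj,
          Complex.norm_real, Complex.norm_real, norm_norm,
          div_self (Complex.ofReal_ne_zero.1 h1), mul_one, Real.norm_of_nonneg (by linarith)]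
      linarith [norm_sub_norm_le (B u) (u ^ d * f u), (hBA u hu).1])
    (fun u hu => by
      have h1 := hm u (mem_sphere_zero_iff_norm.2 hu)
      have h2 := norm_sub_le (A u - u ^ d * ((p u).re * f u)) ((p u).re * (B u - u ^ d * f u))
      rw [norm_mul, Complex.norm_real, Real.norm_of_nonneg (m0.le.trans h1),
        show A u - u ^ d * ((p u).re * f u) - (p u).re * (B u - u ^ d * f u) =
          A u - (p u).re * B u by ring] at h2
      have h3 := mul_le_mul_of_nonneg_left ((hBA u hu).1.trans (show δ ≤ t / 16 by linarith))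
        (m0.le.trans h1)
      nlinarith [(hBA u hu).2, mul_le_mul_of_nonneg_right h1 t0.le]) (n := n) (d := d) (s := s)
  have cd : DifferentiableOn ℂ (fun z => 2 * a * (q z / p z * A z)) (closedBall 0 1) :=
    ((qd.div pd fun z _ => pn z).mul Ad.differentiableOn).const_mul _
  have lim := (pert_lim (tay fun z => Complex.exp (G z))
    (tay fun z => 2 * a * (q z / p z * A z)) d).norm
  have gd : DifferentiableOn ℂ (fun z => Complex.exp (G z) * (2 * a * (q z / p z * A z)))
    (closedBall 0 1) := Gd.cexp.mul cd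
  rw [← tay_mul (Gd.cexp.analyticAt hnb) (cd.analyticAt hnb), coeff_eq_avg one_pos gd] at lim
  have i1 : CircleIntegrable
      (fun u => Complex.exp (G u) * (2 * a * (q u / p u * A u)) / u ^ d) 0 1 :=
    ((gd.continuousOn.mono ss).div (by fun_prop) fun u hu => pow_ne_zero _ fun e => by
      simp [e] at hu).circleIntegrable zero_le_one
  have i2 : CircleIntegrable (fun u => (p u).re * ‖ψ u‖) 0 1 :=
    (pc.mul ψc.norm).circleIntegrable zero_le_one
  have low : 2 * a * J - e < ‖circleAverage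
      (fun u => Complex.exp (G u) * (2 * a * (q u / p u * A u)) / u ^ d) 0 1‖ := by
    refine lt_of_lt_of_le ?_ (Complex.re_le_norm _)
    have i3 : CircleIntegrable (fun u => (2 * a * (1 - t)) • ((p u).re * ‖ψ u‖)) 0 1 :=
      i2.const_fun_smul
    have h1 := circleAverage_mono (i3.sub (circleIntegrable_const (e / 3) 0 1))
      (Complex.reCLM.continuous.comp_continuousOn ((gd.continuousOn.mono ss).div
        (continuous_pow d).continuousOn fun u hu => pow_ne_zero _ fun e => by
          simp [e] at hu) |>.circleIntegrable zero_le_one) fun u hu => by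
      rw [abs_one] at hu
      have h2 := mem_sphere_zero_iff_norm.1 hu
      have h3 : u ^ d ≠ 0 := pow_ne_zero _ fun e => by simp [e] at h2
      have h4 : Complex.exp (G u) * (2 * a * (q u / p u * A u)) / u ^ d =
          (2 * a : ℝ) * (((1 - t) * ((p u).re * ‖ψ u‖) : ℝ) +
            ψ u * (A u - u ^ d * ((p u).re * f u)) / u ^ d) := by
        have h5 := ψn u hu
        have h6 : ψ u * f u = (1 - t : ℝ) * ‖ψ u‖ := by
          rw [hf, mul_left_comm, ← mul_div_assoc, Complex.mul_conj']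
          field_simp
        have h7 : Complex.exp (G u) * (2 * a * (q u / p u * A u)) = 2 * a * (ψ u * A u) := by
          simp only [hψ]
          ring
        rw [h7]
        push_cast at h6 ⊢
        field_simp
        linear_combination (a * (p u).re * u ^ d) * h6
      have h8 := (abs_le.1 (Complex.abs_re_le_norm
        (ψ u * (A u - u ^ d * ((p u).re * f u)) / u ^ d))).1
      rw [norm_div, norm_pow, h2, one_pow, div_one, norm_mul] at h8
      have h9 := mul_le_mul ((hM u hu).trans (le_abs_self M)) (hBA u h2).2 (norm_nonneg _)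
        (abs_nonneg M)
      change 2 * a * (1 - t) * ((p u).re * ‖ψ u‖) - e / 3 ≤
        (Complex.exp (G u) * (2 * a * (q u / p u * A u)) / u ^ d).re
      rw [h4, Complex.re_ofReal_mul, Complex.add_re, Complex.ofReal_re]
      nlinarith
    rw [circleAverage_sub i3 (circleIntegrable_const _ _ _), circleAverage_fun_smul,
      circleAverage_const, ← hJ, smul_eq_mul] at h1
    rw [re_avg i1]
    refine lt_of_lt_of_le ?_ h1
    nlinarith
  obtain ⟨n0, hn⟩ := eventually_atTop.1
    ((lim.eventually (lt_mem_nhds low)).and (eventually_gt_atTop d))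
  filter_upwards [eventually_ge_atTop (n0 + d)] with N hN
  obtain ⟨n, rfl⟩ : ∃ n, N = n + d := ⟨N - d, by omega⟩
  obtain ⟨h1, h2⟩ := hn n (by omega)
  obtain ⟨q1, H1, G1, D1, e1⟩ := key n 1 h2 norm_one
  obtain ⟨q2, H2, G2, D2, e2⟩ := key n (-1) h2 (by simp)
  by_contra hc
  have c1 := not_le.1 fun x => hc ⟨q1, H1, G1, D1, x⟩
  have c2 := not_le.1 fun x => hc ⟨q2, H2, G2, D2, x⟩
  rw [norm_mul, Complex.norm_natCast] at h1
  unfold cN at c1 c2
  have h3 := norm_sub_le (coeff (n + d) (tay fun z => Complex.exp (G1 z)))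
    (coeff (n + d) (tay fun z => Complex.exp (G2 z)))
  conv_lhs at h3 => rw [e1, e2, add_sub_add_left_eq_sub, ← sub_mul, norm_mul]
  rw [show ‖(1 : ℂ) - -1‖ = 2 by norm_num] at h3
  nlinarith [mul_le_mul_of_nonneg_left h3 (Nat.cast_nonneg (α := ℝ) (n + d))]

theorem low (h : Dat a q H G) {r e : ℝ} (r0 : 0 < r) (r1 : r < 1) (e0 : 0 < e) :
    ∀ᶠ N in atTop, ∃ q' H' G', Dat a q' H' G' ∧ 2 * a * jav a q G r - e ≤ cN G' N := by
  have hr : ‖(r : ℂ)‖ < 1 := by rwa [Complex.norm_real, Real.norm_of_nonneg r0.le]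
  have hm : ∀ z ∈ closedBall (0 : ℂ) 1, r * z ∈ ball (0 : ℂ) 1 := fun z hz =>
    mem_mul hr (mem_closedBall_zero_iff.1 hz)
  have hb : ∀ z ∈ ball (0 : ℂ) 1, r * z ∈ ball (0 : ℂ) 1 := fun z hz =>
    hm z (ball_subset_closedBall hz)
  have h' : Dat a (fun z => q (r * z)) (fun z => r * H (r * z)) fun z => G (r * z) :=
    ⟨h.a0, h.a1, (scale_diff h.qd hr).mono ball_subset_closedBall, by simp [h.q0],
      fun z hz => h.re _ (hb z hz), fun z hz => h.arg _ (hb z hz),
      fun z hz => by rw [← h.hH _ (hb z hz)]; ring, by simp [h.G0], fun z hz =>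
        ((h.Gd _ (hb z hz)).comp z ((hasDerivAt_id' z).const_mul (r : ℂ))).congr_deriv (by ring)⟩
  have e : jav a q G r = jav a (fun z => q (r * z)) (fun z => G (r * z)) 1 := by
    unfold jav
    rw [circleAverage_eq_circleAverage_zero_one]
    simp only [add_zero]
  rw [e]
  exact low1 h' (scale_diff h.qd hr) (scale_diff h.Gdiff hr)
    (fun z hz => ⟨h.re _ (hm z hz), h.arg _ (hm z hz)⟩) e0

end Pool.Agent.P.MP_bdc337_an.LN
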