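import Pool.Agent.P.MP_bdc337_an.LN.Loc

/-! Tools for the lower bound. -/

set_option autoImplicit false

open Finset PowerSeries Metric Filter Topology

namespace Pool.Agent.P.MP_bdc337_an.LN

/-- trigonometric approximation on the unit circle -/
lemma trig {g : ℂ → ℂ} (hg : ContinuousOn g (sphere 0 1)) {δ : ℝ} (hδ : 0 < δ) :
    ∃ (d : ℕ) (P : ℂ → ℂ), Differentiable ℂ P ∧ ∀ u : ℂ, ‖u‖ = 1 → ‖P u - u ^ d * g u‖ ≤ δ := by
  have ex : ∀ f ∈ (polynomialFunctions (sphere (0 : ℂ) 1)).starClosure, ∃ (d : ℕ) (P : ℂ → ℂ),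
      Differentiable ℂ P ∧ ∀ u : sphere (0 : ℂ) 1, P u = (u : ℂ) ^ d * f u := by
    intro f hf
    rw [polynomialFunctions.starClosure_eq_adjoin_X] at hf
    induction hf using Algebra.adjoin_induction with
    | mem f hf =>
      push _ ∈ _ at hf
      rw [star_eq_iff_star_eq, eq_comm (b := f)] at hf
      obtain (rfl | rfl) := hf
      · exact ⟨0, id, differentiable_id, fun u => by simp⟩
      · refine ⟨1, fun _ => 1, by fun_prop, fun u => ?_⟩
        have : ‖(u : ℂ)‖ = 1 := mem_sphere_zero_iff_norm.1 u.2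
        simp [Complex.mul_conj', this]
    | algebraMap r => exact ⟨0, fun _ => r, by fun_prop, fun u => by simp⟩
    | add f g _ _ hf hg =>
      obtain ⟨d, P, h1, h2⟩ := hf
      obtain ⟨e, Q, h3, h4⟩ := hg
      refine ⟨d + e, fun u => u ^ e * P u + u ^ d * Q u, by fun_prop, fun u => ?_⟩
      simp only [h2, h4, ContinuousMap.add_apply]
      ring
    | mul f g _ _ hf hg =>
      obtain ⟨d, P, h1, h2⟩ := hf
      obtain ⟨e, Q, h3, h4⟩ := hg
      refine ⟨d + e, fun u => P u * Q u, by fun_prop, fun u => ?_⟩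
      simp only [h2, h4, ContinuousMap.mul_apply]
      ring
  let f : C(sphere (0 : ℂ) 1, ℂ) := ⟨_, hg.domRestrict⟩
  have := polynomialFunctions.starClosure_topologicalClosure (sphere (0 : ℂ) 1) ▸
    StarSubalgebra.mem_top (x := f)
  rw [← SetLike.mem_coe, StarSubalgebra.topologicalClosure_coe, Metric.mem_closure_iff] at this
  obtain ⟨f0, h0, h1⟩ := this δ hδ
  obtain ⟨d, P, h2, h3⟩ := ex f0 h0
  refine ⟨d, P, h2, fun u hu => ?_⟩
  have hu' : u ∈ sphere (0 : ℂ) 1 := mem_sphere_zero_iff_norm.2 hu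
  have h4 := (ContinuousMap.dist_apply_le_dist (f := f) (g := f0) ⟨u, hu'⟩).trans h1.le
  have h5 : ‖u ^ d‖ = 1 := by rw [norm_pow, hu, one_pow]
  rw [h3 ⟨u, hu'⟩, ← mul_sub, norm_mul, h5, one_mul, ← dist_eq_norm, dist_comm]
  exact h4

lemma trig2 {f g : ℂ → ℂ} (hf : ContinuousOn f (sphere 0 1)) (hg : ContinuousOn g (sphere 0 1))
    {δ : ℝ} (hδ : 0 < δ) : ∃ (d : ℕ) (P Q : ℂ → ℂ), Differentiable ℂ P ∧ Differentiable ℂ Q ∧
      ∀ u : ℂ, ‖u‖ = 1 → ‖P u - u ^ d * f u‖ ≤ δ ∧ ‖Q u - u ^ d * g u‖ ≤ δ := by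
  obtain ⟨d, P, h1, h2⟩ := trig hf hδ
  obtain ⟨e, Q, h3, h4⟩ := trig hg hδ
  refine ⟨d + e, fun u => u ^ e * P u, fun u => u ^ d * Q u, by fun_prop, by fun_prop,
    fun u hu => ⟨?_, ?_⟩⟩
  · rw [pow_add, mul_comm (u ^ d), mul_assoc, ← mul_sub, norm_mul, norm_pow, hu, one_pow, one_mul]
    exact h2 u hu
  · rw [pow_add, mul_assoc, ← mul_sub, norm_mul, norm_pow, hu, one_pow, one_mul]
    exact h4 u hu

lemma max_lt {f : ℂ → ℂ} (hf : DifferentiableOn ℂ f (closedBall 0 1)) {c : ℝ}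
    (h : ∀ u : ℂ, ‖u‖ = 1 → ‖f u‖ < c) {z : ℂ} (hz : z ∈ closedBall (0 : ℂ) 1) : ‖f z‖ < c := by
  obtain ⟨u, hu, hm⟩ := Complex.exists_mem_frontier_isMaxOn_norm (f := f) isBounded_ball
    (nonempty_ball.2 one_pos) (DifferentiableOn.diffContOnCl (by rwa [closure_ball _ one_ne_zero]))
  rw [frontier_ball _ one_ne_zero] at hu
  rw [closure_ball _ one_ne_zero] at hm
  exact lt_of_le_of_lt (hm hz) (h u (by simpa using hu))

lemma pos_re {p A w : ℂ} {k : ℝ} (k0 : 0 < k) (hw : ‖w‖ ≤ 1 - k)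
    (hA : 4 * ‖A - p.re * w‖ < p.re * k) : 0 < (p + 2 * A / (1 - w)).re := by
  have w0 := norm_nonneg w
  have x0 : 0 < p.re := by nlinarith [norm_nonneg (A - p.re * w)]
  have n1 : ‖1 - w‖ ≤ 2 := (norm_sub_le _ _).trans (by rw [norm_one]; linarith)
  have n0 : 1 - w ≠ 0 := fun e => by
    rw [← sub_eq_zero.1 e, norm_one] at hw
    linarith
  have d0 := Complex.normSq_pos.2 n0
  have e : p + 2 * A / (1 - w) = (p - p.re) + ((Complex.normSq (1 - w))⁻¹ : ℝ) *
      (p.re * ((1 + w) * (starRingEnd ℂ) (1 - w)) +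
        2 * ((A - p.re * w) * (starRingEnd ℂ) (1 - w))) := by
    have : (starRingEnd ℂ) (1 - w) ≠ 0 := (map_ne_zero _).2 n0
    rw [Complex.ofReal_inv, ← Complex.mul_conj]
    field_simp
    ring
  have e1 : ((1 + w) * (starRingEnd ℂ) (1 - w)).re = 1 - ‖w‖ ^ 2 := by
    rw [Complex.sq_norm, Complex.normSq_apply]
    simp
    ring
  have e2 := (abs_le.1 (Complex.abs_re_le_norm ((A - p.re * w) * (starRingEnd ℂ) (1 - w)))).1
  rw [norm_mul, Complex.norm_conj] at e2
  rw [e, Complex.add_re, Complex.re_ofReal_mul, Complex.add_re, Complex.re_ofReal_mul, e1,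
    Complex.sub_re, Complex.ofReal_re, sub_self, zero_add, show (2 : ℂ) = (2 : ℝ) by simp,
    Complex.re_ofReal_mul]
  refine mul_pos (inv_pos.2 d0) ?_
  have e3 : k ≤ 1 - ‖w‖ ^ 2 := by nlinarith
  nlinarith [mul_le_mul_of_nonneg_left n1 (norm_nonneg (A - p.re * w)),
    mul_le_mul_of_nonneg_left e3 x0.le]

lemma pow_exp (a : ℂ) : ∃ E : ℂ → ℂ, AnalyticAt ℂ E 0 ∧
    ∀ x, Complex.exp (a * Complex.log (1 + x)) = 1 + a * x + x ^ 2 * E x := by
  have h1 : AnalyticAt ℂ (fun x : ℂ => Complex.exp (a * Complex.log (1 + x))) 0 :=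
    (analyticAt_const.mul (AnalyticAt.clog (by fun_prop) (by simp))).cexp'
  have h2 := ((((hasDerivAt_id' (0 : ℂ)).const_add 1).clog (by simp)).const_mul a).cexp.deriv
  obtain ⟨E, hE, h⟩ := h1.exists_eq_sum_add_pow_mul 2
  refine ⟨E, hE, fun x => ?_⟩
  rw [h x, sum_range_succ, sum_range_one, iteratedDeriv_one, h2]
  simp [mul_comm]

lemma van {K R T : ℂ⟦X⟧} {m : ℕ} (hK : coeff 0 K = 0) (hR : coeff 0 R = 0)
    (h : X * d⁄dX ℂ R = K * R + X ^ m * T) : ∀ k < m, coeff k R = 0 := by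
  intro k
  induction k using Nat.strong_induction_on with
  | _ k ih =>
    intro hk
    rcases k with _ | k
    · exact hR
    · have h1 := congrArg (coeff (k + 1)) h
      rw [coeff_X_mul_deriv, map_add, coeff_conv hK _ le_rfl, coeff_X_pow_mul', if_neg (by omega),
        sum_eq_zero fun j hj => by
          rw [ih j (mem_range.1 hj) ((mem_range.1 hj).trans hk), mul_zero], add_zero] at h1
      exact (mul_eq_zero.1 h1).resolve_left (by exact_mod_cast Nat.succ_ne_zero k)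

/-- first order perturbation of the Euler equation -/
lemma pert {f g Q c e : ℂ⟦X⟧} {n d : ℕ} (hd : d < n) (hQ : coeff 0 Q = 0)
    (h0 : coeff 0 g = coeff 0 f) (hf : X * d⁄dX ℂ f = Q * f)
    (hg : X * d⁄dX ℂ g = (Q + X ^ n * c + X ^ (2 * n) * e) * g) :
    coeff (n + d) g = coeff (n + d) f +
      ∑ x ∈ antidiagonal d, coeff x.1 f * (coeff x.2 c / (n + x.2)) := by
  set D : ℂ⟦X⟧ := PowerSeries.mk fun k => coeff k c / (n + k) with hD
  have h1 : X * d⁄dX ℂ (X ^ n * D) = X ^ n * c := by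
    ext k
    rw [coeff_X_mul_deriv, coeff_X_pow_mul', coeff_X_pow_mul']
    split_ifs with h
    · have : (k : ℂ) ≠ 0 := Nat.cast_ne_zero.2 (by omega)
      rw [hD, coeff_mk, Nat.cast_sub h, add_sub_cancel]
      field_simp
    · simp
  have h2 := van (K := Q + X ^ n * c) (R := g - f * (1 + X ^ n * D)) (T := c * f * D + e * g)
    (m := 2 * n) (by rw [map_add, hQ, coeff_X_pow_mul', if_neg (by omega), add_zero])
    (by rw [map_sub, h0, mul_add, mul_left_comm, map_add, coeff_X_pow_mul', if_neg (by omega)]; simp)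
    (by
      rw [map_sub, Derivation.leibniz, map_add, Derivation.map_one_eq_zero, zero_add, smul_eq_mul,
        smul_eq_mul]
      linear_combination hg - (1 + X ^ n * D) * hf - f * h1) (n + d) (by omega)
  rw [map_sub, mul_add, mul_left_comm, map_add, mul_one, sub_eq_zero, coeff_X_pow_mul',
    if_pos (by omega), Nat.add_sub_cancel_left, coeff_mul] at h2
  rw [h2]
  simp only [hD, coeff_mk]

lemma pert_lim (f c : ℂ⟦X⟧) (d : ℕ) : Tendsto (fun n : ℕ => ((n + d : ℕ) : ℂ) *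
    ∑ x ∈ antidiagonal d, coeff x.1 f * (coeff x.2 c / (n + x.2))) atTop (𝓝 (coeff d (f * c))) := by
  simp only [mul_sum, coeff_mul]
  refine tendsto_finsetSum _ fun x _ => ?_
  have h := (((tendsto_const_div_atTop_nhds_zero_nat ((d : ℂ) - x.2)).comp
    (tendsto_add_atTop_nat x.2)).const_add 1).const_mul (coeff x.1 f * coeff x.2 c)
  rw [add_zero, mul_one] at h
  refine h.congr' ?_
  filter_upwards [eventually_gt_atTop 0] with n hn
  have : (n : ℂ) + x.2 ≠ 0 := by exact_mod_cast (by omega : n + x.2 ≠ 0)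
  simp only [Function.comp]
  push_cast
  field_simp
  ring

end Pool.Agent.P.MP_bdc337_an.LN
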