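import Pool.Agent.P.MP_bdc337_an.LN.Thr

/-! For each index the exact range is an interval. -/

set_option autoImplicit false

open Finset PowerSeries Metric Filter Topology Real

namespace Pool.Agent.P.MP_bdc337_an.LN

open UO

variable {a b : ℝ} {q H G : ℂ → ℂ}

lemma push (h : Dat b q H G) (hab : b < a) (a1 : a < 1) {N : ℕ} (hN : 1 ≤ N) :
    ∃ q' H' G', Dat a q' H' G' ∧ cN G N + 2 * (a - b) ≤ cN G' N := by
  have hpi := pi_pos
  have b0 := h.a0
  have hnb : ball (0 : ℂ) 1 ∈ 𝓝 (0 : ℂ) := ball_mem_nhds 0 one_pos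
  obtain ⟨s, s1, s2⟩ := Complex.exists_norm_mul_eq_self
    (coeff N (tay fun z => Complex.exp (G z)))
  have hm : ∀ z ∈ ball (0 : ℂ) 1, s * z ^ N ∈ ball (0 : ℂ) 1 := by
    intro z hz
    rw [mem_ball_zero_iff, norm_mul, s1, one_mul, norm_pow]
    exact pow_lt_one₀ (norm_nonneg _) (mem_ball_zero_iff.1 hz) (by omega)
  set x : ℂ → ℂ := fun z => 2 * (s * z ^ N) / (1 - s * z ^ N) with hx
  have ex : ∀ z ∈ ball (0 : ℂ) 1, 1 + x z = (1 + s * z ^ N) / (1 - s * z ^ N) := by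
    intro z hz
    have := one_sub_ne (hm z hz)
    simp only [hx]
    field_simp
    ring
  have xre : ∀ z ∈ ball (0 : ℂ) 1, 0 < (1 + x z).re := fun z hz => ex z hz ▸ kern_pos (hm z hz)
  have xd : DifferentiableOn ℂ x (ball 0 1) :=
    DifferentiableOn.div (by fun_prop) (by fun_prop) fun z hz => one_sub_ne (hm z hz)
  have x0 : x 0 = 0 := by simp [hx, zero_pow (by omega : N ≠ 0)]
  set q' : ℂ → ℂ := fun z => q z * Complex.exp ((a - b : ℝ) * Complex.log (1 + x z)) with hq'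
  have qd : DifferentiableOn ℂ q' (ball 0 1) :=
    h.qd.mul (((xd.const_add 1).clog fun z hz => Or.inl (xre z hz)).const_mul _).cexp
  obtain ⟨H', G', h'⟩ := mk_dat (a := a) (by linarith) a1 qd (by simp [hq', x0, h.q0]) (by
    intro z hz
    have qne : q z ≠ 0 := fun e => by simpa [e] using h.re z hz
    obtain ⟨b1, b2⟩ := abs_lt.1 (h.arg z hz)
    obtain ⟨b3, b4⟩ := abs_lt.1 (Complex.abs_arg_lt_pi_div_two_iff.2 (Or.inl (xre z hz)))
    have e : q' z = Complex.exp (Complex.log (q z) + (a - b : ℝ) * Complex.log (1 + x z)) := by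
      rw [Complex.exp_add, Complex.exp_log qne]
    have l : (Complex.log (q z) + (a - b : ℝ) * Complex.log (1 + x z)).im
        = Complex.arg (q z) + (a - b) * Complex.arg (1 + x z) := by
      rw [Complex.add_im, Complex.im_ofReal_mul, Complex.log_im, Complex.log_im]
    have k : |Complex.arg (q' z)| < a * π / 2 := by
      rw [← Complex.log_im, e, Complex.log_exp (by rw [l]; nlinarith) (by rw [l]; nlinarith), l,
        abs_lt]
      constructor <;> nlinarith
    refine ⟨(Complex.abs_arg_lt_pi_div_two_iff.1 (by nlinarith)).resolve_right ?_, k⟩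
    rw [e]
    exact Complex.exp_ne_zero _)
  refine ⟨q', H', G', h', ?_⟩
  obtain ⟨E, hE, eE⟩ := pow_exp ((a - b : ℝ) : ℂ)
  have aq : AnalyticAt ℂ q 0 := h.qd.analyticAt hnb
  have ax : AnalyticAt ℂ x 0 := xd.analyticAt hnb
  have ai : AnalyticAt ℂ (fun z : ℂ => 2 * s / (1 - s * z ^ N)) 0 :=
    AnalyticAt.fun_div (by fun_prop) (by fun_prop) (one_sub_ne (hm 0 (mem_ball_self one_pos)))
  have aE : AnalyticAt ℂ (fun z => E (x z)) 0 := AnalyticAt.fun_comp (by rwa [x0]) ax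
  set c : ℂ → ℂ := fun z => q z * (2 * s / (1 - s * z ^ N)) * ((a - b : ℝ) + x z * E (x z)) with hc
  have ac : AnalyticAt ℂ c 0 := (aq.fun_mul ai).fun_mul (analyticAt_const.fun_add (ax.fun_mul aE))
  have e1 : q' = fun z => q z + z ^ N * c z := by
    funext z
    simp only [hq', hc]
    rw [eE]
    simp only [hx]
    ring
  have eu := h'.euler
  rw [e1, tay_add aq (AnalyticAt.fun_mul (by fun_prop) ac), tay_mul (by fun_prop) ac, tay_pow] at eu
  have k := pert (f := tay fun z => Complex.exp (G z)) (g := tay fun z => Complex.exp (G' z))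
    (Q := tay q - 1) (c := tay c) (e := 0) (n := N) (d := 0) (by omega)
    (by simp only [map_sub, coeff_zero_tay, h.q0]; simp)
    (by simp only [coeff_zero_tay, h.G0, h'.G0]) h.euler (by rw [eu]; ring)
  have n0 : (N : ℂ) ≠ 0 := by exact_mod_cast (by omega : N ≠ 0)
  have c0 : c 0 = 2 * s * (a - b : ℝ) := by simp [hc, x0, h.q0, zero_pow (by omega : N ≠ 0)]
  simp only [add_zero, Finset.Nat.antidiagonal_zero, sum_singleton, coeff_zero_tay, h.G0, c0,
    Complex.exp_zero, one_mul, Nat.cast_zero] at k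
  have e2 : (N : ℂ) * coeff N (tay fun z => Complex.exp (G' z))
      = ((cN G N + 2 * (a - b) : ℝ) : ℂ) * s := by
    rw [k, cN]
    push_cast
    field_simp
    linear_combination -(N : ℂ) * s2
  have e3 := congrArg norm e2
  rw [norm_mul, norm_mul, s1, mul_one, Complex.norm_natCast, Complex.norm_real] at e3
  rw [show cN G' N = _ from e3]
  exact le_abs_self _

lemma shrink (h : Dat a q H G) {r : ℝ} (r0 : 0 < r) (r1 : r < 1) :
    ∃ b, b < a ∧ Dat b (fun z => q (r * z)) (fun z => r * H (r * z)) (fun z => G (r * z)) := by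
  have hpi := pi_pos
  have a0 := h.a0
  have nr : ‖(r : ℂ)‖ < 1 := by rwa [Complex.norm_real, Real.norm_of_nonneg r0.le]
  have hm : ∀ z ∈ closedBall (0 : ℂ) 1, (r : ℂ) * z ∈ ball (0 : ℂ) 1 := fun z hz =>
    mem_mul nr (mem_closedBall_zero_iff.1 hz)
  have cq := (scale_diff h.qd nr).continuousOn
  have ca : ContinuousOn (fun z => |Complex.arg (q (r * z))|) (closedBall 0 1) := fun z hz =>
    (ContinuousAt.comp_continuousWithinAt (f := fun z => q (r * z))
      (Complex.continuousAt_arg (Or.inl (h.re _ (hm z hz)))) (cq z hz)).abs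
  obtain ⟨u, hu, hmax⟩ := (isCompact_closedBall (0 : ℂ) 1).exists_isMaxOn ⟨0, by simp⟩ ca
  have k := h.arg _ (hm u hu)
  have k0 := abs_nonneg (Complex.arg (q (r * u)))
  have e : (a / 2 + |Complex.arg (q (r * u))| / π) * π / 2
      = a * π / 4 + |Complex.arg (q (r * u))| / 2 := by
    field_simp
    ring
  have k1 : a / 2 + |Complex.arg (q (r * u))| / π < a := by
    have : |Complex.arg (q (r * u))| / π < a / 2 := by rw [div_lt_iff₀ hpi]; linarith
    linarith
  have hd := dil h r0 r1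
  refine ⟨_, k1, by positivity, k1.trans h.a1, hd.qd, hd.q0, hd.re, fun z hz => ?_, hd.hH, hd.G0,
    hd.Gd⟩
  have : |Complex.arg (q (r * z))| ≤ |Complex.arg (q (r * u))| := hmax (ball_subset_closedBall hz)
  rw [e]
  linarith

/-- the bound `N |F_N| ≤ 2 a` on the class -/
def Ex (N : ℕ) (a : ℝ) : Prop := ∀ q H G, Dat a q H G → cN G N ≤ 2 * a

lemma Ex.down {N : ℕ} (hN : 1 ≤ N) (h : Ex N a) (hab : b ≤ a) (a1 : a < 1) : Ex N b := by
  rcases hab.eq_or_lt with rfl | hab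
  · exact h
  intro q H G hd
  obtain ⟨q', H', G', h', k⟩ := push hd hab a1 hN
  linarith [h q' H' G' h']

lemma Ex.closed {N : ℕ} (h : ∀ b, 0 < b → b < a → Ex N b) : Ex N a := by
  intro q H G hd
  refine lim_r (N := N) fun r r0 r1 => ?_
  obtain ⟨b, hb, h'⟩ := shrink hd r0 r1
  have k := h b h'.a0 hb _ _ _ h'
  unfold cN at k ⊢
  rw [tay_scale (fun z => Complex.exp (G z)), norm_mul, norm_pow, Complex.norm_real,
    Real.norm_of_nonneg r0.le] at k
  linarith

lemma ex_third {N : ℕ} (hN : 1 ≤ N) : Ex N (1 / 3) := by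
  intro q H G h
  obtain ⟨a1, a2, a3, a4, a5⟩ := h.star
  have k := upper h.a0 le_rfl a1 a2 a3 a4 a5 hN
  have n0 : (0 : ℝ) < N := by exact_mod_cast hN
  rw [← coeff_star h (fun _ _ => rfl), mul_comm]
  exact (le_div_iff₀ n0).1 k

theorem thr2 {a0 : ℝ} (p0 : 0 < a0) (p1 : a0 ≤ 1)
    (hr : ∀ a, 0 < a → a < a0 → ∀ e, 0 < e →
      ∃ᶠ N in atTop, ∀ q H G, Dat a q H G → cN G N ≤ 2 * a + e) :
    ∃ (τ : ℕ → ℝ) (t : ℝ), a0 ≤ t ∧ t ≤ 227 / 500 ∧ Tendsto τ atTop (𝓝 t) ∧
      (∀ N, 1 ≤ N → ∀ a, 0 < a → a < 1 → (Ex N a ↔ a ≤ τ N)) ∧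
      ∀ a, t < a → a < 1 → ∃ d, 0 < d ∧
        ∀ᶠ N in atTop, ∃ q H G, Dat a q H G ∧ 2 * a + d ≤ cN G N := by
  obtain ⟨t, t0, t1, hA, hB⟩ := thr p0 p1 hr
  set S : ℕ → Set ℝ := fun N => {b | b ≤ 0 ∨ (b < 1 ∧ Ex N b)} with hS
  have ne : ∀ N, (S N).Nonempty := fun N => ⟨0, Or.inl le_rfl⟩
  have bd : ∀ N, BddAbove (S N) := fun N => ⟨1, fun b hb => by
    rcases hb with hb | hb
    · linarith
    · exact hb.1.le⟩
  have key : ∀ N, 1 ≤ N → ∀ a, 0 < a → a < 1 → (Ex N a ↔ a ≤ sSup (S N)) := by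
    intro N hN a h0 h1
    refine ⟨fun h => le_csSup (bd N) (Or.inr ⟨h1, h⟩), fun h => Ex.closed fun b b0 hb => ?_⟩
    obtain ⟨c, hc, hbc⟩ := exists_lt_of_lt_csSup (ne N) (hb.trans_le h)
    rcases hc with hc | hc
    · linarith
    · exact hc.2.down hN hbc.le hc.1
  refine ⟨fun N => sSup (S N), t, t0, t1, tendsto_order.2 ⟨fun x hx => ?_, fun x hx => ?_⟩, key, hB⟩
  · obtain ⟨a, a1, a2⟩ := exists_between (_root_.max_lt hx (by linarith : 0 < t))
    have h0 := (le_max_right _ _).trans_lt a1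
    filter_upwards [hA a h0 a2, eventually_ge_atTop 1] with N h hN
    exact ((le_max_left _ _).trans_lt a1).trans_le ((key N hN a h0 (by linarith)).1 h)
  · obtain ⟨a, a1, a2⟩ := exists_between (lt_min hx (by linarith : t < 1))
    have h1 := a2.trans_le (min_le_right _ _)
    obtain ⟨d, d0, hd⟩ := hB a a1 h1
    filter_upwards [hd, eventually_ge_atTop 1] with N ⟨q, H, G, h, k⟩ hN
    refine lt_of_le_of_lt (not_lt.1 fun hc => ?_) (a2.trans_le (min_le_left _ _))
    linarith [(key N hN a (by linarith) h1).2 hc.le q H G h]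

end Pool.Agent.P.MP_bdc337_an.LN
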