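import Pool.Agent.P.MP_bdc337_an.LN.NotR

/-! A polynomial competitor. -/

set_option autoImplicit false

open Finset PowerSeries Metric Filter Topology Real

namespace Pool.Agent.P.MP_bdc337_an.LN

open UO

lemma coeff_mul_range (S T : ℂ⟦X⟧) (k : ℕ) :
    coeff k (S * T) = ∑ j ∈ range (k + 1), coeff j S * coeff (k - j) T := by
  rw [coeff_mul, Finset.Nat.sum_antidiagonal_eq_sum_range_succ_mk]

/-- recurrences for the competitor `q = p ^ a`, where `‖g‖ ^ 2 ≤ s * Re p` -/
theorem grec {a s : ℝ} (h0 : 0 < a) (h1 : a < 1) (s0 : 0 < s) {p g : ℂ → ℂ}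
    (dp : Differentiable ℂ p) (dg : Differentiable ℂ g) (p0 : p 0 = 1)
    (hp : ∀ z ∈ ball (0 : ℂ) 1, 0 < (p z).re)
    (hg : ∀ z ∈ ball (0 : ℂ) 1, ‖g z‖ ^ 2 ≤ s * (p z).re) :
    ∃ q H G, ∃ L Q E : ℕ → ℂ, Dat a q H G ∧ Q 0 = 1 ∧ E 0 = 1 ∧
    (∀ k : ℕ, k * coeff k (tay p) = ∑ j ∈ range (k + 1), coeff j (tay p) * L (k - j)) ∧
    (∀ k : ℕ, k * Q k = a * ∑ j ∈ range (k + 1), L j * Q (k - j)) ∧
    (∀ k : ℕ, k * E k = ∑ j ∈ range (k + 1),
      1 / 2 * (Q j - (if j = 0 then 1 else 0) + (a - 1) * L j) * E (k - j)) ∧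
    ∀ r : ℝ, 0 < r → r < 1 → ∀ N : ℕ, s⁻¹ * ∑ k ∈ range (N + 1),
      ‖∑ j ∈ range (k + 1), coeff j (tay g) * E (k - j)‖ ^ 2 * r ^ (2 * k) ≤ jav a q G r := by
  have hnb : ball (0 : ℂ) 1 ∈ 𝓝 (0 : ℂ) := ball_mem_nhds 0 one_pos
  have pn : ∀ z ∈ ball (0 : ℂ) 1, p z ≠ 0 := fun z hz e => by simpa [e] using hp z hz
  have dL : ∀ z ∈ ball (0 : ℂ) 1, HasDerivAt (fun z => Complex.log (p z)) (deriv p z / p z) z :=
    fun z hz => (dp z).hasDerivAt.clog (Or.inl (hp z hz))
  set q : ℂ → ℂ := fun z => Complex.exp (a * Complex.log (p z)) with hq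
  have dq : ∀ z ∈ ball (0 : ℂ) 1, HasDerivAt q (q z * (a * (deriv p z / p z))) z :=
    fun z hz => ((dL z hz).const_mul (a : ℂ)).cexp
  have qd : DifferentiableOn ℂ q (ball 0 1) :=
    fun z hz => (dq z hz).differentiableAt.differentiableWithinAt
  have q0 : q 0 = 1 := by simp [hq, p0]
  obtain ⟨H, G, h⟩ := mk_dat h0 h1 qd q0 fun z hz => pow_sector h0 h1 (hp z hz)
  set E : ℂ → ℂ := fun z => Complex.exp ((G z + (a - 1 : ℝ) * Complex.log (p z)) / 2) with hE
  have dE : ∀ z ∈ ball (0 : ℂ) 1, HasDerivAt E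
      (E z * ((H z + (a - 1 : ℝ) * (deriv p z / p z)) / 2)) z := fun z hz =>
    (((h.Gd z hz).add ((dL z hz).const_mul ((a - 1 : ℝ) : ℂ))).div_const 2).cexp
  have Ed : DifferentiableOn ℂ E (ball 0 1) :=
    fun z hz => (dE z hz).differentiableAt.differentiableWithinAt
  set L : ℂ → ℂ := fun z => z * deriv p z / p z with hL
  have ap : AnalyticAt ℂ p 0 := dp.analyticAt 0
  have aq : AnalyticAt ℂ q 0 := qd.analyticAt hnb
  have aE : AnalyticAt ℂ E 0 := Ed.analyticAt hnb
  have aL : AnalyticAt ℂ L 0 := (analyticAt_id.mul ap.deriv).div ap (by simp [p0])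
  have eu : ∀ {f : ℂ → ℂ}, AnalyticAt ℂ f 0 → ∀ k : ℕ,
      k * coeff k (tay f) = coeff k (tay fun z => z * deriv f z) := fun hf k => by
    rw [tay_mul (f := fun z => z) analyticAt_id hf.deriv, tay_id, tay_deriv, coeff_X_mul_deriv]
  refine ⟨q, H, G, fun k => coeff k (tay L), fun k => coeff k (tay q), fun k => coeff k (tay E), h,
    (coeff_zero_tay q).trans q0, by simp [coeff_zero_tay, hE, p0, h.G0], fun k => ?_, fun k => ?_,
    fun k => ?_, fun r r0 r1 N => ?_⟩
  · rw [eu ap, ← coeff_mul_range, ← tay_mul ap aL]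
    congr 1
    apply tay_congr
    filter_upwards [hnb] with z hz
    have := pn z hz
    simp only [hL]
    field_simp
  · rw [eu aq, ← coeff_mul_range, ← tay_mul aL aq, ← coeff_C_mul, ← tay_const_mul _ (aL.fun_mul aq)]
    congr 1
    apply tay_congr
    filter_upwards [hnb] with z hz
    rw [(dq z hz).deriv]
    simp only [hL]
    ring
  · have ode : (fun z => z * deriv E z) =ᶠ[𝓝 0] fun z =>
        (1 / 2 : ℂ) * (q z - 1 + (a - 1 : ℂ) * L z) * E z := by
      filter_upwards [hnb] with z hz
      rw [(dE z hz).deriv, ← h.hH z hz]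
      simp only [hL]
      push_cast
      ring
    rw [eu aE, tay_congr ode, tay_mul (by fun_prop) aE, tay_const_mul _ (by fun_prop),
      tay_add (by fun_prop) (by fun_prop), tay_sub aq analyticAt_const, tay_const_mul _ aL,
      tay_const, map_one, coeff_mul_range]
    simp only [coeff_C_mul, map_add, map_sub (coeff _), coeff_one]
  · have Dd : DifferentiableOn ℂ (fun z => g z * E z) (ball 0 1) := dg.differentiableOn.mul Ed
    have b := bessel r0 (Dd.mono (closedBall_subset_ball r1)) N
    simp only [tay_mul (dg.analyticAt 0) aE, coeff_mul_range] at b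
    have sb : sphere (0 : ℂ) |r| ⊆ ball 0 1 := by
      rw [abs_of_pos r0]; exact sphere_subset_ball r1
    have e : jav a q G r = circleAverage (fun z => (p z).re * ‖E z‖ ^ 2) 0 r :=
      circleAverage_congr_sphere fun z hz => phi_pow h0 h1 (hp z (sb hz)) _
    rw [e]
    refine (mul_le_mul_of_nonneg_left b (inv_pos.2 s0).le).trans ?_
    rw [← smul_eq_mul, ← circleAverage_fun_smul]
    refine circleAverage_mono
      (((Dd.continuousOn.norm.pow 2).const_smul s⁻¹).mono sb).circleIntegrable'
      (((Complex.continuous_re.comp dp.continuous).continuousOn.mul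
        (Ed.continuousOn.norm.pow 2)).mono sb).circleIntegrable' fun z hz => ?_
    rw [smul_eq_mul, norm_mul, mul_pow, ← mul_assoc]
    exact mul_le_mul_of_nonneg_right ((inv_mul_le_iff₀ s0).2 (hg z (sb hz))) (sq_nonneg _)

/-- coefficients of `p` -/
noncomputable def cp (j : ℕ) : ℂ := ([1, 126 / 73, 418 / 365, 164 / 365, -6 / 365, -84 / 365, -72 / 365, -38 / 365, -8 / 365] : List ℂ).getD j 0

/-- coefficients of `g` -/
noncomputable def cg (j : ℕ) : ℂ := ([4, 7, 11, 10, 8, 2, -1, -3, -1] : List ℂ).getD j 0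

lemma sos (z : ℂ) : 365 * (∑ j ∈ range 9, cp j * z ^ j).re =
    ‖∑ j ∈ range 9, cg j * z ^ j‖ ^ 2 + (1 - ‖z‖ ^ 2) *
      (‖(7) + (11) * z + (10) * z ^ 2 + (8) * z ^ 3 + (2) * z ^ 4 + (-1) * z ^ 5 + (-3) * z ^ 6 + (-1) * z ^ 7‖ ^ 2 +
        ‖(11) + (10) * z + (8) * z ^ 2 + (2) * z ^ 3 + (-1) * z ^ 4 + (-3) * z ^ 5 + (-1) * z ^ 6‖ ^ 2 +
        ‖(10) + (8) * z + (2) * z ^ 2 + (-1) * z ^ 3 + (-3) * z ^ 4 + (-1) * z ^ 5‖ ^ 2 +
        ‖(8) + (2) * z + (-1) * z ^ 2 + (-3) * z ^ 3 + (-1) * z ^ 4‖ ^ 2 +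
        ‖(2) + (-1) * z + (-3) * z ^ 2 + (-1) * z ^ 3‖ ^ 2 +
        ‖(-1) + (-3) * z + (-1) * z ^ 2‖ ^ 2 +
        ‖(-3) + (-1) * z‖ ^ 2 + 1) := by
  apply Complex.ofReal_injective
  push_cast
  simp only [← Complex.mul_conj', Complex.re_eq_add_conj, sum_range_succ, range_zero, sum_empty,
    cp, cg, List.getD_cons_zero, List.getD_cons_succ, map_add, map_mul, map_pow, map_div₀, map_one,
    map_zero, map_ofNat, map_neg]
  ring

theorem notR1 : ∃ q H G r, Dat (227 / 500) q H G ∧ 0 < r ∧ r < 1 ∧ 1 < jav (227 / 500) q G r := by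
  have pos : ∀ z ∈ ball (0 : ℂ) 1, 0 < 1 - ‖z‖ ^ 2 := fun z hz => by
    nlinarith [mem_ball_zero_iff.1 hz, norm_nonneg z]
  obtain ⟨q, H, G, L, Q, E, h, q0, e0, rl, rq, re, hj⟩ := grec (a := 227 / 500) (s := 365)
    (by norm_num) (by norm_num) (by norm_num) (p := fun z => ∑ j ∈ range 9, cp j * z ^ j)
    (g := fun z => ∑ j ∈ range 9, cg j * z ^ j) (by fun_prop) (by fun_prop)
    (by simp [sum_range_succ, cp])
    (fun z hz => (mul_pos_iff_of_pos_left (by norm_num : (0 : ℝ) < 365)).1 (by
      have := pos z hz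
      rw [sos]; positivity))
    (fun z hz => by
      have := pos z hz
      rw [sos, le_add_iff_nonneg_right]; positivity)
  simp only [tay_poly, coeff_mk] at rl hj
  have l0 : L 0 = 0 := by simpa [cp] using (rl 0).symm
  have l1 : L 1 = 126 / 73 := by
    have := rl 1
    norm_num [sum_range_succ, cp, l0] at this
    linear_combination -this
  have q1 : Q 1 = 14301 / 18250 := by
    have := rq 1
    norm_num [sum_range_succ, l0, l1, q0] at this
    linear_combination (1 / 1) * this
  have e1 : E 1 = -1449 / 18250 := by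
    have := re 1
    norm_num [sum_range_succ, l0, l1, q0, q1, e0] at this
    linear_combination (1 / 1) * this
  have l2 : L 2 = -18352 / 26645 := by
    have := rl 2
    norm_num [sum_range_succ, cp, l0, l1] at this
    linear_combination -this
  have q2 : Q 2 = 100371001 / 666125000 := by
    have := rq 2
    norm_num [sum_range_succ, l0, l1, l2, q0, q1] at this
    linear_combination (1 / 2) * this
  have e2 : E 2 = 71854841 / 532900000 := by
    have := re 2
    norm_num [sum_range_succ, l0, l1, l2, q0, q1, q2, e0, e1] at this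
    linear_combination (1 / 2) * this
  have l3 : L 3 = 1089456 / 1945085 := by
    have := rl 3
    norm_num [sum_range_succ, cp, l0, l1, l2] at this
    linear_combination -this
  have q3 : Q 3 = 515969143367 / 12156781250000 := by
    have := rq 3
    norm_num [sum_range_succ, l0, l1, l2, l3, q0, q1, q2] at this
    linear_combination (1 / 3) * this
  have e3 : E 3 = -7941025307609 / 145881375000000 := by
    have := re 3
    norm_num [sum_range_succ, l0, l1, l2, l3, q0, q1, q2, q3, e0, e1, e2] at this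
    linear_combination (1 / 3) * this
  have l4 : L 4 = -723638672 / 709956025 := by
    have := rl 4
    norm_num [sum_range_succ, cp, l0, l1, l2, l3] at this
    linear_combination -this
  have q4 : Q 4 = -61531630383056133 / 887445031250000000 := by
    have := rq 4
    norm_num [sum_range_succ, l0, l1, l2, l3, l4, q0, q1, q2, q3] at this
    linear_combination (1 / 4) * this
  have e4 : E 4 = 1043221471167491263 / 14199120500000000000 := by
    have := re 4
    norm_num [sum_range_succ, l0, l1, l2, l3, l4, q0, q1, q2, q3, q4, e0, e1, e2, e3] at this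
    linear_combination (1 / 4) * this
  have l5 : L 5 = 3161566192 / 10365357965 := by
    have := rl 5
    norm_num [sum_range_succ, cp, l0, l1, l2, l3, l4] at this
    linear_combination -this
  have q5 : Q 5 = -4104534964293898834833 / 80979359101562500000000 := by
    have := rq 5
    norm_num [sum_range_succ, l0, l1, l2, l3, l4, l5, q0, q1, q2, q3, q4] at this
    linear_combination (1 / 5) * this
  have e5 : E 5 = -644771630892443162733337 / 19435046184375000000000000 := by
    have := re 5
    norm_num [sum_range_succ, l0, l1, l2, l3, l4, l5, q0, q1, q2, q3, q4, q5, e0, e1, e2, e3, e4] at this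
    linear_combination (1 / 5) * this
  have l6 : L 6 = -7727681942392 / 18916778286125 := by
    have := rl 6
    norm_num [sum_range_succ, cp, l0, l1, l2, l3, l4, l5] at this
    linear_combination -this
  have q6 : Q 6 = -75826096519868446770930911 / 2955746607207031250000000000 := by
    have := rq 6
    norm_num [sum_range_succ, l0, l1, l2, l3, l4, l5, l6, q0, q1, q2, q3, q4, q5] at this
    linear_combination (1 / 6) * this
  have e6 : E 6 = 240220895370294413234687469797 / 8512550228756250000000000000000 := by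
    have := re 6
    norm_num [sum_range_succ, l0, l1, l2, l3, l4, l5, l6, q0, q1, q2, q3, q4, q5, q6, e0, e1, e2, e3, e4, e5] at this
    linear_combination (1 / 6) * this
  have l7 : L 7 = 381381571758054 / 1380924814887125 := by
    have := rl 7
    norm_num [sum_range_succ, cp, l0, l1, l2, l3, l4, l5, l6] at this
    linear_combination -this
  have q7 : Q 7 = -312917788479061551883965322373 / 53942375581528320312500000000000 := by
    have := rq 7
    norm_num [sum_range_succ, l0, l1, l2, l3, l4, l5, l6, l7, q0, q1, q2, q3, q4, q5, q6] at this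
    linear_combination (1 / 7) * this
  have e7 : E 7 = -1394991725332000468989934438268479 / 72498552781574062500000000000000000 := by
    have := re 7
    norm_num [sum_range_succ, l0, l1, l2, l3, l4, l5, l6, l7, q0, q1, q2, q3, q4, q5, q6, q7, e0, e1, e2, e3, e4, e5, e6] at this
    linear_combination (1 / 7) * this
  have l8 : L 8 = -83305419342628752 / 504037557433800625 := by
    have := rl 8
    norm_num [sum_range_succ, cp, l0, l1, l2, l3, l4, l5, l6, l7] at this
    linear_combination -this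
  have q8 : Q 8 = 23452047138256144492613231765007327 / 7875586834903134765625000000000000000 := by
    have := rq 8
    norm_num [sum_range_succ, l0, l1, l2, l3, l4, l5, l6, l7, l8, q0, q1, q2, q3, q4, q5, q6, q7] at this
    linear_combination (1 / 8) * this
  have e8 : E 8 = 1171190624394677015682786565107539906651 / 90726760338084112500000000000000000000000 := by
    have := re 8
    norm_num [sum_range_succ, l0, l1, l2, l3, l4, l5, l6, l7, l8, q0, q1, q2, q3, q4, q5, q6, q7, q8, e0, e1, e2, e3, e4, e5, e6, e7] at this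
    linear_combination (1 / 8) * this
  refine ⟨q, H, G, 9999 / 10000, h, by norm_num, by norm_num,
    lt_of_lt_of_le ?_ (hj _ (by norm_num) (by norm_num) 8)⟩
  norm_num [sum_range_succ, cg, e0, e1, e2, e3, e4, e5, e6, e7, e8]

end Pool.Agent.P.MP_bdc337_an.LN
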