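import Pool.Agent.P.MP_bdc337_an.LN.Up
import Pool.Agent.P.MP_bdc337_an.LN.Low
import Pool.Agent.P.MP_bdc337_an.LN.NotR1

/-! The threshold. -/

set_option autoImplicit false

open Finset PowerSeries Metric Filter Topology Real

namespace Pool.Agent.P.MP_bdc337_an.LN

open UO

variable {a b : ℝ} {q H G : ℂ → ℂ}

lemma dat_mono (h : Dat a q H G) (hab : a ≤ b) (b1 : b < 1) : Dat b q H G :=
  ⟨h.a0.trans_le hab, b1, h.qd, h.q0, h.re,
    fun z hz => (h.arg z hz).trans_le (by have := pi_pos; nlinarith), h.hH, h.G0, h.Gd⟩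

lemma jav_int (h : Dat a q H G) (b : ℝ) {r : ℝ} (r0 : 0 < r) (r1 : r < 1) :
    CircleIntegrable (fun z => phi b (q z) * exp (G z).re) 0 r := by
  have hs : sphere (0 : ℂ) |r| ⊆ ball 0 1 := (sph r0).trans (closedBall_subset_ball r1)
  have cq := h.qd.continuousOn.mono hs
  have ca : ContinuousOn (fun z => Complex.arg (q z)) (sphere 0 |r|) := fun z hz =>
    (Complex.continuousAt_arg (Or.inl (h.re z (hs hz)))).comp_continuousWithinAt (cq z hz)
  apply ContinuousOn.circleIntegrable'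
  exact (cq.norm.mul (continuous_cos.comp_continuousOn (ca.div_const b))).mul
    (continuous_exp.comp_continuousOn
      (Complex.continuous_re.comp_continuousOn (h.Gdiff.continuousOn.mono hs)))

lemma jav_mono (h : Dat a q H G) (hab : a ≤ b) {r : ℝ} (r0 : 0 < r) (r1 : r < 1) :
    jav a q G r ≤ jav b q G r := by
  have hs : sphere (0 : ℂ) |r| ⊆ ball 0 1 := (sph r0).trans (closedBall_subset_ball r1)
  refine circleAverage_mono (jav_int h a r0 r1) (jav_int h b r0 r1) fun z hz => ?_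
  apply mul_le_mul_of_nonneg_right _ (exp_pos _).le
  have k := phi_gap h.a0 hab (h.arg z (hs hz))
  have a0 := h.a0
  have k1 : 1 / b ^ 2 ≤ 1 / a ^ 2 := one_div_le_one_div_of_le (by positivity) (by nlinarith)
  have k2 : 0 ≤ 2 / π ^ 2 * (1 / a ^ 2 - 1 / b ^ 2) * (‖q z‖ * Complex.arg (q z) ^ 2) :=
    mul_nonneg (mul_nonneg (by positivity) (by linarith)) (by positivity)
  linarith

lemma low' (h : Dat a q H G) {r : ℝ} (r0 : 0 < r) (r1 : r < 1) (hj : 1 < jav a q G r) :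
    ∃ d, 0 < d ∧ ∀ᶠ N in atTop, ∃ q' H' G', Dat a q' H' G' ∧ 2 * a + d ≤ cN G' N := by
  have a0 := h.a0
  have e0 : 0 < a * (jav a q G r - 1) := mul_pos a0 (by linarith)
  refine ⟨_, e0, (low h r0 r1 e0).mono fun N ⟨q', H', G', h1, h2⟩ => ⟨q', H', G', h1, ?_⟩⟩
  linarith

theorem thr {a0 : ℝ} (p0 : 0 < a0) (p1 : a0 ≤ 1)
    (hr : ∀ a, 0 < a → a < a0 → ∀ e, 0 < e →
      ∃ᶠ N in atTop, ∀ q H G, Dat a q H G → cN G N ≤ 2 * a + e) :
    ∃ t : ℝ, a0 ≤ t ∧ t ≤ 227 / 500 ∧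
      (∀ a, 0 < a → a < t → ∀ᶠ N in atTop, ∀ q H G, Dat a q H G → cN G N ≤ 2 * a) ∧
      ∀ a, t < a → a < 1 → ∃ d, 0 < d ∧
        ∀ᶠ N in atTop, ∃ q H G, Dat a q H G ∧ 2 * a + d ≤ cN G N := by
  set S : Set ℝ := {b | 0 < b ∧ b < 1 ∧
    ∀ q H G r, Dat b q H G → 0 < r → r < 1 → jav b q G r ≤ 1} with hS
  have m1 : ∀ a, 0 < a → a < a0 → a ∈ S := by
    intro a h0 h1
    refine ⟨h0, by linarith, fun q H G r h r0 r1 => ?_⟩
    by_contra hj
    obtain ⟨d, d0, hd⟩ := low' h r0 r1 (not_le.1 hj)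
    obtain ⟨N, k1, q', H', G', k2, k3⟩ := ((hr a h0 h1 (d / 2) (by linarith)).and_eventually hd).exists
    linarith [k1 q' H' G' k2]
  have m2 : ∀ b ∈ S, b ≤ 227 / 500 := by
    intro b ⟨_, b1, hb⟩
    by_contra hc
    obtain ⟨q, H, G, r, h, r0, r1, hj⟩ := notR1
    have hc' := (not_le.1 hc).le
    linarith [hb q H G r (dat_mono h hc' b1) r0 r1, jav_mono h hc' r0 r1]
  have ne : S.Nonempty := ⟨a0 / 2, m1 _ (by linarith) (by linarith)⟩
  have bd : BddAbove S := ⟨_, m2⟩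
  have t0 : a0 ≤ sSup S := by
    refine le_of_forall_lt_imp_le_of_dense fun a ha => ?_
    rcases le_or_gt a (a0 / 2) with h | h
    · exact h.trans (le_csSup bd (m1 _ (by linarith) (by linarith)))
    · exact le_csSup bd (m1 _ (by linarith) ha)
  refine ⟨sSup S, t0, csSup_le ne m2, fun a h0 h1 => ?_, fun a h0 h1 => ?_⟩
  · obtain ⟨b, hb, hab⟩ := exists_lt_of_lt_csSup ne h1
    exact up_stab h0 hab (by linarith [m2 b hb]) fun q H G r h r0 r1 =>
      hb.2.2 q H G r (dat_mono h hab.le hb.2.1) r0 r1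
  · have : a ∉ S := fun ha => absurd (le_csSup bd ha) (not_le.2 h0)
    simp only [hS, Set.mem_ofPred_eq, not_and, not_forall, not_le] at this
    obtain ⟨q, H, G, r, h, r0, r1, hj⟩ := this (by linarith) h1
    exact low' h r0 r1 hj

lemma coeff_star (h : Dat a q H G) {f : ℂ → ℂ}
    (hf : ∀ z ∈ ball (0 : ℂ) 1, f z = z * Complex.exp (G z)) (N : ℕ) :
    N * ‖coeff (N + 1) (tay f)‖ = cN G N := by
  have hnb : ball (0 : ℂ) 1 ∈ 𝓝 (0 : ℂ) := ball_mem_nhds 0 one_pos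
  have e : f =ᶠ[𝓝 0] fun z => z * Complex.exp (G z) := by
    filter_upwards [hnb] with z hz using hf z hz
  rw [tay_congr e, tay_mul (f := fun z => z) analyticAt_id (h.Gdiff.cexp.analyticAt hnb), tay_id,
    coeff_succ_X_mul, cN]

end Pool.Agent.P.MP_bdc337_an.LN
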