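import Pool.Agent.P.MP_bdc337_an.LN.Bridge

/-! Upper bounds for large index. -/

set_option autoImplicit false

open Finset PowerSeries Metric Filter Topology Real

namespace Pool.Agent.P.MP_bdc337_an.LN

open UO

variable {a : ℝ}

lemma ev_v {e : ℝ} (he : 0 < e) :
    ∀ᶠ N : ℕ in atTop, 2 ≤ N ∧ ∃ v : ℝ, 0 < v ∧ N * v ^ 2 = 1 ∧ v ≤ e := by
  filter_upwards [eventually_ge_atTop 2,
    (tendsto_natCast_atTop_atTop (R := ℝ)).eventually_ge_atTop (1 / e ^ 2)] with N h1 h2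
  have n0 : (0 : ℝ) < N := by exact_mod_cast (by omega : 0 < N)
  have hv : N * (1 / √(N : ℝ)) ^ 2 = 1 := by
    rw [div_pow, sq_sqrt n0.le]
    field_simp
  refine ⟨h1, 1 / √(N : ℝ), by positivity, hv, ?_⟩
  apply abs_le_of_sq_le_sq' _ he.le |>.2
  rw [div_le_iff₀ (by positivity)] at h2
  apply le_of_mul_le_mul_left _ n0
  linarith

lemma pt {b A C1 M κ κ' L K s v Y : ℝ} {p g R : ℂ} (h0 : 0 < a) (hab : a < b) (h1 : a < 1 / 2)
    (hre : 0 < (1 + p).re) (harg : |Complex.arg (1 + p)| < a * π / 2) (hA : A * cos (a * π) = 4)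
    (A0 : 0 < A) (hC1 : C1 = 2 * A * (A + 1)) (hM : M = exp Y)
    (hκ : κ = 2 / π ^ 2 * (1 / a ^ 2 - 1 / b ^ 2)) (κ1 : 0 < κ') (hκ' : κ' * (M * C1) = κ)
    (hL : L = 1 + 2 / a) (K0 : 0 < K) (s0 : 0 ≤ s) (v0 : 0 < v) (hg : |g.re| ≤ 2 * s)
    (hY : 2 * s ≤ Y) (r1 : ‖R‖ ≤ K * s * v) :
    phi a (1 + p) * ‖Complex.exp g * (1 + R)‖ ≤ phi b (1 + p) * exp g.re
      + (K * v * M * L / 2 - κ') * ‖p‖ ^ 2 + (((κ' * A : ℝ) : ℂ) * p ^ 2 + R
      + (M * (K * s * v) ^ 2 : ℝ) * (1 + p) + (K * v * M * (L / 2 + 2) * s ^ 2 : ℝ)).re := by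
  obtain ⟨m1, -, m3⟩ := major h1 hre harg hA A0
  rw [add_sub_cancel_left, ← hC1] at m3
  have C0 : 0 < C1 := by rw [hC1]; positivity
  have L0 : 0 < L := by rw [hL]; positivity
  have M0 : 0 < M := by rw [hM]; exact exp_pos _
  rw [Complex.add_re, Complex.add_re, Complex.add_re, Complex.re_ofReal_mul, Complex.re_ofReal_mul,
    Complex.ofReal_re, norm_mul, Complex.norm_exp, ← mul_assoc]
  obtain ⟨g1, g2⟩ := abs_le.1 hg
  have t2 := exp_sub_le hg hY
  have E0 : 0 < exp g.re := exp_pos _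
  have E1 : exp g.re ≤ M := by rw [hM]; exact exp_le_exp.2 (by linarith)
  have E2 : 1 ≤ M * exp g.re := by
    rw [hM, ← exp_add]
    exact one_le_exp (by linarith)
  rw [← hM] at t2
  have f0 := phi_nonneg h0 harg
  have f1 := (phi_le a _).trans m1
  have f2 := phi_gap h0 hab.le harg
  have f3 := phi_lip h0 (by linarith) harg
  rw [add_sub_cancel_left, ← hL] at f3
  rw [← hκ] at f2
  have I0 : 0 ≤ ‖1 + p‖ * Complex.arg (1 + p) ^ 2 := by positivity
  have r2 := norm_one_add_le R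
  have r3 := (Complex.abs_re_le_norm R).trans r1
  have r4 := pow_le_pow_left₀ (norm_nonneg _) r1 2
  have n0 := norm_nonneg p
  generalize exp g.re = E at *
  generalize ‖1 + p‖ * Complex.arg (1 + p) ^ 2 = I at *
  generalize phi a (1 + p) = fa at *
  generalize phi b (1 + p) = fb at *
  generalize (1 + p).re = x at *
  generalize (p ^ 2).re = y at *
  generalize ‖p‖ = n at *
  generalize ‖1 + R‖ = z at *
  generalize R.re = t at *
  generalize ‖R‖ = u at *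
  have w0 : 0 ≤ fa * E := mul_nonneg f0 E0.le
  have w1 : fa * E ≤ 2 * x * M := mul_le_mul f1 E1 E0.le (by linarith)
  have w2 : fa * E ≤ fb * E - κ' * (n ^ 2 - A * y) := by
    have t1 := mul_le_mul_of_nonneg_right f2 E0.le
    have t2 : κ' * (n ^ 2 - A * y) ≤ κ' * (C1 * I) := mul_le_mul_of_nonneg_left (by linarith) κ1.le
    have t4 : κ' * (C1 * I) ≤ κ' * (C1 * I) * (M * E) := le_mul_of_one_le_right (by positivity) E2
    rw [← hκ'] at t1
    linarith
  have w3 : |fa * E - 1| ≤ M * (L * n) + 2 * s * M := by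
    have e : fa * E - 1 = E * (fa - 1) + (E - 1) := by ring
    rw [e]
    refine (abs_add_le _ _).trans (add_le_add ?_ t2)
    rw [abs_mul, abs_of_pos E0]
    exact mul_le_mul E1 f3 (abs_nonneg _) M0.le
  have w4 : (fa * E - 1) * t ≤ (M * (L * n) + 2 * s * M) * (K * s * v) := by
    refine (le_abs_self _).trans ?_
    rw [abs_mul]
    exact mul_le_mul w3 r3 (abs_nonneg _) (by positivity)
  have w5 : 0 ≤ K * v * M * L / 2 * (n - s) ^ 2 := by positivity
  have w6 : fa * E * z ≤ fa * E * (1 + t + (K * s * v) ^ 2 / 2) :=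
    mul_le_mul_of_nonneg_left (by linarith) w0
  have w7 := mul_le_mul_of_nonneg_right w1 (sq_nonneg (K * s * v))
  linarith

lemma fin_ar {x y J K M L κ s v T : ℝ} (h0 : 0 < a) (M0 : 0 < M) (v0 : 0 < v) (v3 : v ≤ 1)
    (hT : T = 2 * a * (K * M * (L + 2) + M * K ^ 2) + 12 * M) (v2 : v * T ≤ 2 * a * κ) (hJ : J ≤ 1)
    (fin : x ≤ 2 * a * y + 12 * M * s ^ 2 * v ^ 2)
    (k : y ≤ J + (K * v * M * L / 2 - κ) * s ^ 2
      + (M * (K * s * v) ^ 2 + K * v * M * (L / 2 + 2) * s ^ 2)) : x ≤ 2 * a := by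
  have k2 := mul_le_mul_of_nonneg_left k (by positivity : 0 ≤ 2 * a)
  have k3 : v ^ 2 ≤ v := by nlinarith
  have k4 := mul_le_mul_of_nonneg_right v2 (sq_nonneg s)
  have k5 := mul_le_mul_of_nonneg_left k3
    (by positivity : 0 ≤ (2 * a * (M * K ^ 2) + 12 * M) * s ^ 2)
  have k6 := mul_le_mul_of_nonneg_left hJ (by positivity : 0 ≤ 2 * a)
  rw [hT] at k4
  linarith

theorem up_stab {b : ℝ} (h0 : 0 < a) (hab : a < b) (h1 : a < 1 / 2)
    (hR : ∀ q H G r, Dat a q H G → 0 < r → r < 1 → jav b q G r ≤ 1) :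
    ∀ᶠ N : ℕ in atTop, ∀ q H G, Dat a q H G → cN G N ≤ 2 * a := by
  have hpi := pi_pos
  have g0 : 0 < cos (a * π) := cos_pos_of_mem_Ioo ⟨by nlinarith, by nlinarith⟩
  obtain ⟨A, hA⟩ : ∃ x, x = 4 / cos (a * π) := ⟨_, rfl⟩
  have A0 : 0 < A := by rw [hA]; positivity
  have hA' : A * cos (a * π) = 4 := by rw [hA]; field_simp
  obtain ⟨C1, hC1⟩ : ∃ x, x = 2 * A * (A + 1) := ⟨_, rfl⟩
  have C0 : 0 < C1 := by rw [hC1]; positivity
  obtain ⟨M, hM⟩ : ∃ x, x = exp (2 * (1 + C1)) := ⟨_, rfl⟩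
  have M0 : 0 < M := by rw [hM]; exact exp_pos _
  obtain ⟨κ, hκ⟩ : ∃ x, x = 2 / π ^ 2 * (1 / a ^ 2 - 1 / b ^ 2) := ⟨_, rfl⟩
  have κ0 : 0 < κ := by
    rw [hκ]
    apply mul_pos (by positivity)
    rw [sub_pos]
    exact one_div_lt_one_div_of_lt (by positivity) (by nlinarith)
  obtain ⟨L, hL⟩ : ∃ x, x = 1 + 2 / a := ⟨_, rfl⟩
  have L0 : 0 < L := by rw [hL]; positivity
  obtain ⟨K, hK⟩ : ∃ x, x = 76 * M ^ 2 := ⟨_, rfl⟩
  have K0 : 0 < K := by rw [hK]; positivity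
  obtain ⟨κ', hκ'⟩ : ∃ x, x = κ / (M * C1) := ⟨_, rfl⟩
  have κ1 : 0 < κ' := by rw [hκ']; positivity
  obtain ⟨T, hT⟩ : ∃ x, x = 2 * a * (K * M * (L + 2) + M * K ^ 2) + 12 * M := ⟨_, rfl⟩
  have T0 : 0 < T := by rw [hT]; positivity
  filter_upwards [ev_v (e := min (1 / (2 * (1 + C1))) (2 * a * κ' / T)) (by positivity)] with N
    ⟨hN, v, v0, hv, ve⟩ q H G h
  have v1 : v * (2 * (1 + C1)) ≤ 1 := (le_div_iff₀ (by positivity)).1 (ve.trans (min_le_left _ _))
  have v2 : v * T ≤ 2 * a * κ' := (le_div_iff₀ T0).1 (ve.trans (min_le_right _ _))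
  have v3 : v ≤ 1 := by nlinarith
  refine lim_r (N := N) fun r r0 r1 => ?_
  obtain ⟨c, q', H', G', c0, hd, e1, e2, hb⟩ := bridge h hN r0 r1
  have nr : ‖(r : ℂ)‖ < 1 := by rwa [Complex.norm_real, Real.norm_of_nonneg r0.le]
  set P := poly N (ct N c) with hP
  have dP : Differentiable ℂ P := poly_diff _ _
  have cP := dP.continuous
  have P0 : P 0 = 0 := poly_zero (by simp [ct, c0])
  have hre : ∀ u : ℂ, ‖u‖ = 1 → 0 < (1 + P u).re := fun u hu => by
    rw [← e1]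
    exact hd.re _ (mem_mul nr hu.le)
  have harg : ∀ u : ℂ, ‖u‖ = 1 → |Complex.arg (1 + P u)| < a * π / 2 := fun u hu => by
    rw [← e1]
    exact hd.arg _ (mem_mul nr hu.le)
  have maj := fun u hu => major h1 (hre u hu) (harg u hu) hA' A0
  simp only [add_sub_cancel_left, ← hC1] at maj
  set s := √(∑ k ∈ range N, ‖ct N c k‖ ^ 2) with hs
  have s0 : 0 ≤ s := sqrt_nonneg _
  have s2 : s ^ 2 = ∑ k ∈ range N, ‖ct N c k‖ ^ 2 := sq_sqrt (sum_nonneg fun _ _ => sq_nonneg _)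
  have pP : circleAverage (fun u => ‖P u‖ ^ 2) 0 1 = s ^ 2 := by rw [s2, hP, pars]
  have s3 : s ≤ 1 + C1 := by
    have dZ : Differentiable ℂ fun u => (A : ℂ) * P u ^ 2 + (2 * C1 : ℝ) * (1 + P u) := by fun_prop
    have k := avg_le (g := fun u => ‖P u‖ ^ 2)
      (k := fun u => ((A : ℂ) * P u ^ 2 + (2 * C1 : ℝ) * (1 + P u)).re) (cint (by fun_prop))
      (cint (Complex.continuous_re.comp dZ.continuous)) (fun u hu => by
        obtain ⟨m1, m2, m3⟩ := maj u hu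
        rw [Complex.add_re, Complex.re_ofReal_mul, Complex.re_ofReal_mul]
        have : ‖1 + P u‖ * Complex.arg (1 + P u) ^ 2 ≤ 2 * (1 + P u).re :=
          (mul_le_of_le_one_right (norm_nonneg _) m2).trans m1
        nlinarith [mul_le_mul_of_nonneg_left this C0.le])
    rw [pP, avg_re dZ, P0] at k
    simp at k
    apply abs_le_of_sq_le_sq' _ (by linarith) |>.2
    nlinarith
  have gle : ∀ u : ℂ, ‖u‖ = 1 → |(gt N c u).re| ≤ 2 * s := fun u hu =>
    (Complex.abs_re_le_norm _).trans (gt_le N c s0 s2.ge hu.le)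
  have hM1 : ∀ u : ℂ, ‖u‖ = 1 → exp (gt N c u).re ≤ M := fun u hu =>
    hM ▸ exp_le_exp.2 (by linarith [(abs_le.1 (gle u hu)).2])
  have hM2 : ∀ u : ℂ, ‖u‖ = 1 → exp (-(gt N c u).re) ≤ M := fun u hu =>
    hM ▸ exp_le_exp.2 (by linarith [(abs_le.1 (gle u hu)).1])
  obtain ⟨Γ, dΓ, Γ0, hΓ, fin⟩ := hb v s M v0 hv s0 s2.ge (by nlinarith)
    (fun u hu => by rw [Complex.norm_exp]; exact hM1 u hu)
  have dg : Differentiable ℂ (gt N c) := poly_diff _ _
  have cg := dg.continuous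
  set R : ℂ → ℂ := fun u => Γ u * Complex.exp (-gt N c u) - 1 with hRdef
  have dR : Differentiable ℂ R := (dΓ.mul dg.neg.cexp).sub_const 1
  have R0 : R 0 = 0 := by
    have : gt N c 0 = 0 := poly_zero (by simp)
    simp [hRdef, Γ0, this]
  have eΓ : ∀ u, Γ u = Complex.exp (gt N c u) * (1 + R u) := by
    intro u
    simp only [hRdef, Complex.exp_neg]
    have := Complex.exp_ne_zero (gt N c u)
    field_simp
    ring
  have hRle : ∀ u : ℂ, ‖u‖ = 1 → ‖R u‖ ≤ K * s * v := by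
    intro u hu
    have e : R u = (Γ u - Complex.exp (gt N c u)) * Complex.exp (-gt N c u) := by
      simp only [hRdef]
      rw [sub_mul, ← Complex.exp_add]
      simp
    rw [e, norm_mul, Complex.norm_exp, Complex.neg_re]
    have := mul_le_mul (hΓ u hu) (hM2 u hu) (exp_pos _).le (by positivity)
    rw [hK]
    linarith
  have J := hR q' H' G' r hd r0 r1
  rw [jav_eq] at J
  simp only [e1, e2] at J
  have dZ : Differentiable ℂ fun u => ((κ' * A : ℝ) : ℂ) * P u ^ 2 + R u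
      + (M * (K * s * v) ^ 2 : ℝ) * (1 + P u) + (K * v * M * (L / 2 + 2) * s ^ 2 : ℝ) := by fun_prop
  have c1 : Continuous fun u => 1 + P u := by fun_prop
  have i1 : CircleIntegrable (fun u => phi b (1 + P u) * exp (gt N c u).re) 0 1 :=
    ((phi_cont b c1 hre).mul (by fun_prop)).circleIntegrable'
  have i2 : CircleIntegrable (fun u => (K * v * M * L / 2 - κ') * ‖P u‖ ^ 2) 0 1 :=
    cint (by fun_prop)
  have i3 : CircleIntegrable (fun u => (((κ' * A : ℝ) : ℂ) * P u ^ 2 + R u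
      + (M * (K * s * v) ^ 2 : ℝ) * (1 + P u) + (K * v * M * (L / 2 + 2) * s ^ 2 : ℝ)).re) 0 1 :=
    cint (Complex.continuous_re.comp dZ.continuous)
  have i12 : CircleIntegrable (fun u => phi b (1 + P u) * exp (gt N c u).re
      + (K * v * M * L / 2 - κ') * ‖P u‖ ^ 2) 0 1 := i1.add i2
  have k := avg_le (g := fun u => phi a (1 + P u) * ‖Γ u‖)
    (k := fun u => phi b (1 + P u) * exp (gt N c u).re + (K * v * M * L / 2 - κ') * ‖P u‖ ^ 2
      + (((κ' * A : ℝ) : ℂ) * P u ^ 2 + R u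
      + (M * (K * s * v) ^ 2 : ℝ) * (1 + P u) + (K * v * M * (L / 2 + 2) * s ^ 2 : ℝ)).re)
    ((phi_cont a c1 hre).mul dΓ.continuous.norm.continuousOn).circleIntegrable'
    (i12.add i3) (fun u hu => by
      rw [eΓ]
      exact pt h0 hab h1 (hre u hu) (harg u hu) hA' A0 hC1 hM hκ κ1 (by rw [hκ']; field_simp) hL K0
        s0 v0 (gle u hu) (by linarith) (hRle u hu))
  rw [circleAverage_fun_add i12 i3, circleAverage_fun_add i1 i2, avg_mul, pP, avg_re dZ,
    P0, R0] at k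
  simp only [Complex.add_re, Complex.re_ofReal_mul, Complex.ofReal_re, Complex.zero_re,
    Complex.one_re, ne_eq, OfNat.ofNat_ne_zero, not_false_eq_true, zero_pow, mul_zero, add_zero,
    mul_one, zero_add] at k
  exact fin_ar h0 M0 v0 v3 hT v2 J fin k

end Pool.Agent.P.MP_bdc337_an.LN
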