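import Pool.Agent.P.MP_bdc337_an.LN.Bridge
import Pool.Agent.P.MP_bdc337_an.LN.Low
import Pool.Agent.P.MP_bdc337_an.UO.E

/-! The asymptotic upper bound and the limit law. -/

set_option autoImplicit false

open Finset PowerSeries Metric Filter Topology Real

namespace Pool.Agent.P.MP_bdc337_an.LN

open UO

variable {a : ℝ} {q H G : ℂ → ℂ}

lemma norm_le_re (h : Dat a q H G) {z : ℂ} (hz : z ∈ ball (0 : ℂ) 1) :
    ‖q z‖ ≤ (1 + 2 / ((1 - a) * π)) * (q z).re := by
  have := Complex.norm_le_abs_re_add_abs_im (q z)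
  rw [abs_of_pos (h.re z hz)] at this
  linarith [h.im_le hz]

lemma exp_le (h : Dat a q H G) {r : ℝ} (r0 : 0 < r) (r1 : r < 1) {u : ℂ} (hu : ‖u‖ = 1) :
    exp (G (r * u)).re ≤ exp (2 / (1 - a)) := by
  have h1 := h.growth hu le_rfl r0.le r1
  rw [Complex.ofReal_zero, zero_mul, h.G0, Complex.zero_re, sub_zero, sub_zero, Lf_one,
    sub_zero] at h1
  exact exp_le_exp.2 (h1.trans (Lf_le (by linarith [h.a1]) (by linarith)))

lemma jav_le (h : Dat a q H G) {r : ℝ} (r0 : 0 < r) (r1 : r < 1) :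
    jav a q G r ≤ exp (2 / (1 - a)) * (1 + 2 / ((1 - a) * π)) := by
  have nr : ‖(r : ℂ)‖ < 1 := by rwa [Complex.norm_real, Real.norm_of_nonneg r0.le]
  have ss : sphere (0 : ℂ) 1 ⊆ closedBall 0 1 := sphere_subset_closedBall
  have c1 := (scale_diff h.qd nr).continuousOn.mono ss
  have c2 := (scale_diff h.Gdiff nr).continuousOn.mono ss
  have c3 : ContinuousOn (fun u => Complex.arg (q (r * u))) (sphere 0 1) := fun u hu =>
    (Complex.continuousAt_arg (Or.inl (h.re _ (mem_mul nr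
      (mem_sphere_zero_iff_norm.1 hu).le)))).comp_continuousWithinAt (f := fun u => q (r * u))
      (c1 u hu)
  have m := mean_re h.qd r0 r1
  rw [circleAverage_eq_circleAverage_zero_one, h.q0, Complex.one_re] at m
  simp only [add_zero] at m
  rw [jav_eq]
  refine (avg_le (k := fun u => exp (2 / (1 - a)) * (1 + 2 / ((1 - a) * π)) * (q (r * u)).re)
    (((c1.norm.mul (continuous_cos.comp_continuousOn (c3.div_const a))).mul
      (Complex.continuous_re.comp_continuousOn c2).rexp).circleIntegrable zero_le_one)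
    ((continuousOn_const.mul (Complex.continuous_re.comp_continuousOn c1)).circleIntegrable
      zero_le_one) fun u hu => ?_).trans (by rw [avg_mul, m, mul_one])
  have hz := mem_mul nr hu.le
  exact (mul_le_mul ((phi_le a _).trans (norm_le_re h hz)) (exp_le h r0 r1 hu) (exp_pos _).le
    ((norm_nonneg _).trans (norm_le_re h hz))).trans (le_of_eq (by ring))

lemma sq_sum_le {N : ℕ} (hN : 2 ≤ N) {c : ℕ → ℂ} (h : Dat a (fun z => 1 + poly N c z) H G) :
    ∑ k ∈ range N, ‖c k‖ ^ 2 ≤ 36 * (2 * (2 * N) ^ a * (1 + 2 / ((1 - a) * π)) + 2) := by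
  have n2 : (2 : ℝ) ≤ N := by exact_mod_cast hN
  have ni : 1 / (N : ℝ) ≤ 1 / 2 := one_div_le_one_div_of_le two_pos n2
  have ni0 : 0 < 1 / (N : ℝ) := by positivity
  have h6 := rad_pow hN
  set r := 1 - 1 / (N : ℝ) with hr
  have r0 : 0 < r := by linarith
  have r1 : r < 1 := by linarith
  have nr : ‖(r : ℂ)‖ < 1 := by rwa [Complex.norm_real, Real.norm_of_nonneg r0.le]
  have m := mean_re h.qd r0 r1
  rw [circleAverage_eq_circleAverage_zero_one, h.q0, Complex.one_re] at m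
  simp only [add_zero] at m
  have cP : Continuous fun u => poly N c (r * u) := (poly_diff _ _).continuous.comp (by fun_prop)
  have k := avg_le (g := fun u => ‖poly N (fun k => c k * r ^ k) u‖ ^ 2)
    (k := fun u => 2 * (2 * N) ^ a * (1 + 2 / ((1 - a) * π)) * (1 + poly N c (r * u)).re + 2)
    (cint ((poly_diff _ _).continuous.norm.pow 2)) (cint (by fun_prop)) fun u hu => by
      have hz := mem_mul nr hu.le
      have e : ‖(r : ℂ) * u‖ = r := by
        rw [norm_mul, hu, mul_one, Complex.norm_real, Real.norm_of_nonneg r0.le]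
      have h1 := h.norm_le (mem_ball_zero_iff.1 hz)
      have h2 : ((1 + r) / (1 - r)) ^ a ≤ (2 * N : ℝ) ^ a := by
        refine rpow_le_rpow (by positivity) ?_ h.a0.le
        rw [hr, sub_sub_cancel, div_div_eq_mul_div, div_one]
        gcongr
        linarith
      rw [e] at h1
      have h3 := mul_le_mul (h1.trans h2) (norm_le_re h hz) (norm_nonneg _) (by positivity)
      have h4 := norm_sub_le (1 + poly N c (r * u)) 1
      rw [add_sub_cancel_left, norm_one] at h4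
      rw [← poly_scale]
      nlinarith [pow_le_pow_left₀ (norm_nonneg _) h4 2, sq_nonneg (‖1 + poly N c (r * u)‖ - 1)]
  rw [pars, circleAverage_fun_add (cint (by fun_prop)) (cint (by fun_prop)), avg_mul, m,
    circleAverage_const, mul_one] at k
  refine le_trans ?_ (mul_le_mul_of_nonneg_left k (by norm_num))
  rw [mul_sum]
  refine sum_le_sum fun j hj => ?_
  have h7 := h6.trans (pow_le_pow_of_le_one r0.le r1.le (mem_range.1 hj).le)
  rw [norm_mul, norm_pow, Complex.norm_real, Real.norm_of_nonneg r0.le, mul_pow]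
  nlinarith [mul_le_mul_of_nonneg_left (pow_le_pow_left₀ (by norm_num) h7 2) (sq_nonneg ‖c j‖)]

theorem up_lim {C e : ℝ} (h0 : 0 < a) (h1 : a < 1)
    (hC : ∀ q H G r, Dat a q H G → 0 < r → r < 1 → jav a q G r ≤ C) (e0 : 0 < e) :
    ∀ᶠ N in atTop, ∀ q H G, Dat a q H G → cN G N ≤ 2 * a * C + e := by
  have hpi := pi_pos
  have b0 : 0 < 1 - a := by linarith
  set T := 1 + 2 / ((1 - a) * π) with hT
  set M := exp (2 / (1 - a)) with hM
  have T0 : 0 < T := by positivity
  have M0 : 0 < M := exp_pos _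
  obtain ⟨η, η0, hη⟩ := exists_pos_mul_lt e0 (152 * M * T + 12 * M + 2 * e)
  have η1 : 2 * η ≤ 1 := by nlinarith [mul_pos M0 η0, mul_pos (mul_pos M0 T0) η0]
  have t1 : Tendsto (fun N : ℕ => 144 * T * (2 * N : ℝ) ^ (-(1 - a)) + 72 / N) atTop (𝓝 0) := by
    simpa using (((tendsto_rpow_neg_atTop b0).comp (tendsto_natCast_atTop_atTop.const_mul_atTop
      two_pos)).const_mul (144 * T)).add (tendsto_const_div_atTop_nhds_zero_nat (72 : ℝ))
  filter_upwards [t1.eventually (gt_mem_nhds (pow_pos η0 2)), eventually_ge_atTop 2]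
    with N hN N2 q H G h
  have n0 : (0 : ℝ) < N := by exact_mod_cast (by omega : 0 < N)
  have w0 := sqrt_pos.2 n0
  refine lim_r (N := N) fun r r0 r1 => ?_
  obtain ⟨c, q', H', G', -, h', e1, e2, hb⟩ := bridge h N2 r0 r1
  have nr : ‖(r : ℂ)‖ < 1 := by rwa [Complex.norm_real, Real.norm_of_nonneg r0.le]
  have hd := dil h' r0 r1
  simp only [e1] at hd
  have sv : η * √N * (√N)⁻¹ = η := by field_simp
  obtain ⟨Γ, g1, -, g3, g4⟩ := hb (√N)⁻¹ (η * √N) M (by positivity)
    (by rw [inv_pow, sq_sqrt n0.le, mul_inv_cancel₀ n0.ne']) (by positivity)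
    ((sq_sum_le N2 hd).trans (by
      rw [neg_sub, rpow_sub_one (by positivity), ← sub_pos] at hN
      have := mul_pos hN n0
      rw [mul_pow, sq_sqrt n0.le, ← sub_nonneg, ← hT]
      refine this.le.trans (le_of_eq ?_)
      field_simp
      ring)) (by rw [mul_assoc, sv]; exact η1)
    fun u hu => by rw [← e2, Complex.norm_exp]; exact exp_le h' r0 r1 hu
  have cP := (poly_diff N (ct N c)).continuous
  have cG : Continuous (gt N c) := (poly_diff _ _).continuous
  have hre : ∀ u : ℂ, ‖u‖ = 1 → 0 < (1 + poly N (ct N c) u).re := fun u hu =>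
    e1 u ▸ h'.re _ (mem_mul nr hu.le)
  have cφ := phi_cont a (continuous_const.add cP) hre
  have i1 : CircleIntegrable (fun u => phi a (1 + poly N (ct N c) u) * exp (gt N c u).re) 0 1 :=
    (cφ.mul (Continuous.continuousOn (by fun_prop))).circleIntegrable'
  have i2 : CircleIntegrable (fun u => 76 * M * η * T * (1 + poly N (ct N c) u).re) 0 1 :=
    cint (by fun_prop)
  have k := avg_le (g := fun u => phi a (1 + poly N (ct N c) u) * ‖Γ u‖)
    (cφ.mul g1.continuous.norm.continuousOn).circleIntegrable' (i1.add i2) fun u hu => by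
      have hz := mem_mul nr hu.le
      have k1 := phi_nonneg h0 (h'.arg _ hz)
      have k2 := (phi_le a _).trans (norm_le_re h' hz)
      have k3 := norm_sub_norm_le (Γ u) (Complex.exp (gt N c u))
      have k4 := g3 u hu
      rw [mul_assoc, sv] at k4
      rw [Complex.norm_exp] at k3
      rw [e1] at k1 k2
      rw [Pi.add_apply]
      nlinarith [mul_le_mul_of_nonneg_left (show ‖Γ u‖ ≤ exp (gt N c u).re + 76 * M * η by
        linarith) k1, mul_le_mul_of_nonneg_left k2 (show 0 ≤ 76 * M * η by positivity)]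
  have j := hC _ _ _ r h' r0 r1
  have m := avg_re (g := fun u => 1 + poly N (ct N c) u) (by fun_prop)
  rw [jav_eq] at j
  simp only [e1, e2] at j
  rw [← e1 0, mul_zero, h'.q0, Complex.one_re] at m
  rw [circleAverage_add i1 i2, avg_mul, m, mul_one] at k
  rw [mul_assoc (12 * M), ← mul_pow, sv] at g4
  have k5 := mul_le_mul_of_nonneg_left (k.trans (add_le_add_left j _)) (show 0 ≤ 2 * a by linarith)
  nlinarith [mul_pos M0 η0, mul_pos (mul_pos M0 T0) η0, mul_pos e0 η0,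
    mul_le_mul_of_nonneg_left η1 (mul_pos M0 η0).le,
    mul_le_mul_of_nonneg_left h1.le (mul_pos (mul_pos M0 T0) η0).le]

lemma jav_int (h : Dat a q H G) {f : ℂ → ℂ}
    (hf : ∀ z ∈ ball (0 : ℂ) 1, f z = z * Complex.exp (G z)) {r : ℝ} (r0 : 0 < r) (r1 : r < 1) :
    a / π * ∫ t in (0 : ℝ)..2 * π, ‖deriv f (circleMap 0 r t)‖ * cos (Complex.arg
      (circleMap 0 r t * deriv f (circleMap 0 r t) / f (circleMap 0 r t)) / a) =
      2 * a * jav a q G r := by
  have hpi := pi_pos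
  rw [jav, circleAverage_def, smul_eq_mul, ← mul_assoc,
    show 2 * a * (2 * π)⁻¹ = a / π by field_simp]
  congr 2
  funext t
  have hz := circ_mem r0 r1 t
  have z0 : circleMap 0 r t ≠ 0 := circleMap_ne_center r0.ne'
  have e : f =ᶠ[𝓝 (circleMap 0 r t)] fun z => z * Complex.exp (G z) :=
    mem_of_superset (isOpen_ball.mem_nhds hz) hf
  rw [e.deriv_eq, (h.f_deriv hz).deriv, hf _ hz, mul_div_mul_left _ _ z0,
    mul_div_cancel_left₀ _ (Complex.exp_ne_zero _), norm_mul, Complex.norm_exp, phi]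
  ring

lemma coef_eq (h : Dat a q H G) {f : ℂ → ℂ}
    (hf : ∀ z ∈ ball (0 : ℂ) 1, f z = z * Complex.exp (G z)) (N : ℕ) :
    N * ‖iteratedDeriv (N + 1) f 0 / ((N + 1).factorial : ℂ)‖ = cN G N := by
  have hnb : ball (0 : ℂ) 1 ∈ 𝓝 (0 : ℂ) := ball_mem_nhds 0 one_pos
  rw [← coeff_tay, tay_congr (mem_of_superset hnb hf), tay_mul (f := fun z => z) analyticAt_id
    (h.Gdiff.cexp.analyticAt hnb), tay_id, coeff_succ_X_mul, cN]

theorem limit_law (h0 : 0 < a) (h1 : a < 1) {S : (ℂ → ℂ) → Prop} {J : (ℂ → ℂ) → ℝ → ℝ}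
    (hS : ∀ f, S f ↔ DifferentiableOn ℂ f (ball 0 1) ∧ Set.InjOn f (ball 0 1) ∧ f 0 = 0 ∧
      deriv f 0 = 1 ∧
      ∀ z ∈ ball (0 : ℂ) 1, z ≠ 0 → |Complex.arg (z * deriv f z / f z)| < a * π / 2)
    (hJ : ∀ f r, J f r = a / π * ∫ t in (0 : ℝ)..2 * π, ‖deriv f (circleMap 0 r t)‖ * cos
      (Complex.arg (circleMap 0 r t * deriv f (circleMap 0 r t) / f (circleMap 0 r t)) / a)) :
    ∃ (A : ℕ → ℝ) (C : ℝ),
      (∀ n, 2 ≤ n → IsLUB {x | ∃ f, S f ∧ x = ‖iteratedDeriv n f 0 / (n.factorial : ℂ)‖} (A n)) ∧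
      IsLUB {x | ∃ f r, S f ∧ 0 < r ∧ r < 1 ∧ x = J f r} C ∧
      Tendsto (fun n : ℕ => n * A n) atTop (𝓝 C) := by
  have ex : ∀ f, S f → ∃ q H G, Dat a q H G ∧ ∀ z ∈ ball (0 : ℂ) 1, f z = z * Complex.exp (G z) :=
    fun f hf => by
      obtain ⟨a1, a2, a3, a4, a5⟩ := (hS f).1 hf
      exact exists_dat h0 h1 a1 a2 a3 a4 a5
  obtain ⟨q0, H0, G0, D0, -⟩ := lower h0 h1 (m := 1) le_rfl le_rfl
  have hA : ∀ n, 2 ≤ n → IsLUB {x | ∃ f, S f ∧ x = ‖iteratedDeriv n f 0 / (n.factorial : ℂ)‖}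
      (sSup {x | ∃ f, S f ∧ x = ‖iteratedDeriv n f 0 / (n.factorial : ℂ)‖}) := fun n hn =>
    isLUB_csSup ⟨_, _, (hS _).2 D0.star, rfl⟩ ⟨_, by
      rintro x ⟨f, hf, rfl⟩
      obtain ⟨a1, a2, a3, a4, a5⟩ := (hS f).1 hf
      rw [← coeff_tay]
      exact upper_fin h0 h1 a1 a2 a3 a4 a5 hn⟩
  have hC : IsLUB {x | ∃ f r, S f ∧ 0 < r ∧ r < 1 ∧ x = J f r}
      (sSup {x | ∃ f r, S f ∧ 0 < r ∧ r < 1 ∧ x = J f r}) :=
    isLUB_csSup ⟨_, _, 1 / 2, (hS _).2 D0.star, by norm_num, by norm_num, rfl⟩ ⟨_, by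
      rintro x ⟨f, r, hf, r0, r1, rfl⟩
      obtain ⟨q, H, G, D, e⟩ := ex f hf
      rw [hJ, jav_int D e r0 r1]
      exact mul_le_mul_of_nonneg_left (jav_le D r0 r1) (by linarith)⟩
  refine ⟨_, _, hA, hC, ?_⟩
  generalize sSup {x | ∃ f r, S f ∧ 0 < r ∧ r < 1 ∧ x = J f r} = C at hC
  set A := fun n : ℕ => sSup {x | ∃ f, S f ∧ x = ‖iteratedDeriv n f 0 / (n.factorial : ℂ)‖}
  have key : Tendsto (fun N : ℕ => N * A (N + 1)) atTop (𝓝 C) := by
    refine tendsto_order.2 ⟨fun x hx => ?_, fun x hx => ?_⟩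
    · obtain ⟨_, ⟨f, r, hf, r0, r1, rfl⟩, hx⟩ := (lt_isLUB_iff hC).1 hx
      obtain ⟨q, H, G, D, e⟩ := ex f hf
      rw [hJ, jav_int D e r0 r1] at hx
      filter_upwards [low D r0 r1 (half_pos (sub_pos.2 hx)), eventually_ge_atTop 1]
        with N ⟨q', H', G', D', hN⟩ N1
      have := mul_le_mul_of_nonneg_left ((hA (N + 1) (by omega)).1 ⟨_, (hS _).2 D'.star, rfl⟩)
        (Nat.cast_nonneg (α := ℝ) N)
      rw [coef_eq D' fun _ _ => rfl] at this
      linarith
    · filter_upwards [up_lim (C := C / (2 * a)) h0 h1 (fun q H G r D r0 r1 => by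
        have := hC.1 ⟨_, r, (hS _).2 D.star, r0, r1, rfl⟩
        rw [hJ, jav_int D (fun _ _ => rfl) r0 r1] at this
        rwa [le_div_iff₀' (by linarith)]) (half_pos (sub_pos.2 hx)), eventually_ge_atTop 1]
        with N hN N1
      have n0 : (0 : ℝ) < N := by exact_mod_cast N1
      rw [mul_div_cancel₀ _ (by linarith)] at hN
      refine lt_of_le_of_lt ((le_div_iff₀' n0).1 ((hA (N + 1) (by omega)).2 ?_))
        (show C + (x - C) / 2 < x by linarith)
      rintro _ ⟨f, hf, rfl⟩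
      obtain ⟨q, H, G, D, e⟩ := ex f hf
      rw [le_div_iff₀' n0, coef_eq D e]
      exact hN q H G D
  have k2 := ((tendsto_const_div_atTop_nhds_zero_nat (1 : ℝ)).const_add 1).mul key
  rw [add_zero, one_mul] at k2
  refine (tendsto_add_atTop_iff_nat 1).1 (k2.congr' ?_)
  filter_upwards [eventually_ge_atTop 1] with N N1
  have n0 : (0 : ℝ) < N := by exact_mod_cast N1
  push_cast
  field_simp
  rfl

end Pool.Agent.P.MP_bdc337_an.LN
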